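import Pool.Agent.Lib.CX.Blue

/-! Algebra of the coordinates of the classifying space. -/

noncomputable section

open Set Function

namespace Pool.Agent.Lib.CX

variable {G G' : Type} [Group G] [Group G']

namespace BG1

theorem co_mk (p : Σ σ : ℕ × (ℕ → G), Sx σ.1) {i j : ℕ} (hi : p.2.1 i ≠ 0) (hj : p.2.1 j ≠ 0) :
    BG.co i j (Quot.mk _ p : BG G) = p.1.2 i * (p.1.2 j)⁻¹ := if_pos ⟨hi, hj⟩

theorem t_ix (p : BG G) : p.t p.ix ≠ 0 := by
  refine Nat.sInf_mem (s := {i | p.t i ≠ 0}) ?_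
  induction p using Quot.ind with
  | mk p =>
    by_contra h
    have h1 : ∀ i, p.2.1 i = 0 := fun i => not_not.1 fun hi => h ⟨i, hi⟩
    have h2 := p.2.2.2.2
    simp [h1] at h2

theorem co_mul (p : BG G) (i j k : ℕ) : p.t i ≠ 0 → p.t j ≠ 0 → p.t k ≠ 0 →
    p.co i j * p.co j k = p.co i k := by
  induction p using Quot.ind with
  | mk p =>
    intro hi hj hk
    rw [co_mk p hi hj, co_mk p hj hk, co_mk p hi hk, mul_assoc, inv_mul_cancel_left]

theorem co_one (p : BG G) (i j : ℕ) : p.t i = 0 ∨ p.t j = 0 → p.co i j = 1 := by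
  induction p using Quot.ind with
  | mk p => exact fun h => if_neg fun h' => h.elim h'.1 h'.2

theorem mp_t (σ : G → G') (p : BG G) : (BG.mp σ p).t = p.t :=
  congrArg BG.t (Quot.out_eq p)

theorem mp_co (σ : G → G') (p : BG G) (i j : ℕ) (hi : p.t i ≠ 0) (hj : p.t j ≠ 0) :
    (BG.mp σ p).co i j = σ (p.co i p.ix) * (σ (p.co j p.ix))⁻¹ := by
  rw [← mp_t σ p] at hi hj
  exact co_mk _ hi hj

theorem ext (p q : BG G) : p.t = q.t → (∀ i j, p.co i j = q.co i j) → p = q := by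
  induction p using Quot.ind with
  | mk p =>
  induction q using Quot.ind with
  | mk q =>
    intro h h'
    have h1 : p.2.1 = q.2.1 := h
    exact Quot.sound ⟨h, fun i j hi hj => by
      rw [← co_mk p hi hj, h', co_mk q (h1 ▸ hi) (h1 ▸ hj)]⟩

theorem mp_hom (φ : G →* G') (p : BG G) (i j : ℕ) : (BG.mp φ p).co i j = φ (p.co i j) := by
  by_cases h : p.t i = 0 ∨ p.t j = 0
  · rw [co_one p i j h, co_one _ i j (by rwa [mp_t]), map_one]
  · rw [not_or] at h
    rw [mp_co φ p i j h.1 h.2, ← co_mul p i j p.ix h.1 h.2 (t_ix p), map_mul, mul_inv_cancel_right]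

theorem mp_mk (φ : G →* G') (p : Σ σ : ℕ × (ℕ → G), Sx σ.1) :
    BG.mp φ (Quot.mk _ p : BG G) = (Quot.mk _ ⟨(p.1.1, φ ∘ p.1.2), p.2⟩ : BG G') := by
  refine ext _ _ (mp_t _ _) fun i j => (mp_hom φ _ i j).trans ?_
  by_cases h : p.2.1 i = 0 ∨ p.2.1 j = 0
  · exact ((congrArg φ (co_one (Quot.mk _ p) i j h)).trans (map_one φ)).trans
      (co_one (Quot.mk _ ⟨(p.1.1, φ ∘ p.1.2), p.2⟩) i j h).symm
  · rw [not_or] at h
    refine (congrArg φ (co_mk p h.1 h.2)).trans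
      (Eq.trans ?_ (co_mk ⟨(p.1.1, φ ∘ p.1.2), p.2⟩ h.1 h.2).symm)
    rw [map_mul, map_inv]
    rfl

end BG1

open BG1 in
theorem stBG1 : St_BG1 := fun G G' _ _ =>
  ⟨ext, t_ix, co_mul, co_one,
    fun i => continuous_quot_lift (f := fun p : Σ σ : ℕ × (ℕ → G), Sx σ.1 => p.2.1 i)
      (fun _ _ h => congrFun h.1 i)
      (continuous_sigma fun _ => (continuous_apply i).comp continuous_subtype_val) |>.congr
      fun p => by induction p using Quot.ind with | mk p => rfl,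
    fun σ p => ⟨mp_t σ p, by rw [BG.ix, mp_t]; rfl, mp_co σ p⟩,
    fun φ => ⟨isQuotientMap_quot_mk.continuous_iff.2 (continuous_sigma fun σ =>
      (continuous_quot_mk.comp (continuous_sigmaMk (σ := fun σ : ℕ × (ℕ → G') => Sx σ.1)
        (i := (σ.1, φ ∘ σ.2)))).congr fun t => (mp_mk φ ⟨σ, t⟩).symm), mp_hom φ⟩⟩

end Pool.Agent.Lib.CX
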