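import Pool.Agent.Lib.CX.Blue

/-! A compact subset of the classifying space lies in a finite subcomplex. -/

noncomputable section

open Set Function Filter Topology

namespace Pool.Agent.Lib.CX

namespace BG2

variable {G : Type} [Group G]

/-- the coordinates and cocycle values used by a point -/
def ft (p : BG G) : Set (ℕ ⊕ G) :=
  Sum.inl '' {i | p.t i ≠ 0} ∪ Sum.inr '' {g | ∃ i j, p.co i j = g}

lemma exists_fin (σ : ℕ × (ℕ → G)) : ∃ T : Set (ℕ ⊕ G), T.Finite ∧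
    ∀ t : Sx σ.1, ft (Quot.mk _ ⟨σ, t⟩ : BG G) ⊆ T := by
  refine ⟨Sum.inl '' Iio σ.1 ∪ Sum.inr '' insert 1
    (image2 (fun i j => σ.2 i * (σ.2 j)⁻¹) (Iio σ.1) (Iio σ.1)), ((finite_Iio _).image _).union
    ((((finite_Iio _).image2 _ (finite_Iio _)).insert _).image _), fun t => ?_⟩
  have h : ∀ i, t.1 i ≠ 0 → i < σ.1 := fun i hi => lt_of_not_ge fun h => hi (t.2.2.1 i h)
  refine union_subset_union (image_mono h) (image_mono ?_)
  rintro _ ⟨i, j, rfl⟩
  simp only [BG.co]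
  split_ifs with h'
  · exact Or.inr (mem_image2_of_mem (h i h'.1) (h j h'.2))
  · exact Or.inl rfl

lemma ft_finite (p : BG G) : (ft p).Finite := by
  obtain ⟨⟨σ, t⟩, rfl⟩ := Quot.exists_rep p
  obtain ⟨T, h1, h2⟩ := exists_fin σ
  exact h1.subset (h2 t)

lemma finite_of_compact {K : Set (BG G)} (hK : IsCompact K) : (⋃ p ∈ K, ft p).Finite := by
  have h0 : ∀ a : (⋃ p ∈ K, ft p), ∃ p ∈ K, a.1 ∈ ft p := fun a => by
    obtain ⟨p, h1, h2⟩ := mem_iUnion₂.1 a.2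
    exact ⟨p, h1, h2⟩
  choose P h1 h2 using h0
  have h3 : ∀ B ⊆ range P, IsClosed B := fun B hB => by
    refine (isQuotientMap_quot_mk.isClosed_preimage).1 (isClosed_sigma_iff.2 fun σ => ?_)
    obtain ⟨T, h4, h5⟩ := exists_fin σ
    refine Set.Finite.isClosed ((((h4.preimage Subtype.val_injective.injOn).image P).preimage
      (f := fun t : Sx σ.1 => (Quot.mk _ ⟨σ, t⟩ : BG G))
      fun t _ t' _ h => Subtype.ext (congrArg BG.t h)).subset fun t ht => ?_)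
    obtain ⟨a, ha⟩ := hB ht
    exact ⟨a, h5 t (ha ▸ h2 a), ha⟩
  obtain ⟨s, -, h4⟩ := (hK.of_isClosed_subset (h3 _ le_rfl) (range_subset_iff.2 h1)).elim_nhds_subcover
    (fun p => (range P \ {p})ᶜ) fun p _ => (h3 _ sdiff_subset).isOpen_compl.mem_nhds (by simp)
  refine (s.finite_toSet.biUnion fun p _ => ft_finite p).subset fun a ha => ?_
  obtain ⟨p, h5, h6⟩ := mem_iUnion₂.1 (h4 ⟨⟨a, ha⟩, rfl⟩)
  obtain rfl : P ⟨a, ha⟩ = p := by simpa using h6
  exact mem_biUnion h5 (h2 ⟨a, ha⟩)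

end BG2

theorem stBG2' : St_BG2 := by
  intro G _ K hK
  have h := BG2.finite_of_compact hK
  obtain ⟨n, hn⟩ := (h.preimage Sum.inl_injective.injOn).bddAbove
  refine ⟨n + 1, (h.preimage Sum.inr_injective.injOn).toFinset, fun p hp => ⟨fun i hi => ?_,
    fun i j => (Set.Finite.mem_toFinset _).2 (mem_biUnion hp (Or.inr ⟨_, ⟨i, j, rfl⟩, rfl⟩))⟩⟩
  by_contra h'
  have : i ≤ n := hn (mem_biUnion hp (Or.inl ⟨i, h', rfl⟩))
  omega

theorem stBG2 (_ : St_BG1) : St_BG2 := stBG2'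

end Pool.Agent.Lib.CX
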