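import Pool.Agent.Lib.CX.Defs

/-! Clifford multiplication: adjoints, the volume element and the grading operator. -/

noncomputable section

open CliffordAlgebra
open scoped InnerProductSpace

namespace Pool.Agent.Lib.CX

namespace Clif

section Ring

variable {R J : Type} [Ring R] (g : J → R)

theorem anti_prod (x : R) : ∀ l : List J, (∀ j ∈ l, x * g j = -(g j * x)) →
    x * (l.map g).prod = (-1) ^ l.length * ((l.map g).prod * x)
  | [], _ => by simp
  | a :: l, h => by
    have ih := anti_prod x l fun j hj => h j (List.mem_cons_of_mem _ hj)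
    have hc := (Commute.neg_one_right (g a)).pow_right l.length
    rw [List.map_cons, List.prod_cons, ← mul_assoc, h a List.mem_cons_self, neg_mul, mul_assoc, ih,
      ← mul_assoc, hc.eq, List.length_cons, pow_succ]
    simp [mul_assoc]

variable (ha : ∀ i j, i ≠ j → g i * g j = -(g j * g i))

include ha in
theorem mem_prod : ∀ l : List J, l.Nodup → ∀ i ∈ l,
    g i * (l.map g).prod = (-1) ^ (l.length + 1) * ((l.map g).prod * g i)
  | [], _, _, hi => by simp at hi
  | a :: l, hl, i, hi => by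
    obtain ⟨hal, hl'⟩ := List.nodup_cons.1 hl
    rw [List.map_cons, List.prod_cons, List.length_cons]
    by_cases e : i = a
    · subst e
      have := anti_prod g (g i) l fun j hj => ha i j fun e => hal (e ▸ hj)
      have hc := (Commute.neg_one_right (g i)).pow_right l.length
      conv_lhs => rw [this, ← mul_assoc, hc.eq]
      simp [pow_succ, mul_assoc]
    · have ih := mem_prod l hl' i ((List.mem_cons.1 hi).resolve_left e)
      have hc := (Commute.neg_one_right (g a)).pow_right (l.length + 1)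
      rw [← mul_assoc, ha i a e, neg_mul, mul_assoc, ih, ← mul_assoc, hc.eq, pow_succ _ (l.length + 1)]
      simp [mul_assoc]

include ha in
theorem prod_sq (hs : ∀ i, g i * g i = -1) : ∀ l : List J, l.Nodup →
    (l.map g).prod * (l.map g).prod = (-1) ^ (l.length * (l.length + 1) / 2)
  | [], _ => by simp
  | a :: l, hl => by
    obtain ⟨hal, hl'⟩ := List.nodup_cons.1 hl
    have ih := prod_sq hs l hl'
    have h := anti_prod g (g a) l fun j hj => ha a j fun e => hal (e ▸ hj)
    have e : (l.length + 1) * (l.length + 1 + 1) / 2 =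
        l.length + (l.length * (l.length + 1) / 2 + 1) := by
      rw [show (l.length + 1) * (l.length + 1 + 1) = l.length * (l.length + 1) + 2 * (l.length + 1) by
        ring, Nat.add_mul_div_left _ _ (by norm_num)]
      omega
    rw [List.map_cons, List.prod_cons, List.length_cons, e, pow_add, pow_succ, ← ih]
    calc g a * (l.map g).prod * (g a * (l.map g).prod)
        = (-1) ^ l.length * ((l.map g).prod * (g a * g a) * (l.map g).prod) := by
          conv_lhs => arg 1; rw [h]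
          simp only [mul_assoc]
      _ = _ := by rw [hs a]; simp

end Ring

variable {n : ℕ}

theorem Qn_apply (v : Eu n) : Qn n v = -‖v‖ ^ 2 := by
  simp only [Qn, _root_.neg_apply, LinearMap.BilinMap.toQuadraticMap_apply, innerₗ_apply_apply,
    real_inner_self_eq_norm_sq]

theorem polar_Qn (u v : Eu n) : QuadraticMap.polar (Qn n) u v = -(2 * ⟪u, v⟫_ℝ) := by
  rw [QuadraticMap.polar, Qn_apply, Qn_apply, Qn_apply, norm_add_sq_real]
  ring

theorem ι_add_swap (u v : Eu n) : ι (Qn n) u * ι (Qn n) v + ι (Qn n) v * ι (Qn n) u =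
    algebraMap ℝ (Cl n) (-(2 * ⟪u, v⟫_ℝ)) := by
  rw [ι_mul_ι_add_swap, polar_Qn]

theorem inner_bv (i j : Fin n) : ⟪bv i, bv j⟫_ℝ = if i = j then 1 else 0 :=
  orthonormal_iff_ite.1 (EuclideanSpace.orthonormal_single (𝕜 := ℝ)) i j

theorem bv_anti (i j : Fin n) (h : i ≠ j) :
    ι (Qn n) (bv i) * ι (Qn n) (bv j) = -(ι (Qn n) (bv j) * ι (Qn n) (bv i)) := by
  have := ι_add_swap (bv i) (bv j)
  rw [inner_bv, if_neg h] at this
  exact eq_neg_of_add_eq_zero_left (by simpa using this)

theorem bv_sq (i : Fin n) : ι (Qn n) (bv i) * ι (Qn n) (bv i) = -1 := by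
  rw [ι_sq_scalar, Qn_apply, ← real_inner_self_eq_norm_sq, inner_bv]
  simp

theorem sum_bv (v : Eu n) : v = ∑ i, v i • bv i := by
  simpa [bv] using ((EuclideanSpace.basisFun (Fin n) ℝ).sum_repr v).symm

/-- the volume element -/
def om (n : ℕ) : Cl n := (List.ofFn fun i => ι (Qn n) (bv i)).prod

theorem om_eq : om n = ((List.finRange n).map fun i => ι (Qn n) (bv i)).prod := by
  rw [om, List.ofFn_eq_map]

theorem ι_mul_om (v : Eu n) : ι (Qn n) v * om n = (-1) ^ (n + 1) * (om n * ι (Qn n) v) := by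
  have h : ∀ i, ι (Qn n) (bv i) * om n = (-1) ^ (n + 1) * (om n * ι (Qn n) (bv i)) := fun i => by
    have := mem_prod (fun i => ι (Qn n) (bv i)) bv_anti _ (List.nodup_finRange n) i
      (List.mem_finRange i)
    rwa [List.length_finRange, ← om_eq] at this
  rw [sum_bv v]
  simp only [map_sum, map_smul, Finset.sum_mul, Finset.mul_sum, smul_mul_assoc, mul_smul_comm, h]

theorem om_sq : om n * om n = (-1) ^ (n * (n + 1) / 2) := by
  have := prod_sq (fun i => ι (Qn n) (bv i)) bv_anti bv_sq _ (List.nodup_finRange n)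
  rwa [List.length_finRange, ← om_eq] at this

theorem om_mul_ι (hn : Even n) (v : Eu n) : om n * ι (Qn n) v = -(ι (Qn n) v * om n) := by
  rw [ι_mul_om, hn.add_one.neg_one_pow]
  simp

theorem om_mul (hn : Even n) (x : Cl n) : om n * x = involute x * om n := by
  induction x using CliffordAlgebra.induction with
  | algebraMap r => rw [AlgHom.commutes, Algebra.commutes]
  | ι v => rw [om_mul_ι hn, involute_ι, neg_mul]
  | mul a b ha hb => rw [← mul_assoc, ha, mul_assoc, hb, map_mul, mul_assoc]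
  | add a b ha hb => rw [mul_add, ha, hb, map_add, add_mul]

theorem om_sq_one (hn : 4 ∣ n) : om n * om n = 1 := by
  obtain ⟨k, rfl⟩ := hn
  rw [om_sq, show 4 * k * (4 * k + 1) / 2 = 2 * (k * (4 * k + 1)) by
    rw [show 4 * k * (4 * k + 1) = 2 * (2 * (k * (4 * k + 1))) by ring]
    exact Nat.mul_div_cancel_left _ (by norm_num), pow_mul]
  simp

theorem four_dvd (k : ℕ) : 4 ∣ 8 * k + 7 + 1 := ⟨2 * k + 2, by ring⟩

theorem even_dim (k : ℕ) : Even (8 * k + 7 + 1) := ⟨4 * k + 4, by ring⟩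

end Clif

namespace Spinor

open Clif

variable {n N : ℕ} (S : Spinor n N)

/-- the adjoint of Clifford multiplication -/
theorem inner_c (x : Cl n) : ∀ u w, ⟪S.c x u, w⟫_ℝ = ⟪u, S.c (star x) w⟫_ℝ := by
  induction x using CliffordAlgebra.induction with
  | algebraMap r =>
    intro u w
    rw [CliffordAlgebra.star_algebraMap, AlgHom.commutes, Algebra.algebraMap_eq_smul_one]
    simp [real_inner_smul_left, real_inner_smul_right]
  | ι v => intro u w; rw [S.skew, star_ι, map_neg]; simp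
  | mul a b ha hb =>
    intro u w
    rw [star_mul, map_mul, map_mul, mul_apply_eq_comp, mul_apply_eq_comp,
      ha, hb]
  | add a b ha hb =>
    intro u w
    rw [star_add, map_add, map_add, _root_.add_apply, _root_.add_apply,
      inner_add_left, inner_add_right, ha, hb]

theorem adjoint_c (x : Cl n) : ContinuousLinearMap.adjoint (S.c x) = S.c (star x) :=
  ((ContinuousLinearMap.eq_adjoint_iff _ _).2 fun u w => by
    rw [S.inner_c, star_star]).symm

theorem inner_c_c {x : Cl n} (hx : star x * x = 1) (u w : Eu N) :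
    ⟪S.c x u, S.c x w⟫_ℝ = ⟪u, w⟫_ℝ := by
  rw [S.inner_c, ← mul_apply_eq_comp, ← map_mul, hx, map_one]
  rfl

theorem inner_spin {s : Cl n} (hs : s ∈ spinGroup (Qn n)) (u w : Eu N) :
    ⟪S.c s u, S.c s w⟫_ℝ = ⟪u, w⟫_ℝ := S.inner_c_c (spinGroup.star_mul_self_of_mem hs) u w

theorem norm_spin {s : Cl n} (hs : s ∈ spinGroup (Qn n)) (u : Eu N) : ‖S.c s u‖ = ‖u‖ := by
  rw [norm_eq_sqrt_real_inner, S.inner_spin hs, ← norm_eq_sqrt_real_inner]

theorem norm_ι (v : Eu n) (u : Eu N) : ‖S.c (ι (Qn n) v) u‖ = ‖v‖ * ‖u‖ := by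
  have h : ‖S.c (ι (Qn n) v) u‖ ^ 2 = (‖v‖ * ‖u‖) ^ 2 := by
    rw [← real_inner_self_eq_norm_sq, S.skew, ← mul_apply_eq_comp, ← map_mul,
      ι_sq_scalar, Qn_apply, AlgHom.commutes, Algebra.algebraMap_eq_smul_one]
    simp [real_inner_smul_right, mul_pow]
  exact (pow_left_inj₀ (norm_nonneg _) (by positivity) two_ne_zero).1 h

theorem c_add_swap (u v : Eu n) :
    S.c (ι (Qn n) u) * S.c (ι (Qn n) v) + S.c (ι (Qn n) v) * S.c (ι (Qn n) u) =
      (-(2 * ⟪u, v⟫_ℝ)) • (1 : Eu N →L[ℝ] Eu N) := by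
  rw [← map_mul S.c, ← map_mul S.c, ← map_add S.c, ι_add_swap, AlgHom.commutes, Algebra.algebraMap_eq_smul_one]

theorem gr_eq : S.gr = S.c (om n) := rfl

theorem gr_mul_gr (hn : 4 ∣ n) : S.gr * S.gr = 1 := by
  rw [gr_eq, ← map_mul, om_sq_one hn, map_one]

theorem gr_gr (hn : 4 ∣ n) (u : Eu N) : S.gr (S.gr u) = u := by
  rw [← mul_apply_eq_comp, S.gr_mul_gr hn]; rfl

theorem gr_mul_c (hn : Even n) (x : Cl n) : S.gr * S.c x = S.c (involute x) * S.gr := by
  rw [gr_eq, ← map_mul, om_mul hn, map_mul]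

theorem gr_mul_ι (hn : Even n) (v : Eu n) :
    S.gr * S.c (ι (Qn n) v) = -(S.c (ι (Qn n) v) * S.gr) := by
  rw [S.gr_mul_c hn, involute_ι, map_neg]
  exact neg_mul (S.c (ι (Qn n) v)) S.gr

theorem gr_ι (hn : Even n) (v : Eu n) (u : Eu N) :
    S.gr (S.c (ι (Qn n) v) u) = -S.c (ι (Qn n) v) (S.gr u) := by
  rw [← mul_apply_eq_comp, S.gr_mul_ι hn]; rfl

theorem gr_ι_ι (hn : Even n) (v v' : Eu n) (u : Eu N) :
    S.gr (S.c (ι (Qn n) v * ι (Qn n) v') u) = S.c (ι (Qn n) v * ι (Qn n) v') (S.gr u) := by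
  rw [← mul_apply_eq_comp, S.gr_mul_c hn, map_mul involute, involute_ι, involute_ι,
    neg_mul_neg]
  rfl

theorem gr_mul_spin (hn : Even n) {s : Cl n} (hs : s ∈ spinGroup (Qn n)) :
    S.gr * S.c s = S.c s * S.gr := by
  rw [S.gr_mul_c hn, spinGroup.involute_eq hs]

theorem gr_spin (hn : Even n) {s : Cl n} (hs : s ∈ spinGroup (Qn n)) (u : Eu N) :
    S.gr (S.c s u) = S.c s (S.gr u) := by
  rw [← mul_apply_eq_comp, S.gr_mul_spin hn hs]; rfl

theorem norm_gr (u : Eu N) : ‖S.gr u‖ = ‖u‖ := by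
  have h : ∀ (l : List (Fin n)) (u : Eu N),
      ‖S.c (l.map fun i => ι (Qn n) (bv i)).prod u‖ = ‖u‖ := by
    intro l
    induction l with
    | nil => simp
    | cons a l ih =>
      intro u
      rw [List.map_cons, List.prod_cons, map_mul, mul_apply_eq_comp, S.norm_ι, ih]
      simp [bv]
  rw [gr_eq, om_eq, h]

theorem inner_gr_gr (u w : Eu N) : ⟪S.gr u, S.gr w⟫_ℝ = ⟪u, w⟫_ℝ :=
  (LinearIsometry.mk S.gr.toLinearMap S.norm_gr).inner_map_map u w

/-- the grading operator is symmetric -/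
theorem inner_gr (hn : 4 ∣ n) (u w : Eu N) : ⟪S.gr u, w⟫_ℝ = ⟪u, S.gr w⟫_ℝ := by
  rw [← S.inner_gr_gr (S.gr u), S.gr_gr hn]

theorem isSelfAdjoint_gr (hn : 4 ∣ n) : IsSelfAdjoint S.gr :=
  ContinuousLinearMap.isSelfAdjoint_iff_isSymmetric.2 fun u w => S.inner_gr hn u w

end Spinor

end Pool.Agent.Lib.CX
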