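import Pool.Agent.Lib.CX.Blue

/-! Block FIN: the reference map has values in a finite subcomplex. -/

namespace Pool.Agent.Lib.CX

open Set

theorem Sing.exists_core {G : Type} [Group G] {m : ℕ} (x : Sing G m) (p : x.X.M) :
    ∃ q ∈ x.core, x.f p = x.f q := by
  by_cases hp : p ∈ x.core
  · exact ⟨p, hp, rfl⟩
  · obtain ⟨⟨y, t⟩, ht, rfl⟩ := not_not.1 hp
    have h1 : (bv 0 : Eu 1) 0 = 1 := by simp [bv]
    refine ⟨x.j (y, bv 0), ?_, x.cyl y t (le_of_lt ht)⟩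
    rintro ⟨z, hz, he⟩
    have hz' : (1 : ℝ) < z.2 0 := hz
    have := x.prod.2.1 (show z ∈ {z : x.N.M × Eu 1 | 0 < z.2 0} from lt_trans one_pos hz')
      (show (y, bv 0) ∈ {z : x.N.M × Eu 1 | 0 < z.2 0} from lt_of_lt_of_eq one_pos h1.symm) he
    rw [this, h1] at hz'
    exact lt_irrefl _ hz'

theorem stFIN (hBG2 : St_BG2) : St_FIN := by
  intro G _ m x
  obtain ⟨n, s, h⟩ := hBG2 G _ (x.core_cpt.image x.cont)
  refine ⟨n, s, fun p => ?_⟩
  obtain ⟨q, hq, e⟩ := x.exists_core p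
  exact e ▸ h ⟨q, hq, rfl⟩

end Pool.Agent.Lib.CX
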