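import Pool.Agent.Lib.CX.Vol
import Pool.Agent.Lib.CX.BG1
import Pool.Agent.Lib.CX.BG2
import Pool.Agent.Lib.CX.FIN
import Pool.Agent.Lib.CX.ClifGr

/-! Measurability of the trivialisations and existence of the test vectors. -/

noncomputable section

open Set Function MeasureTheory CliffordAlgebra Topology Filter BCO
open scoped Manifold ContDiff ENNReal

namespace Pool.Agent.Lib.CX

variable {G : Type} [Group G]

theorem BG.continuous_t (i : ℕ) : Continuous fun p : BG G => p.t i :=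
  (stBG1 G G).2.2.2.2.1 i

/-- The cocycle is locally constant. -/
theorem BG.isOpen_co (i j : ℕ) (h : G) :
    IsOpen {p : BG G | p.t i ≠ 0 ∧ p.t j ≠ 0 ∧ p.co i j = h} := by
  refine isOpen_coinduced.2 (isOpen_sigma_iff.2 fun σ => ?_)
  have hc : ∀ k, IsOpen {t : Sx σ.1 | t.1 k ≠ 0} := fun k =>
    isOpen_ne_fun ((continuous_apply k).comp continuous_subtype_val) continuous_const
  by_cases e : σ.2 i * (σ.2 j)⁻¹ = h
  · convert (hc i).inter (hc j) using 1
    exact Set.ext fun t => ⟨fun ht => ⟨ht.1, ht.2.1⟩,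
      fun ht => ⟨ht.1, ht.2, (BG1.co_mk ⟨σ, t⟩ ht.1 ht.2).trans e⟩⟩
  · convert isOpen_empty using 1
    exact eq_empty_of_forall_notMem fun t ht =>
      e ((BG1.co_mk ⟨σ, t⟩ ht.1 ht.2.1).symm.trans ht.2.2)

theorem measurable_sInf {M : Type} [MeasurableSpace M] {p : ℕ → M → Prop}
    (h : ∀ x, ∃ k, p k x) (hm : ∀ k, MeasurableSet {x | p k x}) :
    Measurable fun x => sInf {k | p k x} := by
  classical
  convert measurable_find (p := fun x k => p k x) h hm using 2 with x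
  exact Nat.sInf_def (h x)

theorem measurable_diag {M β : Type} [MeasurableSpace M] [MeasurableSpace β] {k : M → ℕ}
    (hk : Measurable k) {f : ℕ → M → β} (hf : ∀ b, Measurable (f b)) :
    Measurable fun x => f (k x) x :=
  (measurable_from_prod_countable_left (f := fun q : M × ℕ => f q.2 q.1) hf).comp
    (measurable_id.prodMk hk)

namespace SM

variable {n N : ℕ} {X : SM n} (S : Spinor n N)

theorem mem_U_fr (p : X.M) : p ∈ X.U (X.fr p) := (X.mem_W_fr p).2

theorem measurable_fr' : Measurable X.fr :=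
  measurable_sInf X.cover fun a => (X.isOpen a).measurableSet

theorem contMDiffOn_cs (a b : ℕ) : ContMDiffOn (𝓡 n) 𝓘(ℝ, Eu N →L[ℝ] Eu N) ∞
    (fun p => S.c (X.s a b p)) (X.U a ∩ X.U b) := by
  let B := Module.finBasis ℝ (Eu N →L[ℝ] Eu N)
  have : (fun p => S.c (X.s a b p)) = fun p => ∑ k, B.coord k (S.c (X.s a b p)) • B k :=
    funext fun p => (B.sum_repr _).symm
  rw [this]
  exact contMDiffOn_finsetSum fun k _ =>
    (X.smc a b (B.coord k ∘ₗ S.c.toLinearMap)).smul contMDiffOn_const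

variable (X) in
/-- The components in the first frame of the spinor with components `φ` in the frame `a`. -/
def tr (a : ℕ) (φ : X.M → Eu N) (p : X.M) : Eu N := S.c (X.s (X.fr p) a p) (φ p)

theorem norm_tr {a : ℕ} {φ : X.M → Eu N} (hs : ∀ p ∉ X.U a, φ p = 0) (p : X.M) :
    ‖X.tr S a φ p‖ = ‖φ p‖ := by
  by_cases hp : p ∈ X.U a
  · exact S.norm_spin (X.spin _ a p ⟨mem_U_fr p, hp⟩).1 _
  · simp [tr, hs p hp]

open Classical in
theorem measurable_cs (a : ℕ) :
    Measurable ((X.U a).indicator fun p => S.c (X.s (X.fr p) a p)) := by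
  have h := measurable_diag (measurable_fr' (X := X))
    (f := fun b => (X.U b ∩ X.U a).piecewise (fun p => S.c (X.s b a p)) 0) fun b =>
      (contMDiffOn_cs S b a).continuousOn.measurable_piecewise continuousOn_const
        ((X.isOpen b).inter (X.isOpen a)).measurableSet
  convert h using 2 with p
  by_cases hp : p ∈ X.U a <;> simp [hp, mem_U_fr]

theorem aesm_tr {a : ℕ} {φ : X.M → Eu N} {μ : Measure X.M} (hφ : AEStronglyMeasurable φ μ)
    (hs : ∀ p ∉ X.U a, φ p = 0) : AEStronglyMeasurable (X.tr S a φ) μ := by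
  have h := isBoundedBilinearMap_apply.continuous.comp_aestronglyMeasurable
    ((measurable_cs S a).aestronglyMeasurable.prodMk hφ)
  refine h.congr (Eventually.of_forall fun p => ?_)
  by_cases hp : p ∈ X.U a <;> simp [tr, hp, hs]

theorem memLp_tr {a : ℕ} {φ : X.M → Eu N} {μ : Measure X.M} {q : ℝ≥0∞} (hφ : MemLp φ q μ)
    (hs : ∀ p ∉ X.U a, φ p = 0) : MemLp (X.tr S a φ) q μ :=
  hφ.congr_norm (aesm_tr S hφ.1 hs) (Eventually.of_forall fun p => (norm_tr S hs p).symm)

end SM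

namespace Sing

variable {m N : ℕ} (x : Sing G m) (S : Spinor (m + 1) N)

theorem continuous_t (i : ℕ) : Continuous fun p => (x.f p).t i :=
  (BG.continuous_t i).comp x.cont

theorem isOpen_t (i : ℕ) : IsOpen {p | (x.f p).t i ≠ 0} :=
  isOpen_ne_fun (x.continuous_t i) continuous_const

theorem isOpen_co (i j : ℕ) (h : G) :
    IsOpen {p | (x.f p).t i ≠ 0 ∧ (x.f p).t j ≠ 0 ∧ (x.f p).co i j = h} :=
  (BG.isOpen_co i j h).preimage x.cont

theorem measurable_ix : Measurable fun p => (x.f p).ix :=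
  measurable_sInf (p := fun i p => (x.f p).t i ≠ 0) (fun p => ⟨_, BG1.t_ix (x.f p)⟩)
    fun i => (x.isOpen_t i).measurableSet

theorem measurableSet_co (i j : ℕ) (h : G) : MeasurableSet {p | (x.f p).co i j = h} := by
  have h1 := (x.isOpen_co i j h).measurableSet
  have h2 := ((x.isOpen_t i).inter (x.isOpen_t j)).measurableSet.compl
  have key : ∀ p, ¬((x.f p).t i ≠ 0 ∧ (x.f p).t j ≠ 0) → (x.f p).co i j = 1 := fun p hp =>
    BG1.co_one _ i j (by tauto)
  by_cases e : h = 1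
  · convert h1.union h2 using 1
    refine Set.ext fun p => ⟨fun hp => ?_, fun hp => hp.elim (fun hp => hp.2.2) fun hp => ?_⟩
    · by_cases h' : (x.f p).t i ≠ 0 ∧ (x.f p).t j ≠ 0
      exacts [Or.inl ⟨h'.1, h'.2, hp⟩, Or.inr h']
    · exact (key p hp).trans e.symm
  · convert h1 using 1
    refine Set.ext fun p => ⟨fun hp => ?_, fun hp => hp.2.2⟩
    by_cases h' : (x.f p).t i ≠ 0 ∧ (x.f p).t j ≠ 0
    exacts [⟨h'.1, h'.2, hp⟩, (e (hp.symm.trans (key p h'))).elim]

/-- The set where the cocycle from `i` to the first coordinate is `h`. -/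
def sheet (i : ℕ) (h : G) : Set x.X.M := {p | (x.f p).co i (x.f p).ix = h}

theorem measurableSet_sheet (i : ℕ) (h : G) : MeasurableSet (x.sheet i h) :=
  measurableSet_setOfPred.2 (measurable_diag x.measurable_ix (f := fun j p => (x.f p).co i j = h)
    fun j => measurableSet_setOfPred.1 (x.measurableSet_co i j h))

theorem exists_fin : ∃ (n : ℕ) (s : Finset G), ∀ p, (∀ i, n ≤ i → (x.f p).t i = 0) ∧
    ∀ i j, (x.f p).co i j ∈ s := stFIN stBG2' G m x

theorem finite_sheet : {h | ∃ i, (x.sheet i h).Nonempty}.Finite := by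
  obtain ⟨_, s, hs⟩ := x.exists_fin
  exact s.finite_toSet.subset fun h ⟨i, p, hp⟩ => hp ▸ (hs p).2 i _

theorem sec_eq (a i : ℕ) (g : G) (φ : x.X.M → Eu N) (γ : G) :
    x.sec S a i g φ γ = (x.sheet i (g * γ⁻¹)).indicator (x.X.tr S a φ) := by
  classical
  funext p
  simp only [sec, indicator_apply, sheet, mem_ofPred_eq, eq_mul_inv_iff_mul_eq, SM.tr]

theorem memLp_sec {a : ℕ} (i : ℕ) (g : G) {φ : x.X.M → Eu N} {μ : Measure x.X.M} {q : ℝ≥0∞}
    (hφ : MemLp φ q μ) (hs : ∀ p ∉ x.X.U a, φ p = 0) (γ : G) : MemLp (x.sec S a i g φ γ) q μ :=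
  x.sec_eq S a i g φ γ ▸ (SM.memLp_tr S hφ hs).indicator (x.measurableSet_sheet i _)

theorem finite_sec (a i : ℕ) (g : G) (φ : x.X.M → Eu N) :
    {γ | x.sec S a i g φ γ ≠ 0}.Finite := by
  refine (x.finite_sheet.preimage (f := fun γ => g * γ⁻¹)
    (((mul_right_injective g).comp inv_injective).injOn)).subset fun γ hγ => ⟨i, ?_⟩
  by_contra h
  exact hγ (by rw [sec_eq, not_nonempty_iff_eq_empty.1 h, indicator_empty]; rfl)

/-- The test vectors exist. -/
theorem exists_vec {a : ℕ} (i : ℕ) (g : G) {φ : x.X.M → Eu N} {μ : Measure x.X.M}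
    (hφ : MemLp φ 2 μ) (hs : ∀ p ∉ x.X.U a, φ p = 0) :
    ∃ ξ : V G (Lp (Eu N) 2 μ), {γ | ξ γ ≠ 0}.Finite ∧ ∀ γ, ξ γ =ᵐ[μ] x.sec S a i g φ γ := by
  have h : {γ | (x.memLp_sec S i g hφ hs γ).toLp _ ≠ 0}.Finite :=
    (x.finite_sec S a i g φ).subset fun γ hγ e => hγ (by simp [e])
  exact ⟨⟨fun γ => (x.memLp_sec S i g hφ hs γ).toLp _, (memℓp_zero h).of_exponent_ge zero_le⟩, h,
    fun γ => (x.memLp_sec S i g hφ hs γ).coeFn_toLp⟩

end Sing

end Pool.Agent.Lib.CX
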