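import Pool.Agent.Lib.CX.Defs

/-! The Riemannian volume: existence, uniqueness, regularity and the formula in a chart. -/

noncomputable section

open Set Function MeasureTheory CliffordAlgebra Topology Filter
open scoped Manifold ContDiff ENNReal

namespace Pool.Agent.Lib.CX

theorem Covers.norm_eq {n : ℕ} {W : Type} {s : Cl n} {κ A : W → Eu n} (h : Covers s κ A) (v : W) :
    ‖A v‖ = ‖κ v‖ := by
  have h1 : algebraMap ℝ (Cl n) (Qn n (A v)) * s = algebraMap ℝ (Cl n) (Qn n (κ v)) * s := by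
    rw [← ι_sq_scalar, mul_assoc, h.2, ← mul_assoc, h.2, mul_assoc, ι_sq_scalar, Algebra.commutes]
  have h2 := congrArg (· * star s) h1
  simp only [mul_assoc, spinGroup.mul_star_self_of_mem h.1, mul_one] at h2
  have h3 := FaithfulSMul.algebraMap_injective ℝ (Cl n) h2
  simp only [Qn, _root_.neg_apply, LinearMap.BilinMap.toQuadraticMap_apply, innerₗ_apply_apply,
    neg_inj, real_inner_self_eq_norm_sq] at h3
  exact (pow_left_inj₀ (norm_nonneg _) (norm_nonneg _) two_ne_zero).1 h3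

theorem contDiff_det (n : ℕ) : ContDiff ℝ ∞ fun T : Eu n →L[ℝ] Eu n => T.det := by
  have : (fun T : Eu n →L[ℝ] Eu n => T.det) =
      fun T => ∑ σ : Equiv.Perm (Fin n), (Equiv.Perm.sign σ : ℝ) * ∏ i, T (bv i) (σ i) := by
    funext T
    rw [ContinuousLinearMap.det, ← LinearMap.det_toMatrix (EuclideanSpace.basisFun (Fin n) ℝ).toBasis,
      Matrix.det_apply']
    simp [LinearMap.toMatrix_apply, bv]
  rw [this]
  refine ContDiff.sum fun σ _ => contDiff_const.mul (contDiff_prod fun i _ => ?_)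
  exact (EuclideanSpace.proj (σ i) : Eu n →L[ℝ] ℝ).contDiff.comp (contDiff_id.clm_apply contDiff_const)

namespace SM

variable {n : ℕ} (X : SM n)

instance : BorelSpace X.M := ⟨rfl⟩

instance : LocallyCompactSpace X.M := ChartedSpace.locallyCompactSpace (Eu n) X.M

/-- The chart at `x₀`. -/
abbrev ct (x₀ : X.M) : OpenPartialHomeomorph X.M (Eu n) := chartAt (Eu n) x₀

/-- The frame `a` read in the chart at `x₀`. -/
def J (x₀ : X.M) (a : ℕ) (p : X.M) : Eu n →L[ℝ] Eu n :=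
  (mfderiv (𝓡 n) (𝓡 n) (X.ct x₀) p).comp (X.F a p).toContinuousLinearMap

/-- The density of the volume in the chart at `x₀`. -/
def dens (x₀ : X.M) (a : ℕ) (y : Eu n) : ℝ := |(X.J x₀ a ((X.ct x₀).symm y)).det|⁻¹

/-- The common domain of the chart at `x₀` and the frame `a`. -/
def W (x₀ : X.M) (a : ℕ) : Set X.M := (X.ct x₀).source ∩ X.U a

/-- The image of `W` in the chart. -/
def Om (x₀ : X.M) (a : ℕ) : Set (Eu n) := X.ct x₀ '' X.W x₀ a

theorem isVol_iff {μ : Measure X.M} : X.IsVol μ ↔ ∀ x₀ a (A : Set X.M), MeasurableSet A →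
    A ⊆ X.W x₀ a → μ A = ∫⁻ y in X.ct x₀ '' A, ENNReal.ofReal (X.dens x₀ a y) := Iff.rfl

theorem isOpen_W (x₀ : X.M) (a : ℕ) : IsOpen (X.W x₀ a) :=
  (X.ct x₀).open_source.inter (X.isOpen a)

theorem isOpen_Om (x₀ : X.M) (a : ℕ) : IsOpen (X.Om x₀ a) :=
  ((X.ct x₀).isOpen_image_iff_of_subset_source inter_subset_left).2 (X.isOpen_W x₀ a)

theorem mem_W_fr (x : X.M) : x ∈ X.W x (X.fr x) :=
  ⟨mem_chart_source _ x, Nat.sInf_mem (X.cover x)⟩

variable {X}

theorem Om_sub {x₀ : X.M} {a : ℕ} : X.Om x₀ a ⊆ (X.ct x₀).target := by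
  rintro _ ⟨p, hp, rfl⟩
  exact (X.ct x₀).map_source hp.1

theorem symm_mem_W {x₀ : X.M} {a : ℕ} {y : Eu n} (hy : y ∈ X.Om x₀ a) :
    (X.ct x₀).symm y ∈ X.W x₀ a := by
  obtain ⟨p, hp, rfl⟩ := hy
  rwa [(X.ct x₀).left_inv hp.1]

theorem det_J_ne {x₀ p : X.M} (a : ℕ) (hp : p ∈ (X.ct x₀).source) : (X.J x₀ a p).det ≠ 0 :=
  (((X.F a p).trans ((mdifferentiable_chart (I := 𝓡 n) x₀).mfderiv hp) :
    Eu n ≃L[ℝ] Eu n).toLinearEquiv.isUnit_det').ne_zero

theorem dens_pos {x₀ : X.M} (a : ℕ) {y : Eu n} (hy : y ∈ (X.ct x₀).target) : 0 < X.dens x₀ a y :=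
  inv_pos.2 (abs_pos.2 (det_J_ne a ((X.ct x₀).map_target hy)))

theorem contMDiffOn_J_apply (x₀ : X.M) (a : ℕ) (v : Eu n) :
    ContMDiffOn (𝓡 n) 𝓘(ℝ, Eu n) ∞ (fun p => X.J x₀ a p v) (X.W x₀ a) := by
  have h1 := (contMDiffOn_chart (I := 𝓡 n) (n := ∞) (x := x₀)).contMDiffOn_tangentMapWithin
    (m := ∞) le_rfl (X.ct x₀).open_source.uniqueMDiffOn
  have h2 := (contMDiff_snd_tangentBundle_modelSpace (Eu n) (𝓡 n) (n := ∞)).comp_contMDiffOn
    (h1.comp ((X.smooth a v).mono (inter_subset_right : X.W x₀ a ⊆ _)) fun p hp => hp.1)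
  refine h2.congr fun p hp => ?_
  change _ = mfderivWithin (𝓡 n) (𝓡 n) (X.ct x₀) (X.ct x₀).source p (X.F a p v)
  rw [mfderivWithin_of_isOpen (X.ct x₀).open_source hp.1]
  rfl

theorem contDiffOn_J (x₀ : X.M) (a : ℕ) :
    ContDiffOn ℝ ∞ (fun y => X.J x₀ a ((X.ct x₀).symm y)) (X.Om x₀ a) :=
  contDiffOn_clm_apply.2 fun v => contMDiffOn_iff_contDiffOn.1 ((contMDiffOn_J_apply x₀ a v).comp
    ((contMDiffOn_chart_symm (I := 𝓡 n) (n := ∞) (x := x₀)).mono Om_sub) fun _ => symm_mem_W)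

theorem contDiffOn_dens (x₀ : X.M) (a : ℕ) : ContDiffOn ℝ ∞ (X.dens x₀ a) (X.Om x₀ a) := by
  have h := (contDiff_det n).comp_contDiffOn (contDiffOn_J x₀ a)
  have h0 : ∀ y ∈ X.Om x₀ a, (X.J x₀ a ((X.ct x₀).symm y)).det ≠ 0 := fun y hy =>
    det_J_ne a (symm_mem_W hy).1
  exact (h.abs h0).inv fun y hy => abs_ne_zero.2 (h0 y hy)

theorem abs_det_J {x₀ p : X.M} {a b : ℕ} (ha : p ∈ X.U a) (hb : p ∈ X.U b) :
    |(X.J x₀ b p).det| = |(X.J x₀ a p).det| := by
  let L : Eu n →ₗᵢ[ℝ] Eu n := ⟨((X.F b p).trans (X.F a p).symm).toLinearEquiv.toLinearMap,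
    fun v => (X.spin a b p ⟨ha, hb⟩).norm_eq v⟩
  have h1 : (X.J x₀ b p).toLinearMap = (X.J x₀ a p).toLinearMap ∘ₗ L.toLinearMap :=
    LinearMap.ext fun v => congrArg (mfderiv (𝓡 n) (𝓡 n) (X.ct x₀) p)
      ((X.F a p).apply_symm_apply _).symm
  rw [ContinuousLinearMap.det, h1, LinearMap.det_comp, abs_mul,
    ← LinearMap.normDet_eq_abs_det L.toLinearMap, L.normDet_eq_one, mul_one]

theorem measurableSet_image {x₀ : X.M} {A : Set X.M} (hA : MeasurableSet A)
    (h : A ⊆ (X.ct x₀).source) : MeasurableSet (X.ct x₀ '' A) := by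
  rw [(X.ct x₀).image_eq_target_inter_inv_preimage h]
  have := (continuousOn_iff_continuous_domRestrict.1 (X.ct x₀).continuousOn_symm).measurable hA
  convert (X.ct x₀).open_target.measurableSet.subtype_image this using 1
  ext y
  simp [and_comm]

theorem lintegral_chg {x₀ x₁ : X.M} {a b : ℕ} {A : Set X.M} (hA : MeasurableSet A)
    (h0 : A ⊆ X.W x₀ a) (h1 : A ⊆ X.W x₁ b) :
    ∫⁻ y in X.ct x₁ '' A, ENNReal.ofReal (X.dens x₁ b y) =
      ∫⁻ y in X.ct x₀ '' A, ENNReal.ofReal (X.dens x₀ a y) := by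
  have hm := measurableSet_image hA fun p hp => (h0 hp).1
  have e : X.ct x₁ '' A = (X.ct x₁ ∘ (X.ct x₀).symm) '' (X.ct x₀ '' A) := by
    rw [image_image]
    exact image_congr fun p hp => by rw [comp_apply, (X.ct x₀).left_inv (h0 hp).1]
  let τ : Eu n → Eu n →L[ℝ] Eu n := fun y =>
    (mfderiv (𝓡 n) (𝓡 n) (X.ct x₁) ((X.ct x₀).symm y)).comp (mfderiv (𝓡 n) (𝓡 n) (X.ct x₀).symm y)
  have c0 := mdifferentiable_chart (I := 𝓡 n) x₀
  have c1 := mdifferentiable_chart (I := 𝓡 n) x₁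
  rw [e, lintegral_image_eq_lintegral_abs_det_fderiv_mul volume hm (f' := τ)]
  · refine setLIntegral_congr_fun hm ?_
    rintro _ ⟨p, hp, rfl⟩
    have l0 := (X.ct x₀).left_inv (h0 hp).1
    have e1 : (X.J x₁ a p).toLinearMap = (τ (X.ct x₀ p)).toLinearMap ∘ₗ (X.J x₀ a p).toLinearMap := by
      refine LinearMap.ext fun v => ?_
      have := DFunLike.congr_fun (c0.symm_comp_deriv (h0 hp).1) (X.F a p v)
      change _ = mfderiv (𝓡 n) (𝓡 n) (X.ct x₁) ((X.ct x₀).symm (X.ct x₀ p)) _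
      rw [l0]
      exact congrArg (mfderiv (𝓡 n) (𝓡 n) (X.ct x₁) p) this.symm
    have e2 : (X.J x₁ a p).det = (τ (X.ct x₀ p)).det * (X.J x₀ a p).det := by
      rw [ContinuousLinearMap.det, e1, LinearMap.det_comp]
    have e3 := det_J_ne a (h1 hp).1
    dsimp only
    rw [← ENNReal.ofReal_mul (abs_nonneg _), dens, dens, comp_apply, l0, (X.ct x₁).left_inv (h1 hp).1,
      abs_det_J (h0 hp).2 (h1 hp).2, e2, abs_mul, mul_inv, ← mul_assoc,
      mul_inv_cancel₀ (abs_ne_zero.2 (left_ne_zero_of_mul (e2 ▸ e3))), one_mul]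
  · rintro _ ⟨p, hp, rfl⟩
    have l0 := (X.ct x₀).left_inv (h0 hp).1
    exact (hasMFDerivAt_iff_hasFDerivAt.1 ((c1.mdifferentiableAt (l0.symm ▸ (h1 hp).1)).hasMFDerivAt.comp _
      (c0.mdifferentiableAt_symm ((X.ct x₀).map_source (h0 hp).1)).hasMFDerivAt)).hasFDerivWithinAt
  · rintro _ ⟨p, hp, rfl⟩ _ ⟨q, hq, rfl⟩ h
    rw [comp_apply, comp_apply, (X.ct x₀).left_inv (h0 hp).1, (X.ct x₀).left_inv (h0 hq).1] at h
    rw [(X.ct x₁).injOn (h1 hp).1 (h1 hq).1 h]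

variable (X) in
/-- The volume in the chart. -/
def vo (x₀ : X.M) (a : ℕ) : Measure (Eu n) :=
  (volume.restrict (X.Om x₀ a)).withDensity fun y => ENNReal.ofReal (X.dens x₀ a y)

theorem aemeasurable_symm (x₀ : X.M) (a : ℕ) : AEMeasurable (X.ct x₀).symm (X.vo x₀ a) :=
  (((X.ct x₀).continuousOn_symm.mono Om_sub).aemeasurable (X.isOpen_Om x₀ a).measurableSet).mono_ac
    (withDensity_absolutelyContinuous _ _)

theorem map_vo {x₀ : X.M} {a : ℕ} {A : Set X.M} (hA : MeasurableSet A) :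
    (X.vo x₀ a).map (X.ct x₀).symm A =
      ∫⁻ y in X.ct x₀ '' (A ∩ X.W x₀ a), ENNReal.ofReal (X.dens x₀ a y) := by
  rw [Measure.map_apply_of_aemeasurable (aemeasurable_symm x₀ a) hA, vo, withDensity_apply',
    Measure.restrict_restrict' (X.isOpen_Om x₀ a).measurableSet]
  congr 2
  ext y
  constructor
  · rintro ⟨h1, h2⟩
    exact ⟨_, ⟨h1, symm_mem_W h2⟩, (X.ct x₀).right_inv (Om_sub h2)⟩
  · rintro ⟨p, hp, rfl⟩
    exact ⟨by rw [mem_preimage, (X.ct x₀).left_inv hp.2.1]; exact hp.1, p, hp.2, rfl⟩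

/-- The volume in a chart. -/
theorem IsVol.restrict_W {μ : Measure X.M} (h : X.IsVol μ) (x₀ : X.M) (a : ℕ) :
    μ.restrict (X.W x₀ a) = (X.vo x₀ a).map (X.ct x₀).symm := by
  ext A hA
  rw [Measure.restrict_apply hA, map_vo hA]
  exact h x₀ a _ (hA.inter (X.isOpen_W x₀ a).measurableSet) inter_subset_right

theorem lintegral_vo (x₀ : X.M) (a : ℕ) (g : Eu n → ℝ≥0∞) : ∫⁻ y, g y ∂X.vo x₀ a =
    ∫⁻ y in X.Om x₀ a, ENNReal.ofReal (X.dens x₀ a y) * g y :=
  lintegral_withDensity_eq_lintegral_mul_non_measurable₀ _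
    (((contDiffOn_dens x₀ a).continuousOn.aemeasurable
      (X.isOpen_Om x₀ a).measurableSet).ennreal_ofReal)
    (Eventually.of_forall fun _ => ENNReal.ofReal_lt_top) g

theorem integral_vo {E : Type} [NormedAddCommGroup E] [NormedSpace ℝ E] (x₀ : X.M) (a : ℕ)
    (g : Eu n → E) : ∫ y, g y ∂X.vo x₀ a = ∫ y in X.Om x₀ a, X.dens x₀ a y • g y := by
  rw [vo, integral_withDensity_eq_integral_toReal_smul₀
    (((contDiffOn_dens x₀ a).continuousOn.aemeasurable
      (X.isOpen_Om x₀ a).measurableSet).ennreal_ofReal)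
    (Eventually.of_forall fun _ => ENNReal.ofReal_lt_top)]
  exact setIntegral_congr_fun (X.isOpen_Om x₀ a).measurableSet fun y hy => by
    rw [ENNReal.toReal_ofReal (dens_pos a (Om_sub hy)).le]

theorem IsVol.lintegral_W {μ : Measure X.M} (h : X.IsVol μ) (x₀ : X.M) (a : ℕ) {g : X.M → ℝ≥0∞}
    (hg : AEMeasurable g (μ.restrict (X.W x₀ a))) : ∫⁻ p in X.W x₀ a, g p ∂μ =
      ∫⁻ y in X.Om x₀ a, ENNReal.ofReal (X.dens x₀ a y) * g ((X.ct x₀).symm y) := by
  rw [h.restrict_W] at hg ⊢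
  rw [lintegral_map' hg (aemeasurable_symm x₀ a), lintegral_vo]

theorem IsVol.integral_W {E : Type} [NormedAddCommGroup E] [NormedSpace ℝ E] {μ : Measure X.M}
    (h : X.IsVol μ) (x₀ : X.M) (a : ℕ) {g : X.M → E}
    (hg : AEStronglyMeasurable g (μ.restrict (X.W x₀ a))) : ∫ p in X.W x₀ a, g p ∂μ =
      ∫ y in X.Om x₀ a, X.dens x₀ a y • g ((X.ct x₀).symm y) := by
  rw [h.restrict_W] at hg ⊢
  rw [integral_map (aemeasurable_symm x₀ a) hg, integral_vo]

/-- The integral of a function supported in a chart. -/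
theorem IsVol.integral_eq {E : Type} [NormedAddCommGroup E] [NormedSpace ℝ E] {μ : Measure X.M}
    (h : X.IsVol μ) (x₀ : X.M) (a : ℕ) {g : X.M → E} (hg : AEStronglyMeasurable g μ)
    (hs : ∀ p ∉ X.W x₀ a, g p = 0) : ∫ p, g p ∂μ =
      ∫ y in X.Om x₀ a, X.dens x₀ a y • g ((X.ct x₀).symm y) := by
  rw [← h.integral_W x₀ a hg.restrict, setIntegral_eq_integral_of_forall_compl_eq_zero hs]

theorem IsVol.isLocallyFiniteMeasure {μ : Measure X.M} (h : X.IsVol μ) :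
    IsLocallyFiniteMeasure μ := ⟨fun x => by
  obtain ⟨K, k1, k2, k3⟩ := local_compact_nhds ((X.isOpen_W _ _).mem_nhds (X.mem_W_fr x))
  have k4 : IsCompact (X.ct x '' K) :=
    k3.image_of_continuousOn ((X.ct x).continuousOn.mono fun p hp => (k2 hp).1)
  obtain ⟨C, hC⟩ := k4.bddAbove_image
    ((contDiffOn_dens x (X.fr x)).continuousOn.mono (image_mono k2))
  refine ⟨K, k1, (h x _ K k3.measurableSet k2).trans_lt ?_⟩
  refine (setLIntegral_mono' (g := fun _ => ENNReal.ofReal C) k4.measurableSet fun y hy =>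
    ENNReal.ofReal_le_ofReal (hC ⟨y, hy, rfl⟩)).trans_lt ?_
  rw [setLIntegral_const]
  exact ENNReal.mul_lt_top ENNReal.ofReal_lt_top k4.measure_lt_top⟩

theorem IsVol.isFiniteMeasureOnCompacts {μ : Measure X.M} (h : X.IsVol μ) :
    IsFiniteMeasureOnCompacts μ :=
  have := h.isLocallyFiniteMeasure
  inferInstance

/-- Null sets in a chart. -/
theorem IsVol.null_iff {μ : Measure X.M} (h : X.IsVol μ) {x₀ : X.M} {a : ℕ} {A : Set X.M}
    (hA : MeasurableSet A) (hs : A ⊆ X.W x₀ a) : μ A = 0 ↔ volume (X.ct x₀ '' A) = 0 := by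
  have hm := measurableSet_image hA fun p hp => (hs hp).1
  have e : μ A = ∫⁻ y in X.ct x₀ '' A, ENNReal.ofReal (X.dens x₀ a y) := h x₀ a A hA hs
  rw [e, lintegral_eq_zero_iff' (((contDiffOn_dens x₀ a).continuousOn.mono
    (image_mono hs)).aemeasurable hm).ennreal_ofReal, EventuallyEq, ae_restrict_iff' hm, ae_iff]
  congr! 3
  ext y
  simp only [mem_ofPred_eq, Classical.not_imp, Pi.zero_apply, ENNReal.ofReal_eq_zero, not_le,
    and_iff_left_iff_imp]
  exact fun hy => dens_pos a (Om_sub (image_mono hs hy))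

theorem IsVol.isOpenPosMeasure {μ : Measure X.M} (h : X.IsVol μ) : μ.IsOpenPosMeasure :=
  ⟨fun O hO ⟨x, hx⟩ h0 => by
    have h1 := hO.inter (X.isOpen_W x (X.fr x))
    have h2 := (h.null_iff h1.measurableSet inter_subset_right).1
      (measure_mono_null inter_subset_left h0)
    exact (((X.ct x).isOpen_image_iff_of_subset_source fun p hp => hp.2.1).2 h1).measure_ne_zero
      volume ⟨_, x, ⟨hx, X.mem_W_fr x⟩, rfl⟩ h2⟩

variable [SecondCountableTopology X.M]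

theorem exists_part [Nonempty X.M] :
    ∃ (x : ℕ → X.M) (D : ℕ → Set X.M), (∀ k, MeasurableSet (D k)) ∧ Pairwise (Disjoint on D) ∧
      ⋃ k, D k = univ ∧ ∀ k, D k ⊆ X.W (x k) (X.fr (x k)) := by
  obtain ⟨s, h1, h2⟩ := TopologicalSpace.countable_cover_nhds (f := fun x => X.W x (X.fr x))
    fun x => (X.isOpen_W _ _).mem_nhds (X.mem_W_fr x)
  obtain ⟨x, hx⟩ := countable_iff_exists_subset_range.1 h1
  refine ⟨x, disjointed fun k => X.W (x k) (X.fr (x k)),
    MeasurableSet.disjointed fun k => (X.isOpen_W _ _).measurableSet, disjoint_disjointed _, ?_,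
    disjointed_subset _⟩
  rw [iUnion_disjointed, eq_univ_iff_forall]
  intro p
  obtain ⟨_, hq, hp⟩ := mem_iUnion₂.1 (h2.symm ▸ mem_univ p)
  obtain ⟨k, rfl⟩ := hx hq
  exact mem_iUnion.2 ⟨k, hp⟩

omit [SecondCountableTopology X.M] in
theorem measure_part {D : ℕ → Set X.M} (h1 : ∀ k, MeasurableSet (D k))
    (h2 : Pairwise (Disjoint on D)) (h3 : ⋃ k, D k = univ) (μ : Measure X.M) {A : Set X.M}
    (hA : MeasurableSet A) : μ A = ∑' k, μ (A ∩ D k) := by
  rw [← measure_iUnion (h2.mono fun _ _ h => h.mono inter_subset_right inter_subset_right)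
    fun k => hA.inter (h1 k), ← inter_iUnion, h3, inter_univ]

theorem IsVol.unique {μ ν : Measure X.M} (h : X.IsVol μ) (h' : X.IsVol ν) : μ = ν := by
  cases isEmpty_or_nonempty X.M with
  | inl _ => exact Subsingleton.elim _ _
  | inr _ =>
    obtain ⟨x, D, h1, h2, h3, h4⟩ := exists_part (X := X)
    ext A hA
    rw [measure_part h1 h2 h3 μ hA, measure_part h1 h2 h3 ν hA]
    exact tsum_congr fun k => (h _ _ _ (hA.inter (h1 k)) fun p hp => h4 k hp.2).trans
      (h' _ _ _ (hA.inter (h1 k)) fun p hp => h4 k hp.2).symm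

variable (X) in
theorem exists_isVol : ∃ μ, X.IsVol μ := by
  cases isEmpty_or_nonempty X.M with
  | inl _ => exact ⟨0, fun x => isEmptyElim x⟩
  | inr _ =>
    obtain ⟨x, D, h1, h2, h3, h4⟩ := exists_part (X := X)
    refine ⟨Measure.sum fun k => ((X.vo (x k) (X.fr (x k))).map (X.ct (x k)).symm).restrict (D k),
      X.isVol_iff.2 fun x₀ a A hA hs => ?_⟩
    rw [Measure.sum_apply _ hA, ← inter_eq_left.2 hs, ← map_vo hA, inter_eq_left.2 hs,
      measure_part h1 h2 h3 _ hA]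
    refine tsum_congr fun k => ?_
    have e0 : A ∩ D k ⊆ X.W x₀ a := fun p hp => hs hp.1
    have e1 : A ∩ D k ⊆ X.W (x k) (X.fr (x k)) := fun p hp => h4 k hp.2
    rw [Measure.restrict_apply hA, map_vo (hA.inter (h1 k)), map_vo (hA.inter (h1 k)),
      inter_eq_left.2 e0, inter_eq_left.2 e1, lintegral_chg (hA.inter (h1 k)) e0 e1]

theorem IsVol.sigmaFinite {μ : Measure X.M} (h : X.IsVol μ) : SigmaFinite μ :=
  have := h.isLocallyFiniteMeasure
  inferInstance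

theorem IsVol.regular {μ : Measure X.M} (h : X.IsVol μ) : μ.Regular :=
  have := h.isLocallyFiniteMeasure
  inferInstance

end SM

namespace Sing

variable {G : Type} [Group G] {m : ℕ} (x : Sing G m)

theorem continuousOn_j : ContinuousOn x.j {z | 0 < z.2 0} := x.prod.1.contMDiffOn.continuousOn

instance : SigmaCompactSpace x.X.M := by
  have := x.cpt
  have h0 : IsClosed {z : x.N.M × Eu 1 | 1 ≤ z.2 0} := isClosed_le continuous_const (by fun_prop)
  have h1 : IsSigmaCompact (x.j '' {z | 1 ≤ z.2 0}) :=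
    (isSigmaCompact_univ.of_isClosed_subset h0 (subset_univ _)).image_of_continuousOn
      (x.continuousOn_j.mono fun z (hz : 1 ≤ z.2 0) => zero_lt_one.trans_le hz)
  refine isSigmaCompact_univ_iff.1 ?_
  convert isSigmaCompact_sUnion {(x.j '' {z | 1 < z.2 0})ᶜ, x.j '' {z | 1 ≤ z.2 0}} (by simp) ?_
  swap
  · rintro ⟨_, rfl | rfl⟩
    exacts [x.core_cpt.isSigmaCompact, h1]
  rw [sUnion_pair]
  refine (eq_univ_of_forall fun p => ?_).symm
  by_cases hp : p ∈ x.j '' {z | 1 < z.2 0}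
  · obtain ⟨z, hz, rfl⟩ := hp
    exact Or.inr ⟨z, (show (1 : ℝ) < z.2 0 from hz).le, rfl⟩
  · exact Or.inl hp

instance : SecondCountableTopology x.X.M :=
  ChartedSpace.secondCountable_of_sigmaCompact (Eu (m + 1)) x.X.M

instance : SecondCountableTopology x.N.M :=
  have := x.cpt
  ChartedSpace.secondCountable_of_sigmaCompact (Eu m) x.N.M

theorem existsUnique_isVol : ∃! μ, x.X.IsVol μ :=
  let ⟨μ, h⟩ := x.X.exists_isVol
  ⟨μ, h, fun _ h' => h'.unique h⟩

end Sing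

end Pool.Agent.Lib.CX
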