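import Mathlib

/-! Multiplication operators on square integrable functions. -/

noncomputable section

open Set Function MeasureTheory Filter
open scoped ENNReal InnerProductSpace

namespace Pool.Agent.Lib.CX

variable {Z : Type} [MeasurableSpace Z] {μ : Measure Z} {E F H : Type} [NormedAddCommGroup E]
  [NormedAddCommGroup F] [NormedAddCommGroup H]

section Normed

variable [NormedSpace ℝ E] [NormedSpace ℝ F] [NormedSpace ℝ H]

open Classical in
variable (μ) in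
/-- Multiplication by a bounded measurable field of operators. -/
def mulOp (f : Z → E →L[ℝ] F) : Lp E 2 μ →L[ℝ] Lp F 2 μ :=
  if h : MemLp f ∞ μ then (ContinuousLinearMap.id ℝ (E →L[ℝ] F)).holderL μ ∞ 2 2 (h.toLp f) else 0

theorem mulOp_coe {f : Z → E →L[ℝ] F} (h : MemLp f ∞ μ) (u : Lp E 2 μ) :
    mulOp μ f u =ᵐ[μ] fun z => f z (u z) := by
  rw [mulOp, dif_pos h, ContinuousLinearMap.holderL_apply_apply]
  filter_upwards [(ContinuousLinearMap.id ℝ (E →L[ℝ] F)).coeFn_holder (r := 2) (h.toLp f) u,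
    h.coeFn_toLp] with z h1 h2
  rw [h1, h2]; rfl

theorem mulOp_coe' {f : Z → E →L[ℝ] F} (h : MemLp f ∞ μ) {u : Lp E 2 μ} {v : Z → E}
    (hu : u =ᵐ[μ] v) : mulOp μ f u =ᵐ[μ] fun z => f z (v z) := by
  filter_upwards [mulOp_coe h u, hu] with z h1 h2
  rw [h1, h2]

theorem eq_mulOp {f : Z → E →L[ℝ] F} (h : MemLp f ∞ μ) {T : Lp E 2 μ →L[ℝ] Lp F 2 μ}
    (hT : ∀ u, T u =ᵐ[μ] fun z => f z (u z)) : T = mulOp μ f :=
  ContinuousLinearMap.ext fun u => Lp.ext ((hT u).trans (mulOp_coe h u).symm)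

theorem mulOp_congr {f g : Z → E →L[ℝ] F} (h : f =ᵐ[μ] g) : mulOp μ f = mulOp μ g := by
  by_cases hf : MemLp f ∞ μ
  · refine eq_mulOp (hf.ae_eq h) fun u => ?_
    filter_upwards [mulOp_coe hf u, h] with z h1 h2
    rw [h1, h2]
  · rw [mulOp, mulOp, dif_neg hf, dif_neg fun hg => hf (hg.ae_eq h.symm)]

theorem memTop_comp {f : Z → F →L[ℝ] H} {g : Z → E →L[ℝ] F} (hf : MemLp f ∞ μ)
    (hg : MemLp g ∞ μ) : MemLp (fun z => (f z).comp (g z)) ∞ μ :=
  (ContinuousLinearMap.compL ℝ E F H).memLp_of_bilin ∞ hf hg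

theorem memTop_mul {f g : Z → E →L[ℝ] E} (hf : MemLp f ∞ μ) (hg : MemLp g ∞ μ) :
    MemLp (fun z => f z * g z) ∞ μ := memTop_comp hf hg

theorem memTop_smul {c : Z → ℝ} {g : Z → E} (hc : MemLp c ∞ μ) (hg : MemLp g ∞ μ) :
    MemLp (fun z => c z • g z) ∞ μ :=
  (ContinuousLinearMap.lsmul ℝ ℝ).memLp_of_bilin ∞ hc hg

theorem memTop_smul_const {c : Z → ℝ} (hc : MemLp c ∞ μ) (T : E) :
    MemLp (fun z => c z • T) ∞ μ := memTop_smul hc (memLp_top_const T)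

theorem mulOp_comp {f : Z → F →L[ℝ] H} {g : Z → E →L[ℝ] F} (hf : MemLp f ∞ μ)
    (hg : MemLp g ∞ μ) :
    (mulOp μ f).comp (mulOp μ g) = mulOp μ fun z => (f z).comp (g z) :=
  eq_mulOp (memTop_comp hf hg) fun u => mulOp_coe' hf (mulOp_coe hg u)

theorem mulOp_mul {f g : Z → E →L[ℝ] E} (hf : MemLp f ∞ μ) (hg : MemLp g ∞ μ) :
    mulOp μ f * mulOp μ g = mulOp μ fun z => f z * g z := mulOp_comp hf hg

theorem mulOp_const (T : E →L[ℝ] F) : mulOp μ (fun _ => T) = T.compLpL 2 μ :=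
  (eq_mulOp (memLp_top_const T) fun u => T.coeFn_compLpL u).symm

theorem mulOp_one : mulOp μ (fun _ => (1 : E →L[ℝ] E)) = 1 :=
  (eq_mulOp (memLp_top_const _) fun _ => EventuallyEq.rfl).symm

theorem mulOp_zero : mulOp μ (fun _ => (0 : E →L[ℝ] F)) = 0 :=
  (eq_mulOp (memLp_top_const _) fun _ => Lp.coeFn_zero _ _ _).symm

theorem mulOp_add {f g : Z → E →L[ℝ] F} (hf : MemLp f ∞ μ) (hg : MemLp g ∞ μ) :
    mulOp μ (fun z => f z + g z) = mulOp μ f + mulOp μ g := by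
  have h : MemLp (fun z => f z + g z) ∞ μ := MemLp.add (f := f) (g := g) hf hg
  refine (eq_mulOp h fun u => ?_).symm
  filter_upwards [Lp.coeFn_add (mulOp μ f u) (mulOp μ g u), mulOp_coe hf u, mulOp_coe hg u]
    with z h1 h2 h3
  exact h1.trans (congrArg₂ (· + ·) h2 h3)

theorem mulOp_smul {f : Z → E →L[ℝ] F} (hf : MemLp f ∞ μ) (c : ℝ) :
    mulOp μ (fun z => c • f z) = c • mulOp μ f := by
  refine (eq_mulOp (hf.const_smul c) fun u => ?_).symm
  filter_upwards [Lp.coeFn_smul c (mulOp μ f u), mulOp_coe hf u] with z h1 h2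
  exact h1.trans (congrArg (c • ·) h2)

theorem mulOp_neg {f : Z → E →L[ℝ] F} (hf : MemLp f ∞ μ) :
    mulOp μ (fun z => -f z) = -mulOp μ f := by
  simpa using mulOp_smul hf (-1)

theorem mulOp_sub {f g : Z → E →L[ℝ] F} (hf : MemLp f ∞ μ) (hg : MemLp g ∞ μ) :
    mulOp μ (fun z => f z - g z) = mulOp μ f - mulOp μ g := by
  simp only [sub_eq_add_neg]
  exact (mulOp_add hf hg.neg).trans (congrArg _ (mulOp_neg hg))

omit [NormedSpace ℝ E] in
theorem memTop_sum {ι : Type} (s : Finset ι) {f : ι → Z → E} (hf : ∀ i ∈ s, MemLp (f i) ∞ μ) :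
    MemLp (fun z => ∑ i ∈ s, f i z) ∞ μ := memLp_finsetSum s hf

theorem mulOp_sum {ι : Type} (s : Finset ι) {f : ι → Z → E →L[ℝ] F}
    (hf : ∀ i ∈ s, MemLp (f i) ∞ μ) :
    mulOp μ (fun z => ∑ i ∈ s, f i z) = ∑ i ∈ s, mulOp μ (f i) := by
  classical
  induction s using Finset.induction_on with
  | empty => simpa using mulOp_zero
  | insert i s hi ih =>
    have h1 := fun j hj => hf j (Finset.mem_insert_of_mem hj)
    simp only [Finset.sum_insert hi]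
    rw [mulOp_add (hf i (Finset.mem_insert_self _ _)) (memTop_sum s h1), ih h1]

theorem norm_mulOp_apply_le {f : Z → E →L[ℝ] F} (h : MemLp f ∞ μ) {C : ℝ}
    (hC : ∀ᵐ z ∂μ, ∀ v, ‖f z v‖ ≤ C * ‖v‖) (u : Lp E 2 μ) : ‖mulOp μ f u‖ ≤ C * ‖u‖ := by
  refine Lp.norm_le_mul_norm_of_ae_le_mul ?_
  filter_upwards [mulOp_coe h u, hC] with z h1 h2
  rw [h1]; exact h2 _

theorem norm_mulOp_le {f : Z → E →L[ℝ] F} {C : ℝ} (h0 : 0 ≤ C) (hC : ∀ᵐ z ∂μ, ‖f z‖ ≤ C) :
    ‖mulOp μ f‖ ≤ C := by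
  by_cases h : MemLp f ∞ μ
  · exact ContinuousLinearMap.opNorm_le_bound _ h0 (norm_mulOp_apply_le h
      (hC.mono fun z hz v => (f z).le_of_opNorm_le hz v))
  · rw [mulOp, dif_neg h, norm_zero]; exact h0

variable (μ E) in
/-- Multiplication by a bounded measurable function. -/
def mulS (c : Z → ℝ) : Lp E 2 μ →L[ℝ] Lp E 2 μ := mulOp μ fun z => c z • (1 : E →L[ℝ] E)

theorem mulS_coe {c : Z → ℝ} (h : MemLp c ∞ μ) (u : Lp E 2 μ) :
    mulS μ E c u =ᵐ[μ] fun z => c z • u z := mulOp_coe (memTop_smul_const h 1) u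

theorem mulS_coe' {c : Z → ℝ} (h : MemLp c ∞ μ) {u : Lp E 2 μ} {v : Z → E} (hu : u =ᵐ[μ] v) :
    mulS μ E c u =ᵐ[μ] fun z => c z • v z := mulOp_coe' (memTop_smul_const h 1) hu

theorem eq_mulS {c : Z → ℝ} (h : MemLp c ∞ μ) {T : Lp E 2 μ →L[ℝ] Lp E 2 μ}
    (hT : ∀ u, T u =ᵐ[μ] fun z => c z • u z) : T = mulS μ E c :=
  eq_mulOp (memTop_smul_const h 1) hT

theorem mulS_congr {c d : Z → ℝ} (h : c =ᵐ[μ] d) : mulS μ E c = mulS μ E d :=
  mulOp_congr (h.mono fun z hz => by simp only [hz])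

theorem memTop_mulS {c d : Z → ℝ} (hc : MemLp c ∞ μ) (hd : MemLp d ∞ μ) :
    MemLp (fun z => c z * d z) ∞ μ := memTop_smul hc hd

theorem mulS_mul {c d : Z → ℝ} (hc : MemLp c ∞ μ) (hd : MemLp d ∞ μ) :
    mulS μ E c * mulS μ E d = mulS μ E fun z => c z * d z := by
  refine eq_mulS (memTop_mulS hc hd) fun u => ?_
  filter_upwards [mulS_coe' hc (mulS_coe hd u)] with z h1
  exact h1.trans (smul_smul _ _ _)

theorem mulS_comm {c d : Z → ℝ} (hc : MemLp c ∞ μ) (hd : MemLp d ∞ μ) :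
    mulS μ E c * mulS μ E d = mulS μ E d * mulS μ E c := by
  rw [mulS_mul hc hd, mulS_mul hd hc]; simp only [mul_comm]

theorem mulOp_comp_mulS {f : Z → E →L[ℝ] F} {c : Z → ℝ} (hf : MemLp f ∞ μ) (hc : MemLp c ∞ μ) :
    (mulOp μ f).comp (mulS μ E c) = mulOp μ fun z => c z • f z := by
  refine eq_mulOp (memTop_smul hc hf) fun u => ?_
  filter_upwards [mulOp_coe' hf (mulS_coe hc u)] with z h1
  exact h1.trans (map_smul _ _ _)

theorem mulS_comp_mulOp {f : Z → E →L[ℝ] F} {c : Z → ℝ} (hf : MemLp f ∞ μ) (hc : MemLp c ∞ μ) :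
    (mulS μ F c).comp (mulOp μ f) = mulOp μ fun z => c z • f z :=
  eq_mulOp (memTop_smul hc hf) fun u => mulS_coe' hc (mulOp_coe hf u)

theorem mulS_comm_mulOp {f : Z → E →L[ℝ] F} {c : Z → ℝ} (hf : MemLp f ∞ μ) (hc : MemLp c ∞ μ) :
    (mulS μ F c).comp (mulOp μ f) = (mulOp μ f).comp (mulS μ E c) := by
  rw [mulOp_comp_mulS hf hc, mulS_comp_mulOp hf hc]

theorem mulS_comm_const (T : E →L[ℝ] F) {c : Z → ℝ} (hc : MemLp c ∞ μ) :
    (mulS μ F c).comp (T.compLpL 2 μ) = (T.compLpL 2 μ).comp (mulS μ E c) := by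
  rw [← mulOp_const]; exact mulS_comm_mulOp (memLp_top_const T) hc

theorem mulS_const (r : ℝ) : mulS μ E (fun _ => r) = r • 1 := by
  rw [mulS, mulOp_smul (memLp_top_const _), mulOp_one]

theorem mulS_one : mulS μ E (fun _ => 1) = 1 := by rw [mulS_const, one_smul]

theorem mulS_zero : mulS μ E (fun _ => 0) = 0 := by rw [mulS_const, zero_smul]

theorem mulS_add {c d : Z → ℝ} (hc : MemLp c ∞ μ) (hd : MemLp d ∞ μ) :
    mulS μ E (fun z => c z + d z) = mulS μ E c + mulS μ E d := by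
  simp only [mulS, add_smul]
  exact mulOp_add (memTop_smul_const hc _) (memTop_smul_const hd _)

theorem mulS_sub {c d : Z → ℝ} (hc : MemLp c ∞ μ) (hd : MemLp d ∞ μ) :
    mulS μ E (fun z => c z - d z) = mulS μ E c - mulS μ E d := by
  simp only [mulS, sub_smul]
  exact mulOp_sub (memTop_smul_const hc _) (memTop_smul_const hd _)

theorem mulS_smul {c : Z → ℝ} (hc : MemLp c ∞ μ) (r : ℝ) :
    mulS μ E (fun z => r * c z) = r • mulS μ E c := by
  simp only [mulS, mul_smul]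
  exact mulOp_smul (memTop_smul_const hc _) r

theorem mulS_sum {ι : Type} (s : Finset ι) {c : ι → Z → ℝ} (hc : ∀ i ∈ s, MemLp (c i) ∞ μ) :
    mulS μ E (fun z => ∑ i ∈ s, c i z) = ∑ i ∈ s, mulS μ E (c i) := by
  simp only [mulS, Finset.sum_smul]
  exact mulOp_sum s fun i hi => memTop_smul_const (hc i hi) _

theorem norm_mulS_le {c : Z → ℝ} {C : ℝ} (h0 : 0 ≤ C) (hC : ∀ᵐ z ∂μ, |c z| ≤ C) :
    ‖mulS μ E c‖ ≤ C :=
  norm_mulOp_le h0 (hC.mono fun z hz => ContinuousLinearMap.opNorm_le_bound _ h0 fun v => by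
    change ‖c z • v‖ ≤ _
    rw [norm_smul]
    exact mul_le_mul_of_nonneg_right hz (norm_nonneg _))

theorem memTop_ind {A : Set Z} (hA : MeasurableSet A) : MemLp (A.indicator fun _ => (1 : ℝ)) ∞ μ :=
  (memLp_top_const 1).indicator hA

variable (μ E) in
/-- Multiplication by the indicator function of a set. -/
def indOp (A : Set Z) : Lp E 2 μ →L[ℝ] Lp E 2 μ := mulS μ E (A.indicator fun _ => 1)

theorem indOp_coe' {A : Set Z} (hA : MeasurableSet A) {u : Lp E 2 μ} {v : Z → E}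
    (hu : u =ᵐ[μ] v) : indOp μ E A u =ᵐ[μ] A.indicator v := by
  filter_upwards [mulS_coe' (memTop_ind hA) hu] with z h1
  refine h1.trans ?_
  by_cases hz : z ∈ A <;> simp [hz]

theorem indOp_coe {A : Set Z} (hA : MeasurableSet A) (u : Lp E 2 μ) :
    indOp μ E A u =ᵐ[μ] A.indicator u := indOp_coe' hA EventuallyEq.rfl

theorem indOp_mul {A B : Set Z} (hA : MeasurableSet A) (hB : MeasurableSet B) :
    indOp μ E A * indOp μ E B = indOp μ E (A ∩ B) := by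
  rw [indOp, indOp, mulS_mul (memTop_ind hA) (memTop_ind hB), indOp]
  congr 1
  funext z
  by_cases h1 : z ∈ A <;> by_cases h2 : z ∈ B <;> simp [h1, h2]

theorem indOp_univ : indOp μ E univ = 1 := by rw [indOp, indicator_univ, mulS_one]

theorem indOp_empty : indOp μ E ∅ = 0 := by rw [indOp, indicator_empty, mulS_zero]

theorem norm_indOp_le (A : Set Z) : ‖indOp μ E A‖ ≤ 1 :=
  norm_mulS_le zero_le_one (ae_of_all _ fun z => by by_cases h : z ∈ A <;> simp [h])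

end Normed

section Inner

variable [InnerProductSpace ℝ E] [InnerProductSpace ℝ F]

theorem inner_mulOp {f : Z → E →L[ℝ] F} {g : Z → F →L[ℝ] E} (hf : MemLp f ∞ μ)
    (hg : MemLp g ∞ μ) (h : ∀ᵐ z ∂μ, ∀ u v, ⟪f z u, v⟫_ℝ = ⟪u, g z v⟫_ℝ) (u : Lp E 2 μ)
    (v : Lp F 2 μ) : ⟪mulOp μ f u, v⟫_ℝ = ⟪u, mulOp μ g v⟫_ℝ := by
  rw [L2.inner_def, L2.inner_def]
  refine integral_congr_ae ?_
  filter_upwards [mulOp_coe hf u, mulOp_coe hg v, h] with z h1 h2 h3
  rw [h1, h2, h3]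

theorem inner_mulS {c : Z → ℝ} (hc : MemLp c ∞ μ) (u v : Lp E 2 μ) :
    ⟪mulS μ E c u, v⟫_ℝ = ⟪u, mulS μ E c v⟫_ℝ :=
  inner_mulOp (memTop_smul_const hc _) (memTop_smul_const hc _)
    (ae_of_all _ fun z u v => by simp [inner_smul_left, inner_smul_right]) u v

theorem inner_indOp {A : Set Z} (hA : MeasurableSet A) (u v : Lp E 2 μ) :
    ⟪indOp μ E A u, v⟫_ℝ = ⟪u, indOp μ E A v⟫_ℝ := inner_mulS (memTop_ind hA) u v

theorem inner_of_ae {u v : Lp E 2 μ} {f g : Z → E} (hu : u =ᵐ[μ] f) (hv : v =ᵐ[μ] g) :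
    ⟪u, v⟫_ℝ = ∫ z, ⟪f z, g z⟫_ℝ ∂μ := by
  rw [L2.inner_def]
  refine integral_congr_ae ?_
  filter_upwards [hu, hv] with z h1 h2
  rw [h1, h2]

variable [CompleteSpace E] [CompleteSpace F]

theorem memTop_adjoint {f : Z → E →L[ℝ] F} (hf : MemLp f ∞ μ) :
    MemLp (fun z => ContinuousLinearMap.adjoint (f z)) ∞ μ :=
  MemLp.of_le hf ((ContinuousLinearMap.adjoint (𝕜 := ℝ) (E := E) (F := F)).continuous
    |>.comp_aestronglyMeasurable hf.1) (ae_of_all _ fun _ => (LinearIsometryEquiv.norm_map _ _).le)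

theorem adjoint_mulOp {f : Z → E →L[ℝ] F} (hf : MemLp f ∞ μ) :
    ContinuousLinearMap.adjoint (mulOp μ f) =
      mulOp μ fun z => ContinuousLinearMap.adjoint (f z) :=
  ((ContinuousLinearMap.eq_adjoint_iff _ _).2 fun u v => inner_mulOp (memTop_adjoint hf) hf
    (ae_of_all _ fun z u v => (f z).adjoint_inner_left v u) u v).symm

theorem isSelfAdjoint_mulS {c : Z → ℝ} (hc : MemLp c ∞ μ) : IsSelfAdjoint (mulS μ E c) :=
  ContinuousLinearMap.isSelfAdjoint_iff_isSymmetric.2 (inner_mulS hc)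

theorem isSelfAdjoint_indOp {A : Set Z} (hA : MeasurableSet A) : IsSelfAdjoint (indOp μ E A) :=
  isSelfAdjoint_mulS (memTop_ind hA)

end Inner

end Pool.Agent.Lib.CX
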