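import Pool.Agent.Lib.CX.ClifGr

/-! The real spinor module of `Cl_(8k)` exists. -/

noncomputable section

open CliffordAlgebra Matrix
open scoped InnerProductSpace

namespace Pool.Agent.Lib.CX

namespace Clif

/-- the sign character -/
def sg (x : ZMod 2) : ℤ := if x = 0 then 1 else -1

theorem sg_add : ∀ x y, sg (x + y) = sg x * sg y := by decide

theorem sg_anti : ∀ x y, x + y = 1 → sg x + sg y = 0 := by decide

section Pauli

variable {F : Type} [Fintype F] [DecidableEq F]

/-- signed translation matrices -/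
def pau (a b : F → ZMod 2) : Matrix (F → ZMod 2) (F → ZMod 2) ℝ :=
  Matrix.of fun x y => if y = x + a then (sg (b ⬝ᵥ x) : ℝ) else 0

theorem pau_mul (a b a' b' : F → ZMod 2) :
    pau a b * pau a' b' = (sg (a ⬝ᵥ b') : ℝ) • pau (a + a') (b + b') := by
  ext x z
  simp only [pau, Matrix.mul_apply, of_apply, ite_mul, zero_mul, Finset.sum_ite_eq',
    Finset.mem_univ, if_true, Matrix.smul_apply, smul_eq_mul, add_assoc, dotProduct_add,
    add_dotProduct, sg_add, dotProduct_comm b' a]
  split_ifs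
  · push_cast; ring
  · simp

omit [Fintype F] [DecidableEq F] in
theorem self_add (a : F → ZMod 2) : a + a = 0 := funext fun i => CharTwo.add_self_eq_zero (a i)

omit [DecidableEq F] in
theorem pau_zero : pau (0 : F → ZMod 2) 0 = 1 := by
  ext x y
  simp [pau, sg, one_apply, eq_comm]

omit [DecidableEq F] in
theorem pau_transpose (a b : F → ZMod 2) (h : a ⬝ᵥ b = 1) : (pau a b)ᵀ = -pau a b := by
  ext x y
  simp only [pau, transpose_apply, of_apply, Matrix.neg_apply]
  by_cases e : y = x + a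
  · have e' : x = y + a := by rw [e, add_assoc, self_add, add_zero]
    rw [if_pos e', if_pos e, e, dotProduct_add, sg_add, dotProduct_comm b a, h]
    simp [sg]
  · have e' : ¬ x = y + a := fun e' => e (by rw [e', add_assoc, self_add, add_zero])
    rw [if_neg e', if_neg e, neg_zero]

/-- symplectic data of a Clifford system -/
def Sym {J : Type} (a b : J → F → ZMod 2) : Prop :=
  (∀ i, a i ⬝ᵥ b i = 1) ∧ ∀ i j, i ≠ j → a i ⬝ᵥ b j + a j ⬝ᵥ b i = 1

theorem Sym.rel {J : Type} [DecidableEq J] {a b : J → F → ZMod 2} (h : Sym a b) (i j : J) :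
    pau (a i) (b i) * pau (a j) (b j) + pau (a j) (b j) * pau (a i) (b i) =
      (if i = j then (-2 : ℝ) else 0) • 1 := by
  rw [pau_mul, pau_mul]
  split_ifs with e
  · subst e
    rw [h.1 i, self_add, self_add, pau_zero, ← add_smul]
    norm_num [sg]
  · rw [add_comm (a j), add_comm (b j), ← add_smul, ← Int.cast_add, sg_anti _ _ (h.2 i j e)]
    simp

end Pauli

/-- translation parts in dimension eight -/
def a8 : Fin 8 → Fin 4 → ZMod 2 :=
  ![![1,0,1,1], ![1,0,0,1], ![0,1,1,1], ![0,0,1,1], ![1,1,0,1], ![0,1,0,1], ![1,1,1,1], ![0,0,0,1]]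

/-- sign parts in dimension eight -/
def b8 : Fin 8 → Fin 4 → ZMod 2 :=
  ![![1,0,0,0], ![1,0,1,0], ![0,0,1,0], ![0,1,1,0], ![0,1,0,0], ![1,1,0,0], ![1,1,1,0], ![0,0,0,1]]

/-- the grading in dimension eight -/
def w8 : Fin 4 → ZMod 2 := ![0,0,0,1]

theorem sym8 : Sym a8 b8 := by unfold Sym; decide

theorem a8_w8 : ∀ i, a8 i ⬝ᵥ w8 = 1 := by decide

theorem exists_sym : ∀ k : ℕ, ∃ (J F : Type) (_ : Fintype J) (_ : Fintype F)
    (a b : J → F → ZMod 2), Fintype.card J = 8 * k ∧ Fintype.card F = 4 * k ∧ Sym a b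
  | 0 => ⟨Empty, Empty, inferInstance, inferInstance, Empty.elim, Empty.elim, rfl, rfl,
      fun i => i.elim, fun i => i.elim⟩
  | k + 1 => by
    obtain ⟨J, F, _, _, a, b, hJ, hF, h⟩ := exists_sym k
    refine ⟨J ⊕ Fin 8, F ⊕ Fin 4, inferInstance, inferInstance,
      Sum.elim (fun i => Sum.elim (a i) 0) fun i => Sum.elim 0 (a8 i),
      Sum.elim (fun i => Sum.elim (b i) w8) fun i => Sum.elim 0 (b8 i),
      by simp [hJ]; ring, by simp [hF]; ring, ?_, ?_⟩
    · rintro (i | i)
      · simp [sumElim_dotProduct_sumElim, h.1 i]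
      · simp [sumElim_dotProduct_sumElim, sym8.1 i]
    · rintro (i | i) (j | j) hij
      · simpa [sumElim_dotProduct_sumElim] using h.2 i j fun e => hij (e ▸ rfl)
      · simp [sumElim_dotProduct_sumElim, a8_w8]
      · simp [sumElim_dotProduct_sumElim, a8_w8]
      · simpa [sumElim_dotProduct_sumElim] using sym8.2 i j fun e => hij (e ▸ rfl)

theorem exists_lift {n : ℕ} {A : Type} [Ring A] [Algebra ℝ A] (g : Fin n → A)
    (h : ∀ i j, g i * g j + g j * g i = (if i = j then (-2 : ℝ) else 0) • 1) :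
    ∃ c : Cl n →ₐ[ℝ] A, ∀ v, c (ι (Qn n) v) = ∑ i, v i • g i := by
  let f : Eu n →ₗ[ℝ] A :=
    { toFun := fun v => ∑ i, v i • g i
      map_add' := fun u v => by simp [add_smul, Finset.sum_add_distrib]
      map_smul' := fun r v => by simp [Finset.smul_sum, smul_smul] }
  have hf : ∀ v, f v * f v = algebraMap ℝ A (Qn n v) := by
    intro v
    have e1 : f v * f v = ∑ i, ∑ j, (v i * v j) • (g i * g j) := by
      simp only [f, LinearMap.coe_mk, AddHom.coe_mk]
      rw [Finset.sum_mul_sum]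
      simp only [smul_mul_smul_comm]
    have e2 : f v * f v = ∑ i, ∑ j, (v i * v j) • (g j * g i) := by
      rw [e1, Finset.sum_comm]
      simp only [mul_comm]
    have e3 : (2 : ℝ) • (f v * f v) = (2 : ℝ) • algebraMap ℝ A (Qn n v) := by
      rw [two_smul]
      nth_rw 1 [e1]
      rw [e2, ← Finset.sum_add_distrib]
      simp only [← Finset.sum_add_distrib, ← smul_add, h, smul_smul, mul_ite, mul_zero,
        ← Finset.sum_smul, Finset.sum_ite_eq, Finset.mem_univ, if_true]
      rw [Qn_apply, EuclideanSpace.real_norm_sq_eq, Algebra.algebraMap_eq_smul_one, smul_smul,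
        ← Finset.sum_mul]
      congr 1
      simp only [sq]
      ring
    exact smul_right_injective A two_ne_zero e3
  exact ⟨CliffordAlgebra.lift (Qn n) ⟨f, hf⟩, fun v => by simp [f]⟩

theorem nonempty_of_matrices {n N : ℕ} (g : Fin n → Matrix (Fin N) (Fin N) ℝ)
    (hs : ∀ i, (g i)ᵀ = -g i)
    (h : ∀ i j, g i * g j + g j * g i = (if i = j then (-2 : ℝ) else 0) • 1) :
    Nonempty (Spinor n N) := by
  obtain ⟨c, hc⟩ := exists_lift g h
  let T := (toEuclideanCLM (n := Fin N) (𝕜 := ℝ))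
  refine ⟨⟨T.toAlgEquiv.toAlgHom.comp c, fun v u w => ?_⟩⟩
  have h1 : star (c (ι (Qn n) v)) = -c (ι (Qn n) v) := by
    rw [hc, star_eq_conjTranspose, conjTranspose_eq_transpose_of_trivial, transpose_sum]
    simp [hs]
  have h2 : ContinuousLinearMap.adjoint (T (c (ι (Qn n) v))) = -T (c (ι (Qn n) v)) := by
    rw [← ContinuousLinearMap.star_eq_adjoint, ← map_star, h1, map_neg]
  change ⟪T (c (ι (Qn n) v)) u, w⟫_ℝ = -⟪u, T (c (ι (Qn n) v)) w⟫_ℝ
  rw [← ContinuousLinearMap.adjoint_inner_right, h2]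
  simp

end Clif

open Clif in
/-- the real spinor module of `Cl_(8k)` exists -/
theorem spinor_nonempty' (k n : ℕ) (hn : n = 8 * k) : Nonempty (Spinor n (16 ^ k)) := by
  classical
  obtain ⟨J, F, _, _, a, b, hJ, hF, h⟩ := exists_sym k
  let e : Fin n ≃ J := (Fintype.equivFinOfCardEq (hJ.trans hn.symm)).symm
  let r : (F → ZMod 2) ≃ Fin (16 ^ k) := Fintype.equivFinOfCardEq (by
    rw [Fintype.card_fun, ZMod.card, hF, pow_mul]; norm_num)
  refine nonempty_of_matrices (fun i => reindexAlgEquiv ℝ ℝ r (pau (a (e i)) (b (e i))))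
    (fun i => ?_) fun i j => ?_
  · rw [← map_neg, ← pau_transpose _ _ (h.1 _)]
    rfl
  · rw [← map_mul, ← map_mul, ← map_add, h.rel, map_smul, map_one]
    simp

theorem spinor_nonempty (k : ℕ) : Nonempty (Spinor (8 * k + 7 + 1) (16 ^ (k + 1))) :=
  spinor_nonempty' (k + 1) _ (by ring)

end Pool.Agent.Lib.CX
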