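import Pool.Agent.Lib.CX.ClifUniq

/-! The index does not depend on the choice of the spinor module. -/

noncomputable section

open Set MeasureTheory BCO CliffordAlgebra
open scoped Manifold ContDiff

namespace Pool.Agent.Lib.CX

namespace ClifInv

variable {G : Type} [Group G] {E : Type} [NormedAddCommGroup E] [NormedSpace ℝ E]

theorem amp_mul (u v : E →L[ℝ] E) : amp G u * amp G v = amp G (u * v) := amp_comp u v

theorem amp_one : amp G (1 : E →L[ℝ] E) = 1 := op_ext fun _ _ => rfl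

theorem conj_kk (u v : E →L[ℝ] E) {A : V G E →L[ℝ] V G E} (hA : A ∈ KK G E) :
    amp G u * A * amp G v ∈ KK G E := by
  let φ : (V G E →L[ℝ] V G E) →L[ℝ] V G E →L[ℝ] V G E :=
    ((ContinuousLinearMap.compL ℝ (V G E) (V G E) (V G E)).flip (amp G v)).comp
      (ContinuousLinearMap.compL ℝ (V G E) (V G E) (V G E) (amp G u))
  have : KK G E ≤ (KK G E).comap φ.toLinearMap := by
    refine Submodule.topologicalClosure_minimal _ (Submodule.span_le.2 ?_)
      ((Submodule.isClosed_topologicalClosure _).preimage φ.continuous)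
    rintro _ ⟨g, T, hT, rfl⟩
    refine Submodule.le_topologicalClosure _ (Submodule.subset_span
      ⟨g, u * T * v, (hT.clm_comp u).comp_clm v, ?_⟩)
    exact op_ext fun _ _ => rfl
  exact this hA

theorem conj_blk {r : ℕ} (u v a' : _) (a : V G E →L[ℝ] V G E) (q : Matrix (Fin r) (Fin r) (Cr G))
    (h : a' = amp G u * a * amp G v) :
    amp G (u.prodMap (1 : (Fin r → ℝ) →L[ℝ] Fin r → ℝ)) * blk a q *
      amp G (v.prodMap (1 : (Fin r → ℝ) →L[ℝ] Fin r → ℝ)) = blk a' q := by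
  subst h
  refine op_ext fun ξ g => ?_
  change (u.prodMap 1) (blk a q (amp G (v.prodMap 1) ξ) g) = _
  unfold blk
  rw [_root_.add_apply, _root_.add_apply, lp.coeFn_add, lp.coeFn_add, Pi.add_apply, Pi.add_apply,
    map_add, sum_apply', sum_apply', map_sum]
  refine congrArg₂ (· + ·) (Prod.ext rfl rfl) (Finset.sum_congr rfl fun i _ => ?_)
  rw [sum_apply', sum_apply', map_sum]
  exact Finset.sum_congr rfl fun j _ => Prod.ext (map_zero u) rfl

theorem conj_ind {u v : E →L[ℝ] E} (hvu : v * u = 1) {e P : V G E →L[ℝ] V G E}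
    {z : BCH.K0 (Cr G)} (h : IsInd e P z) :
    IsInd (amp G u * e * amp G v) (amp G u * P * amp G v) z := by
  obtain ⟨r, p, q, hp, hq, x, hx, y, hy, hxy, hyx, hk, hz⟩ := h
  let U := amp G (u.prodMap (1 : (Fin r → ℝ) →L[ℝ] Fin r → ℝ))
  let W := amp G (v.prodMap (1 : (Fin r → ℝ) →L[ℝ] Fin r → ℝ))
  have hWU : W * U = 1 := op_ext fun ξ g =>
    Prod.ext (congrArg (fun T : E →L[ℝ] E => T (ξ g).1) hvu) rfl
  have hm : ∀ a b, U * a * W * (U * b * W) = U * (a * b) * W := fun a b => by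
    rw [mul_assoc (U * a), ← mul_assoc W, ← mul_assoc W, hWU, one_mul, ← mul_assoc, mul_assoc U]
  have hU : U ∈ RA G (E × (Fin r → ℝ)) := amp_mem _
  have hW : W ∈ RA G (E × (Fin r → ℝ)) := amp_mem _
  refine ⟨r, p, q, hp, hq, U * x * W, mul_mem (mul_mem hU hx) hW, U * y * W,
    mul_mem (mul_mem hU hy) hW, ?_, ?_, ?_, hz⟩
  · rw [hm, hxy]
    exact conj_blk _ _ _ _ _ rfl
  · rw [hm, hyx]
    exact conj_blk _ _ _ _ _ rfl
  · have e1 : amp G u * P * amp G v * (amp G u * e * amp G v) = amp G u * (P * e) * amp G v := by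
      rw [mul_assoc (amp G u * P), ← mul_assoc (amp G v), ← mul_assoc (amp G v), amp_mul, hvu,
        amp_one, one_mul, ← mul_assoc, mul_assoc (amp G u)]
    rw [← conj_blk u v _ (P * e) 0 e1]
    have := conj_kk (u.prodMap (1 : (Fin r → ℝ) →L[ℝ] Fin r → ℝ)) (v.prodMap 1) hk
    have e2 : U * (x - blk (P * e) 0) * W = U * x * W - U * blk (P * e) 0 * W :=
      op_ext fun ξ g => map_sub (u.prodMap (1 : (Fin r → ℝ) →L[ℝ] Fin r → ℝ)) _ _
    exact e2 ▸ this

variable {n N : ℕ}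

theorem dd_comp (X : SM n) (u : Eu N ≃L[ℝ] Eu N) (a : ℕ) (i : Fin n) (φ : X.M → Eu N) (p : X.M) :
    X.dd a i (fun y => u (φ y)) p = u (X.dd a i φ p) := by
  unfold SM.dd
  by_cases h : MDifferentiableAt (𝓡 n) 𝓘(ℝ, Eu N) φ p
  · have := ((u : Eu N →L[ℝ] Eu N).hasMFDerivAt.comp p h.hasMFDerivAt).mfderiv
    exact congrArg (fun T => T (X.e a i p)) this
  · have h' : ¬ MDifferentiableAt (𝓡 n) 𝓘(ℝ, Eu N) (fun y => u (φ y)) p := fun h' => h (by
      have := (u.symm : Eu N →L[ℝ] Eu N).mdifferentiableAt.comp p h'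
      simpa [Function.comp_def] using this)
    rw [mfderiv_zero_of_not_mdifferentiableAt h, mfderiv_zero_of_not_mdifferentiableAt h']
    exact (map_zero u).symm

variable {S S' : Spinor n N} {u : Eu N ≃L[ℝ] Eu N} (hu : ∀ x w, u (S.c x w) = S'.c x (u w))

include hu in
theorem dirac_comp (X : SM n) (a : ℕ) (φ : X.M → Eu N) (p : X.M) :
    X.dirac S' a (fun y => u (φ y)) p = u (X.dirac S a φ p) := by
  simp only [SM.dirac, dd_comp, map_sum, map_add, map_smul, hu]

end ClifInv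

open ClifInv in
theorem Sing.IsIndex.of_equiv {G : Type} [Group G] {m N : ℕ} {x : Sing G m}
    {S S' : Spinor (m + 1) N} (u : Eu N ≃L[ℝ] Eu N) (hu : ∀ y w, u (S.c y w) = S'.c y (u w))
    {z : BCH.K0 (Cr G)} (h : x.IsIndex S z) : x.IsIndex S' z := by
  obtain ⟨μ, hμ, e, he, hg, hz⟩ := h
  let L : Lp (Eu N) 2 μ →L[ℝ] Lp (Eu N) 2 μ := (u : Eu N →L[ℝ] Eu N).compLpL 2 μ
  let L' : Lp (Eu N) 2 μ →L[ℝ] Lp (Eu N) 2 μ := (u.symm : Eu N →L[ℝ] Eu N).compLpL 2 μ
  have hL : ∀ f, L f =ᵐ[μ] fun p => u (f p) := fun f => ContinuousLinearMap.coeFn_compLpL _ f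
  have hL' : ∀ f, L' f =ᵐ[μ] fun p => u.symm (f p) := fun f =>
    ContinuousLinearMap.coeFn_compLpL _ f
  have h1 : L' * L = 1 := ContinuousLinearMap.ext fun f => Lp.ext (by
    filter_upwards [hL' (L f), hL f] with p h1 h2
    exact h1.trans (by rw [h2]; exact u.symm_apply_apply _))
  have hgr : ∀ w, u (S.gr w) = S'.gr (u w) := hu _
  have hsec : ∀ a i g φ γ p, u (x.sec S a i g φ γ p) = x.sec S' a i g (fun y => u (φ y)) γ p := by
    intro a i g φ γ p
    unfold Sing.sec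
    split_ifs
    · exact hu _ _
    · exact map_zero u
  refine ⟨μ, hμ, amp G L * e * amp G L', mul_mem (mul_mem (amp_mem _) he) (amp_mem _), ?_, ?_⟩
  · intro a i g ψ hψ hc hs
    obtain ⟨ξ, η, hξη, hae⟩ := hg a i g (fun p => u.symm (ψ p))
      ((u.symm : Eu N →L[ℝ] Eu N).contMDiff.comp hψ) (hc.comp_left (map_zero u.symm))
      ((tsupport_comp_subset (map_zero u.symm) ψ).trans hs)
    refine ⟨amp G L ξ, amp G L η, ?_, fun γ => ⟨?_, ?_⟩⟩
    · change amp G L (e ((amp G L' * amp G L) ξ)) = _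
      rw [amp_mul, h1, amp_one, ← hξη]
      rfl
    · filter_upwards [hL (ξ γ), (hae γ).1] with p h1 h2
      refine h1.trans ?_
      rw [h2, hsec]
      congr 1
      funext y
      rw [Pi.add_apply, Pi.add_apply, map_add, ← dirac_comp hu]
      simp only [hgr, u.apply_symm_apply]
    · filter_upwards [hL (η γ), (hae γ).2] with p h1 h2
      refine h1.trans ?_
      rw [h2, hsec]
      congr 1
      funext y
      rw [Pi.add_apply, Pi.add_apply, map_add, ← dirac_comp hu]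
      simp only [map_smul, map_add, hgr, u.apply_symm_apply]
  · have e1 : amp G L * amp G (((1 / 2 : ℝ) • (1 - S.gr)).compLpL 2 μ) * amp G L' =
        amp G (((1 / 2 : ℝ) • (1 - S'.gr)).compLpL 2 μ) := by
      rw [amp_mul, amp_mul]
      congr 1
      refine ContinuousLinearMap.ext fun f => Lp.ext ?_
      filter_upwards [hL (((1 / 2 : ℝ) • (1 - S.gr)).compLpL 2 μ (L' f)),
        ((1 / 2 : ℝ) • (1 - S.gr)).coeFn_compLpL (L' f), hL' f,
        ((1 / 2 : ℝ) • (1 - S'.gr)).coeFn_compLpL f] with p h1 h2 h3 h4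
      refine h1.trans ?_
      rw [h2, h3, h4]
      simp [hgr]
    exact e1 ▸ conj_ind h1 hz

/-- the index does not depend on the choice of the irreducible spinor module -/
theorem Sing.IsIndex.indep {G : Type} [Group G] {k : ℕ} {x : Sing G (8 * k + 7)}
    {S : Spinor (8 * k + 7 + 1) (16 ^ (k + 1))} (S' : Spinor (8 * k + 7 + 1) (16 ^ (k + 1)))
    {z : BCH.K0 (Cr G)} (h : x.IsIndex S z) : x.IsIndex S' z := by
  obtain ⟨U, hU⟩ := Spinor.unique k S S'
  exact h.of_equiv U.toContinuousLinearEquiv hU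

end Pool.Agent.Lib.CX
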