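import Pool.Agent.Lib.CX.Blue

/-! Block BG3: a local homomorphism is continuous on a finite subcomplex. -/

noncomputable section

open Set Function Filter Topology

namespace Pool.Agent.Lib.CX

namespace BG3

variable {G G' : Type} [Group G] [Group G']

/-- the characteristic map of a simplex -/
def io (n : ℕ) (g : ℕ → G) (t : Sx n) : BG G := Quot.mk _ ⟨(n, g), t⟩

theorem continuous_io (n : ℕ) (g : ℕ → G) : Continuous (io n g) :=
  continuous_quot_mk.comp (continuous_sigmaMk (σ := fun σ : ℕ × (ℕ → G) => Sx σ.1) (i := (n, g)))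

theorem t_io (n : ℕ) (g : ℕ → G) (t : Sx n) : (io n g t).t = t.1 := rfl

theorem co_io (n : ℕ) (g : ℕ → G) (t : Sx n) {i j : ℕ} (hi : t.1 i ≠ 0) (hj : t.1 j ≠ 0) :
    (io n g t).co i j = g i * (g j)⁻¹ := if_pos ⟨hi, hj⟩

theorem isClosed_Sx (n : ℕ) : IsClosed (Sx n) := by
  simp only [Sx, ofPred_and, ofPred_forall]
  refine (isClosed_iInter fun i => isClosed_le continuous_const (continuous_apply i)).inter
    ((isClosed_iInter fun i => isClosed_iInter fun _ =>
      isClosed_eq (continuous_apply i) continuous_const).inter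
      (isClosed_eq (continuous_finsetSum _ fun i _ => continuous_apply i) continuous_const))

theorem eq_io (h : St_BG1) (n : ℕ) (g : ℕ → G) (t : Sx n) (p : BG G) (h1 : p.t = t.1)
    (h2 : ∀ i j, t.1 i ≠ 0 → t.1 j ≠ 0 → p.co i j = g i * (g j)⁻¹) : p = io n g t := by
  obtain ⟨e1, -, -, e4, -⟩ := h G G
  refine e1 _ _ h1 fun i j => ?_
  by_cases h3 : t.1 i = 0 ∨ t.1 j = 0
  · rw [e4 p i j (h1 ▸ h3), e4 (io n g t) i j h3]
  · rw [not_or] at h3
    rw [h2 i j h3.1 h3.2, co_io n g t h3.1 h3.2]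

theorem isClosedMap_io (h : St_BG1) (n : ℕ) (g : ℕ → G) : IsClosedMap (io n g) := by
  intro C hC
  refine isQuotientMap_quot_mk.isClosed_preimage.1 (isClosed_sigma_iff.2 fun ⟨m, k⟩ => ?_)
  have h1 : IsClosed (Subtype.val '' C) := (isClosed_Sx n).isClosedMap_subtype_val C hC
  have h2 : IsClosed ((Subtype.val ⁻¹' (Subtype.val '' C) : Set (Sx m)) ∩
      ⋂ i, ⋂ j, ⋂ _ : k i * (k j)⁻¹ ≠ g i * (g j)⁻¹, ({t | t.1 i = 0} ∪ {t | t.1 j = 0})) := by
    refine (h1.preimage continuous_subtype_val).inter (isClosed_iInter fun i =>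
      isClosed_iInter fun j => isClosed_iInter fun _ => IsClosed.union ?_ ?_) <;>
    exact isClosed_eq ((continuous_apply _).comp continuous_subtype_val) continuous_const
  convert h2 using 1
  ext t
  simp only [mem_preimage, mem_inter_iff, mem_iInter, mem_union, mem_ofPred_eq]
  constructor
  · rintro ⟨c, hc, h3⟩
    have h4 : io n g c = io m k t := h3
    have h5 : c.1 = t.1 := congrArg BG.t h4
    refine ⟨⟨c, hc, h5⟩, fun i j h6 => ?_⟩
    by_contra h7
    rw [not_or] at h7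
    exact h6 (by rw [← co_io m k t h7.1 h7.2, ← h4, co_io n g c (h5 ▸ h7.1) (h5 ▸ h7.2)])
  · rintro ⟨⟨c, hc, h3⟩, h4⟩
    refine ⟨c, hc, (eq_io h n g c (io m k t) h3.symm fun i j hi hj => ?_).symm⟩
    rw [h3] at hi hj
    rw [co_io m k t hi hj]
    by_contra h5
    exact (h4 i j h5).elim hi hj

theorem t_mem (n : ℕ) (p : BG G) (h : ∀ i, n ≤ i → p.t i = 0) : p.t ∈ Sx n := by
  induction p using Quot.ind with
  | mk p =>
    obtain ⟨⟨m, g⟩, t, h1, h2, h3⟩ := p
    refine ⟨h1, h, Eq.trans ?_ h3⟩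
    have h4 : ∀ a, (∀ i, a ≤ i → t i = 0) → ∀ b, a ≤ b →
        ∑ i ∈ Finset.range a, t i = ∑ i ∈ Finset.range b, t i := fun a ha b hb =>
      Finset.sum_subset (Finset.range_subset_range.2 hb) fun i _ hi => ha i (by simpa using hi)
    exact (h4 n h _ (le_max_left n m)).trans (h4 m h2 _ (le_max_right n m)).symm

end BG3

open BG3 in
theorem stBG3 (h : St_BG1) : St_BG3 := by
  intro G G' _ _ n s σ hσ
  let ex : (Fin n → s) → ℕ → G := fun u i => if hi : i < n then (u ⟨i, hi⟩).1 else 1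
  have hlt : ∀ (t : Sx n) i, t.1 i ≠ 0 → i < n := fun t i hi =>
    not_le.1 fun h' => hi (t.2.2.1 i h')
  have hex : ∀ u i, i < n → ex u i ∈ s := fun u i hi => by
    simp only [ex, dif_pos hi]; exact (u _).2
  obtain ⟨-, e2, e3, -, -, e6, -⟩ := h G G'
  have h1 : ∀ u t, BG.mp σ (io n (ex u) t) = io n (σ ∘ ex u) t := fun u t => by
    obtain ⟨f1, -, f3⟩ := e6 σ (io n (ex u) t)
    refine eq_io h n _ t _ f1 fun i j hi hj => ?_
    have hx : t.1 (io n (ex u) t).ix ≠ 0 := e2 (io n (ex u) t)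
    rw [f3 i j hi hj, co_io n _ t hi hx, co_io n _ t hj hx,
      hσ _ (hex u i (hlt t i hi)) _ (hex u _ (hlt t _ hx)),
      hσ _ (hex u j (hlt t j hj)) _ (hex u _ (hlt t _ hx))]
    simp only [comp]
    group
  have h2 : ∀ p ∈ BG.fin n s, ∃ u t, p = io n (ex u) t := fun p hp => by
    refine ⟨fun i => ⟨p.co i p.ix, hp.2 _ _⟩, ⟨p.t, t_mem n p hp.1⟩,
      eq_io h n _ _ p rfl fun i j hi hj => ?_⟩
    simp only [ex, dif_pos (hlt _ i hi), dif_pos (hlt _ j hj)]
    rw [← e3 p i j p.ix hi hj (e2 p), mul_inv_cancel_right]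
  refine continuousOn_iff_isClosed.2 fun Z hZ =>
    ⟨⋃ u, io n (ex u) '' (io n (σ ∘ ex u) ⁻¹' Z), isClosed_iUnion_of_finite fun u =>
      isClosedMap_io h n _ _ (hZ.preimage (continuous_io n _)), ?_⟩
  ext p
  refine and_congr_left fun hp => ⟨fun h3 => ?_, fun h3 => ?_⟩
  · obtain ⟨u, t, rfl⟩ := h2 p hp
    exact mem_iUnion.2 ⟨u, t, by rw [mem_preimage, ← h1]; exact h3, rfl⟩
  · obtain ⟨u, t, h4, rfl⟩ := mem_iUnion.1 h3
    rw [mem_preimage, h1]
    exact h4

end Pool.Agent.Lib.CX
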