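import Pool.Agent.Lib.CX.Blue

/-! Block CB: complete contractivity along a surjection with locally finite kernel. -/

noncomputable section

open Function BCO

namespace Pool.Agent.Lib.CX

namespace CB

variable {G : Type} [Group G] {E : Type} [NormedAddCommGroup E]

theorem sq_eq (ξ : V G E) {t : Finset G} (h : ∀ x ∉ t, ξ x = 0) :
    ‖ξ‖ ^ 2 = ∑ x ∈ t, ‖ξ x‖ ^ 2 := by
  have h1 := lp.norm_rpow_eq_tsum (p := 2) (by norm_num) ξ
  rw [tsum_eq_sum (s := t) fun x hx => by simp [h x hx]] at h1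
  simpa only [ENNReal.toReal_ofNat, Real.rpow_ofNat] using h1

theorem sum_le (ξ : V G E) (t : Finset G) : ∑ x ∈ t, ‖ξ x‖ ^ 2 ≤ ‖ξ‖ ^ 2 := by
  have h1 := lp.sum_rpow_le_norm_rpow (p := 2) (by norm_num) ξ t
  simpa only [ENNReal.toReal_ofNat, Real.rpow_ofNat] using h1

/-- a finitely supported vector -/
def ofFin (f : G → E) (t : Finset G) (h : ∀ x ∉ t, f x = 0) : V G E :=
  ⟨f, memℓp_gen (summable_of_ne_finset_zero (s := t) fun x hx => by simp [h x hx])⟩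

@[simp] theorem ofFin_apply (f : G → E) (t : Finset G) (h : ∀ x ∉ t, f x = 0) (x : G) :
    ofFin f t h x = f x := rfl

variable {G' : Type} [Group G']

theorem sum_image [DecidableEq G] (φ : G →* G') (σ : G' → G) (hσ : ∀ γ, φ (σ γ) = γ)
    (N : Finset G) (hN : ∀ n ∈ N, φ n = 1) (t : Finset G') (f : G → ℝ) (f' : G' → ℝ)
    (h : ∀ γ, ∀ n ∈ N, f (σ γ * n) = f' γ) :
    ∑ x ∈ (t ×ˢ N).image (fun p => σ p.1 * p.2), f x = N.card * ∑ γ ∈ t, f' γ := by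
  rw [Finset.sum_image, Finset.sum_product, Finset.mul_sum]
  · refine Finset.sum_congr rfl fun γ _ => ?_
    rw [Finset.sum_congr rfl (fun n hn => h γ n hn), Finset.sum_const, nsmul_eq_mul]
  · rintro ⟨a, n⟩ h1 ⟨b, m⟩ h2 h3
    simp only [Finset.coe_product, Set.mem_prod, Finset.mem_coe] at h1 h2 h3
    have h4 := congrArg φ h3
    simp only [map_mul, hσ, hN n h1.2, hN m h2.2, mul_one] at h4
    subst h4
    rw [mul_left_cancel h3]

end CB

theorem stCB : St_CB := by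
  classical
  intro G G' _ _ φ hφ E F _ _ _ _ s c
  refine norm_le_of_fin _ (norm_nonneg _) fun ξ' t ht => ?_
  obtain ⟨σ, hσ⟩ : ∃ σ : G' → G, ∀ γ, φ (σ γ) = γ := ⟨surjInv hφ.1, surjInv_eq hφ.1⟩
  let u : Finset G := (s ×ˢ t).image fun p => (σ (φ p.1 * p.2))⁻¹ * p.1 * σ p.2
  have hu : ∀ g ∈ u, φ g = 1 := by
    intro g hg
    obtain ⟨p, -, rfl⟩ := Finset.mem_image.1 hg
    simp [hσ]
  have hfin := hφ.2 u hu
  set H : Subgroup G := Subgroup.closure (u : Set G) with hH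
  have hker : H ≤ φ.ker := (Subgroup.closure_le _).2 fun g hg => hu g hg
  let N : Finset G := hfin.toFinset
  have hNH : ∀ n, n ∈ N ↔ n ∈ H := fun n => by simp [N]
  have hN : ∀ n ∈ N, φ n = 1 := fun n hn => hker ((hNH n).1 hn)
  have hpos : (0 : ℝ) < N.card := by
    exact_mod_cast Finset.card_pos.2 ⟨1, (hNH 1).2 H.one_mem⟩
  let f : G → E := fun x => if (σ (φ x))⁻¹ * x ∈ H then ξ' (φ x) else 0
  have hf : ∀ x ∉ (t ×ˢ N).image (fun p => σ p.1 * p.2), f x = 0 := by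
    intro x hx
    by_cases h1 : (σ (φ x))⁻¹ * x ∈ H
    · simp only [f, if_pos h1]
      refine ht _ fun h2 => hx (Finset.mem_image.2 ⟨(φ x, (σ (φ x))⁻¹ * x), ?_, by simp⟩)
      exact Finset.mem_product.2 ⟨h2, (hNH _).2 h1⟩
    · simp only [f, if_neg h1]
  let ξ : V G E := CB.ofFin f _ hf
  have h1 : ‖ξ‖ ^ 2 = N.card * ‖ξ'‖ ^ 2 := by
    rw [CB.sq_eq ξ hf, CB.sq_eq ξ' ht]
    refine CB.sum_image φ σ hσ N hN t _ _ fun γ n hn => ?_
    have e : φ (σ γ * n) = γ := by rw [map_mul, hσ, hN n hn, mul_one]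
    simp only [ξ, CB.ofFin_apply, f, e, inv_mul_cancel_left, if_pos ((hNH n).1 hn)]
  set T := ∑ g ∈ s, tw g (c g) with hT
  set T' := ∑ g ∈ s, tw (φ g) (c g) with hT'
  have key : ∀ γ, ∀ n ∈ N, T ξ (σ γ * n) = T' ξ' γ := by
    intro γ n hn
    rw [hT, hT', sum_apply', sum_apply']
    refine Finset.sum_congr rfl fun g hg => ?_
    rw [tw_apply, tw_apply]
    congr 1
    have e : φ (g⁻¹ * (σ γ * n)) = (φ g)⁻¹ * γ := by
      rw [map_mul, map_mul, hσ, hN n hn, mul_one, map_inv]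
    simp only [ξ, CB.ofFin_apply, f, e]
    split_ifs with h2
    · rfl
    · refine (ht _ fun h3 => h2 ?_).symm
      have h4 : (σ (φ g * ((φ g)⁻¹ * γ)))⁻¹ * g * σ ((φ g)⁻¹ * γ) ∈ H :=
        Subgroup.subset_closure (Finset.mem_coe.2 (Finset.mem_image.2
          ⟨(g, (φ g)⁻¹ * γ), Finset.mem_product.2 ⟨hg, h3⟩, rfl⟩))
      rw [mul_inv_cancel_left] at h4
      have h5 := H.mul_mem (H.inv_mem h4) ((hNH n).1 hn)
      simpa [mul_assoc] using h5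
  have hsupp : ∀ γ ∉ (s ×ˢ t).image (fun p => φ p.1 * p.2), T' ξ' γ = 0 := by
    intro γ hγ
    rw [hT', sum_apply']
    refine Finset.sum_eq_zero fun g hg => ?_
    rw [tw_apply, ht, map_zero]
    intro h3
    exact hγ (Finset.mem_image.2 ⟨(g, (φ g)⁻¹ * γ), Finset.mem_product.2 ⟨hg, h3⟩, by simp⟩)
  have h2 : N.card * ‖T' ξ'‖ ^ 2 ≤ ‖T ξ‖ ^ 2 := by
    rw [CB.sq_eq _ hsupp, ← CB.sum_image φ σ hσ N hN _ (fun x => ‖T ξ x‖ ^ 2) _
      fun γ n hn => by rw [key γ n hn]]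
    exact CB.sum_le _ _
  have h3 : ‖T ξ‖ ^ 2 ≤ ‖T‖ ^ 2 * ‖ξ‖ ^ 2 := by
    rw [← mul_pow]
    exact pow_le_pow_left₀ (norm_nonneg _) (T.le_opNorm ξ) 2
  have h4 : ‖T' ξ'‖ ^ 2 ≤ (‖T‖ * ‖ξ'‖) ^ 2 := by
    rw [mul_pow]
    refine le_of_mul_le_mul_left ?_ hpos
    rw [h1] at h3
    linarith
  exact (pow_le_pow_iff_left₀ (norm_nonneg _) (by positivity) two_ne_zero).1 h4

end Pool.Agent.Lib.CX
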