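import Pool.Agent.Lib.CX.Blue

/-! Block FAITH: the trace is faithful on projections. -/

noncomputable section

open Set Function Filter Topology BCO

namespace Pool.Agent.Lib.CX

namespace FAITH

variable {G : Type} [Group G] [DecidableEq G]

/-- evaluation of a coefficient -/
def ev (ξ : V G ℝ) (x : G) : (V G ℝ →L[ℝ] V G ℝ) →L[ℝ] ℝ :=
  (innerSL ℝ (lp.single 2 x (1 : ℝ) : V G ℝ)).comp (ContinuousLinearMap.apply ℝ (V G ℝ) ξ)

theorem ev_apply (ξ : V G ℝ) (x : G) (A : V G ℝ →L[ℝ] V G ℝ) : ev ξ x A = A ξ x := by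
  simp [ev, lp.inner_single_left]

theorem right (g x : G) {A : V G ℝ →L[ℝ] V G ℝ} (hA : A ∈ RA G ℝ) :
    A (lp.single 2 g 1) x = A (lp.single 2 1 1) (x * g⁻¹) := by
  have h := RR_map (ev (lp.single 2 g 1) x - ev (lp.single 2 1 1) (x * g⁻¹)) (⊥ : Submodule ℝ ℝ)
    (by simp) (fun h T => ?_) hA
  · rwa [Submodule.mem_bot, ContinuousLinearMap.sub_apply, ev_apply, ev_apply, sub_eq_zero] at h
  · rw [Submodule.mem_bot, ContinuousLinearMap.sub_apply, ev_apply, ev_apply, sub_eq_zero, tw_apply,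
      tw_apply, lp.single_apply, lp.single_apply, Pi.single_apply, Pi.single_apply, ← mul_assoc]
    simp only [mul_inv_eq_one]

end FAITH

theorem stFAITH : St_FAITH := by
  classical
  intro G _ p hp hpp hsa htr
  have h1 : p (lp.single 2 1 1) = 0 := by
    rw [← inner_self_eq_zero (𝕜 := ℝ), ← ContinuousLinearMap.adjoint_inner_right, hsa.adjoint_eq,
      ← ContinuousLinearMap.mul_apply, hpp, lp.inner_single_left]
    simpa [IT.tr] using htr
  have h2 : ∀ (g : G) (c : ℝ), p (lp.single 2 g c) = 0 := fun g c => by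
    have e : (lp.single 2 g c : V G ℝ) = c • lp.single 2 g 1 := by
      rw [← lp.single_smul, smul_eq_mul, mul_one]
    rw [e, map_smul]
    have : p (lp.single 2 g 1) = 0 := lp.ext (funext fun x => by rw [FAITH.right g x hp, h1]; rfl)
    rw [this, smul_zero]
  refine ContinuousLinearMap.ext fun ξ => ?_
  have h3 := p.hasSum (lp.hasSum_single (by norm_num) ξ)
  simp only [h2] at h3
  exact h3.unique hasSum_zero

end Pool.Agent.Lib.CX
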