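import Pool.Agent.Lib.CX.Blue

/-! Naturality of the graph projection. -/

noncomputable section

open Set Function Filter Topology MeasureTheory BCO

namespace Pool.Agent.Lib.CX

variable {G G' : Type} [Group G] [Group G']

open Classical in
theorem gra2_key (φ : G →* G') {M S : Type} [MeasurableSpace M] [NormedAddCommGroup S]
    [NormedSpace ℝ S] (μ : Measure M) (s : Finset G) (c : M → G) (hc : ∀ p, c p ∈ s) (g : G)
    (v : M → S) (ξ : V G (Lp S 2 μ))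
    (h : ∀ γ, ξ γ =ᵐ[μ] fun p => if c p * γ = g then v p else 0) :
    ∃ ξ' : V G' (Lp S 2 μ), VPush φ ξ ξ' ∧
      ∀ γ', ξ' γ' =ᵐ[μ] fun p => if φ (c p) * γ' = φ g then v p else 0 := by
  let T : Finset G := s.image fun a => a⁻¹ * g
  have hT : ∀ p, (c p)⁻¹ * g ∈ T := fun p => Finset.mem_image_of_mem _ (hc p)
  have e1 : ∀ γ', (∑ γ ∈ T, lp.single 2 (φ γ) (ξ γ) : V G' (Lp S 2 μ)) γ' =
      ∑ γ ∈ T with φ γ = γ', ξ γ := by
    intro γ'
    rw [lp.coeFn_sum, Finset.sum_apply, Finset.sum_filter]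
    refine Finset.sum_congr rfl fun γ _ => ?_
    rw [lp.single_apply, Pi.single_apply]
    simp only [eq_comm]
  refine ⟨∑ γ ∈ T, lp.single 2 (φ γ) (ξ γ), ⟨T, fun γ hγ => ?_, e1⟩, fun γ' => ?_⟩
  · refine Lp.ext ((h γ).trans (EventuallyEq.trans ?_ (Lp.coeFn_zero _ _ _).symm))
    refine Eventually.of_forall fun p => if_neg fun e => hγ ?_
    rw [eq_inv_mul_of_mul_eq e]
    exact hT p
  · rw [e1]
    have a1 := Lp.coeFn_finsetSum (T.filter fun γ => φ γ = γ') fun γ => ξ γ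
    have a2 : ∀ᵐ p ∂μ, ∀ γ ∈ (T : Set G), ξ γ p = if c p * γ = g then v p else 0 :=
      (ae_ball_iff T.countable_toSet).2 fun γ _ => h γ
    filter_upwards [a1, a2] with p h1 h2
    rw [h1, Finset.sum_apply, Finset.sum_congr rfl fun γ hγ => h2 γ (Finset.mem_filter.1 hγ).1]
    simp only [← eq_inv_mul_iff_mul_eq]
    rw [Finset.sum_ite_eq']
    simp only [Finset.mem_filter, hT p, true_and, map_mul, map_inv, eq_comm]

theorem stGRA2 (hBG1 : St_BG1) (hFIN : St_FIN) : St_GRA := by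
  classical
  intro G G' _ _ φ hφ hP m N x S μ e he hG a i g' ψ h1 h2 h3 P
  obtain ⟨-, -, -, -, -, b6, b7⟩ := hBG1 G G'
  have hf : ∀ p : (x.re φ).X.M, (x.re φ).f p = BG.mp φ (x.f p) :=
    congrFun (x.re_f ((b7 φ).1.comp x.cont))
  obtain ⟨g, rfl⟩ := hφ g'
  obtain ⟨n, s, hs⟩ := hFIN G m x
  have h3' : tsupport ψ ⊆ x.X.U a ∩ {p | (x.f p).t i ≠ 0} := fun p hp => by
    have := h3 hp
    refine ⟨this.1, ?_⟩
    have h4 : ((x.re φ).f p).t i ≠ 0 := this.2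
    rwa [hf, (b6 φ _).1] at h4
  obtain ⟨ξ, η, a1, a2⟩ := hG a i g ψ h1 h2 h3'
  have key : ∀ (w : x.X.M → Eu N) γ', (x.re φ).sec S a i (φ g) w γ' = fun p =>
      if φ ((x.f p).co i (x.f p).ix) * γ' = φ g then S.c (x.X.s (x.X.fr p) a p) (w p) else 0 := by
    intro w γ'
    funext p
    have h4 : ((x.re φ).f p).co i ((x.re φ).f p).ix = φ ((x.f p).co i (x.f p).ix) := by
      rw [hf, (b6 φ _).2.1, (b7 φ).2]
    unfold Sing.sec
    rw [h4]
    rfl
  obtain ⟨ξ', c1, c2⟩ := gra2_key φ μ s _ (fun p => (hs p).2 i (x.f p).ix) g _ ξ fun γ => (a2 γ).1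
  obtain ⟨η', d1, d2⟩ := gra2_key φ μ s _ (fun p => (hs p).2 i (x.f p).ix) g _ η fun γ => (a2 γ).2
  refine ⟨ξ', η', hP.vec he c1 (a1 ▸ d1), fun γ' => ⟨?_, ?_⟩⟩
  · exact (c2 γ').trans (EventuallyEq.of_eq (key _ γ').symm)
  · exact (d2 γ').trans (EventuallyEq.of_eq (key _ γ').symm)

end Pool.Agent.Lib.CX
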