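import Pool.Agent.Lib.CX.Blue

/-! Block IND: the index of a pair is natural. -/

noncomputable section

open Set Function BCO

namespace Pool.Agent.Lib.CX

namespace Ind

variable {G G' : Type} [Group G] [Group G'] {φ : G →* G'}
  {E F : Type} [NormedAddCommGroup E] [NormedSpace ℝ E] [NormedAddCommGroup F] [NormedSpace ℝ F]

theorem push_amp (h : PushOK φ) [CompleteSpace F] (T : E →L[ℝ] F) :
    push φ (amp G T) = amp G' T := by
  rw [← tw_one, h.tw, map_one, tw_one]

theorem push_zero (h : PushOK φ) [CompleteSpace F] : push φ (0 : V G E →L[ℝ] V G F) = 0 := by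
  have := h.smul (0 : ℝ) (T := (0 : V G E →L[ℝ] V G F)) (zero_mem _)
  simpa using this

theorem push_sum (h : PushOK φ) [CompleteSpace F] {ι : Type} (s : Finset ι)
    (A : ι → V G E →L[ℝ] V G F) (hA : ∀ i, A i ∈ RR G E F) :
    push φ (∑ i ∈ s, A i) = ∑ i ∈ s, push φ (A i) := by
  classical
  induction s using Finset.induction_on with
  | empty => simpa using push_zero h
  | insert i s hi ih =>
    rw [Finset.sum_insert hi, Finset.sum_insert hi, h.add (hA i) (sum_mem fun j _ => hA j), ih]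

theorem push_sub (h : PushOK φ) [CompleteSpace F] {S T : V G E →L[ℝ] V G F} (hS : S ∈ RR G E F)
    (hT : T ∈ RR G E F) : push φ (S - T) = push φ S - push φ T := by
  have := h.add (sub_mem hS hT) hT
  rw [sub_add_cancel] at this
  rw [this, add_sub_cancel_right]

theorem blk_mem {r : ℕ} {a : V G E →L[ℝ] V G E} (ha : a ∈ RR G E E)
    (q : Matrix (Fin r) (Fin r) (Cr G)) :
    blk a q ∈ RR G (E × (Fin r → ℝ)) (E × (Fin r → ℝ)) :=
  add_mem (comp_mem (amp_mem _) (comp_mem ha (amp_mem _))) (sum_mem fun i _ => sum_mem fun j _ =>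
    comp_mem (amp_mem _) (comp_mem (q i j).2 (amp_mem _)))

theorem push_blk (h : PushOK φ) [CompleteSpace E] {r : ℕ} {a : V G E →L[ℝ] V G E}
    (ha : a ∈ RR G E E) (q : Matrix (Fin r) (Fin r) (Cr G)) :
    push φ (blk a q) = blk (push φ a) (q.map h.hom) := by
  have hq : ∀ i j, (q i j).1 ∈ RR G ℝ ℝ := fun i j => (q i j).2
  unfold blk
  rw [h.add (comp_mem (amp_mem _) (comp_mem ha (amp_mem _))) (sum_mem fun i _ => sum_mem fun j _ =>
    comp_mem (amp_mem _) (comp_mem (hq i j) (amp_mem _))),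
    h.comp (amp_mem _) (comp_mem ha (amp_mem _)), h.comp ha (amp_mem _), push_amp h, push_amp h,
    push_sum h _ _ fun i => sum_mem fun j _ =>
      comp_mem (amp_mem _) (comp_mem (hq i j) (amp_mem _))]
  congr 1
  refine Finset.sum_congr rfl fun i _ => ?_
  rw [push_sum h _ _ fun j => comp_mem (amp_mem _) (comp_mem (hq i j) (amp_mem _))]
  refine Finset.sum_congr rfl fun j _ => ?_
  rw [h.comp (amp_mem _) (comp_mem (hq i j) (amp_mem _)), h.comp (hq i j) (amp_mem _),
    push_amp h, push_amp h]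
  rfl

theorem push_mul (h : PushOK φ) [CompleteSpace E] {S T : V G E →L[ℝ] V G E} (hS : S ∈ RR G E E)
    (hT : T ∈ RR G E E) : push φ (S * T) = push φ S * push φ T := h.comp hS hT

end Ind

open Ind in
theorem stIND : St_IND := by
  intro G G' _ _ φ h E _ _ _ e P z he hz
  obtain ⟨r, p, q, hp, hq, x, hx, y, hy, hxy, hyx, hk, rfl⟩ := hz
  rw [mem_RA] at he hx hy
  have hP : amp G P ∈ RR G E E := amp_mem P
  have hPe : amp G P * e ∈ RR G E E := comp_mem hP he
  refine ⟨r, p.map h.hom, q.map h.hom, BCH.idem_map hp _, BCH.idem_map hq _, push φ x,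
    (h.mem hx).1, push φ y, (h.mem hy).1, ?_, ?_, ?_, ?_⟩
  · rw [← push_mul h hx hy, hxy, push_blk h hP, push_amp h]
  · rw [← push_mul h hy hx, hyx, push_blk h he]
  · have := h.kk hk
    rwa [push_sub h hx (blk_mem hPe _), push_blk h hPe, push_mul h hP he, push_amp h,
      Matrix.map_zero _ (map_zero _)] at this
  · rw [map_sub, BCH.map_cls _ hp, BCH.map_cls _ hq]

end Pool.Agent.Lib.CX
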