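import Pool.Agent.Lib.CX.Blue
import Pool.Agent.Lib.IT.CFG

/-! Block KER: compactness of the configuration group. -/

open Set Filter

namespace Pool.Agent.Lib.CX

open IT

theorem KER.fin {C W Γ : Type} [AddCommGroup W] {X : AddSubgroup (Γ → C × Bool → W)}
    {v : X →+ ZMod 2} (hv : v ∈ Vg X) :
    ∃ s : Finset Γ, ∀ ω ω' : X, (∀ g ∈ s, ω.1 g = ω'.1 g) → v ω = v ω' := by
  classical
  induction hv using AddSubgroup.closure_induction with
  | mem v hv =>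
    obtain ⟨g, p, φ, rfl⟩ := hv
    exact ⟨{g}, fun ω ω' h => congrArg (fun z => φ (z p)) (h g (Finset.mem_singleton_self g))⟩
  | zero => exact ⟨∅, fun _ _ _ => rfl⟩
  | add u v _ _ hu hv =>
    obtain ⟨s, hs⟩ := hu
    obtain ⟨t, ht⟩ := hv
    exact ⟨s ∪ t, fun ω ω' h => by
      rw [AddMonoidHom.add_apply, AddMonoidHom.add_apply,
        hs ω ω' fun g hg => h g (Finset.mem_union_left _ hg),
        ht ω ω' fun g hg => h g (Finset.mem_union_right _ hg)]⟩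
  | neg u _ hu =>
    obtain ⟨s, hs⟩ := hu
    exact ⟨s, fun ω ω' h => by rw [AddMonoidHom.neg_apply, AddMonoidHom.neg_apply, hs ω ω' h]⟩

theorem stKER : St_KER := by
  classical
  intro C W _ _ _ D Γ _ gen
  have h1 : ∀ I I', I' ⊆ I → Xg D gen I' ≤ Xg D gen I := fun I I' h ω hω =>
    ⟨hω.1, fun n ι hι => by
      refine (sup_le_sup_left ?_ _ : adm D I' n ≤ adm D I n) (hω.2 n ι hι)
      by_cases hn : n ∈ I'
      · rw [if_pos hn, if_pos (h hn)]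
      · rw [if_neg hn]; exact bot_le⟩
  refine ⟨h1, fun v hv => ?_⟩
  by_contra hc
  rw [not_eventually] at hc
  obtain ⟨s, hs⟩ := KER.fin v.2
  have h2 := frequently_iff_neBot.1 hc
  let 𝒰 := Ultrafilter.of (atTop ⊓ 𝓟 {n : ℕ | ¬∀ ω : Xg D gen univ,
    ω.1 ∈ Xg D gen (Ici n) → v.1 ω = 0})
  have h3 := le_inf_iff.1 (Ultrafilter.of_le (atTop ⊓ 𝓟 {n : ℕ | ¬∀ ω : Xg D gen univ,
    ω.1 ∈ Xg D gen (Ici n) → v.1 ω = 0}))
  have h4 : ∀ n : ℕ, ∃ ω : Xg D gen univ, (¬∀ ω : Xg D gen univ,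
      ω.1 ∈ Xg D gen (Ici n) → v.1 ω = 0) → ω.1 ∈ Xg D gen (Ici n) ∧ v.1 ω ≠ 0 := fun n => by
    by_cases h : ∀ ω : Xg D gen univ, ω.1 ∈ Xg D gen (Ici n) → v.1 ω = 0
    · exact ⟨0, fun h' => (h' h).elim⟩
    · push Not at h
      obtain ⟨ω, hω⟩ := h
      exact ⟨ω, fun _ => hω⟩
  choose ω hω using h4
  have h5 : ∀ᶠ n in 𝒰, (ω n).1 ∈ Xg D gen (Ici n) ∧ v.1 (ω n) ≠ 0 :=
    mem_of_superset (le_principal_iff.1 h3.2) hω
  have h6 : ∀ g, ∃ z, ∀ᶠ n in 𝒰, (ω n).1 g = z := fun g =>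
    Ultrafilter.eventually_exists_iff.1 (Eventually.of_forall fun n => ⟨_, rfl⟩)
  choose z hz using h6
  have h7 : ∀ m, z ∈ Xg D gen (Ici m) := fun m => (stCFG C W D Γ gen _).closed z fun t => by
    obtain ⟨n, h8, h9, h10⟩ := (h5.and (((eventually_ge_atTop m).filter_mono h3.1).and
      ((eventually_all_finset t).2 fun g _ => hz g))).exists
    exact ⟨_, h1 _ _ (Ici_subset_Ici.2 h9) h8.1, h10⟩
  have h8 : z ∈ Xg D gen ∅ := ⟨(h7 0).1, fun n ι hι => by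
    have := (h7 (n + 1)).2 n ι hι
    simpa [adm] using this⟩
  obtain ⟨n, h9, h10⟩ := (h5.and ((eventually_all_finset s).2 fun g _ => hz g)).exists
  exact h9.2 ((hs (ω n) ⟨z, h1 _ _ (empty_subset _) h8⟩ h10).trans (hv _ h8))

end Pool.Agent.Lib.CX
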