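import Pool.Agent.Lib.CX.Blue

/-! Block KTR: the trace on `K0`. -/

noncomputable section

open Set Function BCO

namespace Pool.Agent.Lib.CX

namespace KTR2

variable {G : Type} [Group G]

open scoped Classical in
/-- the trace as a continuous linear map -/
def trL : (V G ℝ →L[ℝ] V G ℝ) →L[ℝ] ℝ :=
  (lp.evalCLM ℝ (fun _ : G => ℝ) 2 1).comp
    (ContinuousLinearMap.apply ℝ (V G ℝ) (lp.single 2 (1 : G) (1 : ℝ)))

theorem trL_apply (T : V G ℝ →L[ℝ] V G ℝ) : trL T = IT.tr T := rfl

theorem tr_comm {a b : V G ℝ →L[ℝ] V G ℝ} (ha : a ∈ RA G ℝ) (hb : b ∈ RA G ℝ) :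
    trL (a * b) = trL (b * a) := by
  classical
  have h1 : ∀ g T, ∀ b ∈ RA G ℝ, trL (tw g T * b) = trL (b * tw g T) := fun g T b hb =>
    sub_eq_zero.1 (RR_map (trL.comp (ContinuousLinearMap.mul ℝ _ (tw g T) -
      (ContinuousLinearMap.mul ℝ _).flip (tw g T))) ⊥ isClosed_singleton (fun h S => by
        have e : ∀ U : ℝ →L[ℝ] ℝ, ∀ x, U x = U 1 * x := fun U x => by
          rw [mul_comm, ← smul_eq_mul, ← map_smul, smul_eq_mul, mul_one]
        change trL (tw g T * tw h S - tw h S * tw g T) = 0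
        rw [map_sub, tw_mul, tw_mul, sub_eq_zero]
        simp only [trL_apply, IT.tr, tw_apply, mul_one, lp.single_apply, Pi.single_apply,
          inv_eq_one, mul_eq_one_comm (a := g), mul_apply_eq_comp]
        rw [e T, e S, e S (T _), e T (ite _ _ _)]
        ring) hb |>.symm ▸ (map_sub trL _ _).symm)
  exact sub_eq_zero.1 (RR_map (trL.comp ((ContinuousLinearMap.mul ℝ _).flip b -
    ContinuousLinearMap.mul ℝ _ b)) ⊥ isClosed_singleton (fun g T => by
      change trL (tw g T * b - b * tw g T) = 0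
      rw [map_sub, h1 g T b hb, sub_self]) ha |>.symm ▸ (map_sub trL _ _).symm)

end KTR2

open KTR2 in
theorem stKTR2 : St_KTR := by
  intro G _
  refine ⟨BCH.K0.lift (fun k e => ∑ i, trL (e.1 i i).1) ?_ ?_, fun k p hp => ?_⟩
  · intro k l e f x y h h'
    rw [← h, ← h']
    simp only [Matrix.mul_apply, AddSubmonoidClass.coe_finsetSum, map_sum, Subalgebra.coe_mul]
    rw [Finset.sum_comm]
    exact Finset.sum_congr rfl fun i _ => Finset.sum_congr rfl fun j _ => tr_comm (x j i).2 (y i j).2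
  · intro k l e f g h
    rw [h, Fin.sum_univ_add]
    simp [BCH.bsum]
  · rw [BCH.cls_eq_mk ⟨p, hp⟩]
    exact FreeAbelianGroup.lift_apply_of _ _

end Pool.Agent.Lib.CX
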