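import Pool.Agent.Lib.CX.Blue

/-! The Stolz group commutes with the colimit. -/

noncomputable section

open Set Function Filter Topology

namespace Pool.Agent.Lib.CX

namespace LIFT

variable {G : Type} [Group G] {Q : ℕ → Type} [∀ n, Group (Q n)] {Q' : Type} [Group Q']

theorem ev_eq {φ : ∀ n, G →* Q n} {ψ : G →* Q'} (hk : ∀ g, ψ g = 1 → ∀ᶠ n in atTop, φ n g = 1)
    {g g' : G} (h : ψ g = ψ g') : ∀ᶠ n in atTop, φ n g = φ n g' :=
  (hk (g * g'⁻¹) (by rw [map_mul, map_inv, h, mul_inv_cancel])).mono fun n hn => by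
    rwa [map_mul, map_inv, mul_inv_eq_one] at hn

theorem ev_cont (h3 : St_BG3) (hF : St_FIN) {σ : ∀ n, Q' → Q n}
    (hσ : ∀ a b, ∀ᶠ n in atTop, σ n (a * b⁻¹) = σ n a * (σ n b)⁻¹) {m : ℕ} (u : Sing Q' m) :
    ∀ᶠ n in atTop, (u.re (σ n)).f = BG.mp (σ n) ∘ u.f := by
  obtain ⟨N, s, hs⟩ := hF Q' m u
  filter_upwards [(eventually_all_finset s).2 fun a _ => (eventually_all_finset s).2 fun b _ =>
    hσ a b] with n hn
  exact u.re_f ((h3 Q' (Q n) N s (σ n) hn).comp_continuous u.cont hs)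

theorem ev_rel (h3 : St_BG3) (hF : St_FIN) {σ : ∀ n, Q' → Q n}
    (hσ : ∀ a b, ∀ᶠ n in atTop, σ n (a * b⁻¹) = σ n a * (σ n b)⁻¹) (B : SM 8) {x y : Cyc Q'}
    (h : (Quot.mk _ x : RB Q' B) = Quot.mk _ y) :
    ∀ᶠ n in atTop, (Quot.mk _ (x.re (σ n)) : RB (Q n) B) = Quot.mk _ (y.re (σ n)) := by
  have h' := Quot.eqvGen_exact h
  clear h
  induction h' with
  | refl => exact Eventually.of_forall fun _ => rfl
  | symm _ _ _ ih => exact ih.mono fun _ h => h.symm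
  | trans _ _ _ _ _ ih ih' => exact (ih.and ih').mono fun _ h => h.1.trans h.2
  | rel x y h =>
    rcases h with ⟨k, a, b, rfl, rfl, w, α, β, h1, h2, h4, h5, h6, h7⟩ | ⟨h1, χ, h2, h4, h5⟩
    · filter_upwards [ev_cont h3 hF hσ a.1, ev_cont h3 hF hσ b.1, ev_cont h3 hF hσ w] with
        n e1 e2 e3
      refine Quot.sound (Or.inl ⟨k, _, _, rfl, rfl, w.re (σ n), α, β, h1, h2, h4, h5,
        fun p hp => ?_, fun p hp => ?_⟩)
      · rw [e1, e3]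
        exact congrArg (BG.mp (σ n)) (h6 p hp)
      · rw [e2, e3]
        exact congrArg (BG.mp (σ n)) (h7 p hp)
    · filter_upwards [ev_cont h3 hF hσ x.2.1, ev_cont h3 hF hσ y.2.1] with n e1 e2
      refine Quot.sound (Or.inr ⟨h1, χ, h2, h4, fun z => ⟨(h5 z).1, ?_⟩⟩)
      exact (congrFun e2 _).trans ((congrArg (BG.mp (σ n)) (h5 z).2).trans (congrFun e1 _).symm)

theorem re_ext {G' G'' : Type} [Group G'] [Group G''] {m : ℕ} (u : Sing G m) (ψ : G → G')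
    (σ : G' → G'') (φ : G → G'') (h : ((u.re ψ).re σ).f = (u.re φ).f) :
    (u.re ψ).re σ = u.re φ := by
  unfold Sing.re at h ⊢
  congr 1

theorem ev_re (h1 : St_BG1) (h3 : St_BG3) (hF : St_FIN) {φ : ∀ n, G →* Q n} {ψ : G →* Q'}
    {σ : ∀ n, Q' → Q n} (hσ : ∀ a b, ∀ᶠ n in atTop, σ n (a * b⁻¹) = σ n a * (σ n b)⁻¹)
    (hσ' : ∀ g, ∀ᶠ n in atTop, σ n (ψ g) = φ n g) (x : Cyc G) :
    ∀ᶠ n in atTop, (x.re ψ).re (σ n) = x.re (φ n) := by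
  obtain ⟨N, s, hs⟩ := hF G _ x.2.1
  obtain ⟨-, a2, a3, -, -, a6, a7⟩ := h1 G Q'
  filter_upwards [ev_cont h3 hF hσ (x.2.1.re ψ), (eventually_all_finset s).2 fun g _ => hσ' g] with
    n e1 e2
  obtain ⟨-, -, -, -, -, b6, b7⟩ := h1 G (Q n)
  obtain ⟨-, -, -, -, -, c6, -⟩ := h1 Q' (Q n)
  obtain ⟨d1, -, -, d4, -⟩ := h1 (Q n) (Q n)
  have e3 : (x.2.1.re ψ).re (σ n) = x.2.1.re (φ n) := by
    refine re_ext _ _ _ _ ?_
    rw [e1, x.2.1.re_f ((a7 ψ).1.comp x.2.1.cont), x.2.1.re_f ((b7 (φ n)).1.comp x.2.1.cont)]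
    funext p
    have e4 := (hs p).2
    change BG.mp (σ n) (BG.mp ψ (x.2.1.f p)) = BG.mp (φ n) (x.2.1.f p)
    generalize x.2.1.f p = q at e4
    have t1 : (BG.mp (σ n) (BG.mp ψ q)).t = q.t := (c6 _ _).1.trans (a6 _ _).1
    have t2 : (BG.mp (φ n) q).t = q.t := (b6 _ _).1
    refine d1 _ _ (t1.trans t2.symm) fun i j => ?_
    by_cases h : q.t i = 0 ∨ q.t j = 0
    · rw [d4 _ i j (t1 ▸ h), d4 _ i j (t2 ▸ h)]
    · obtain ⟨hi, hj⟩ := not_or.1 h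
      rw [(c6 _ _).2.2 i j ((a6 ψ q).1 ▸ hi) ((a6 ψ q).1 ▸ hj), (a7 ψ).2, (a7 ψ).2, e2 _ (e4 _ _),
        e2 _ (e4 _ _), (b7 _).2, (a6 ψ q).2.1, ← a3 q i j q.ix hi hj (a2 q), map_mul,
        mul_inv_cancel_right]
  exact congrArg (Sigma.mk x.1) (Subtype.ext e3)

end LIFT

open LIFT in
theorem stLIFT (hBG1 : St_BG1) (hBG3 : St_BG3) (hFIN : St_FIN) : St_LIFT := by
  intro G _ Q _ Q' _ φ ψ hψ hk B x y h
  have h1 : ∀ a b, ∀ᶠ n in atTop, φ n (surjInv hψ (a * b⁻¹)) =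
      φ n (surjInv hψ a) * (φ n (surjInv hψ b))⁻¹ := fun a b => by
    simp only [← map_inv, ← map_mul]
    exact ev_eq hk (by simp [surjInv_eq hψ])
  have h2 : ∀ g, ∀ᶠ n in atTop, φ n (surjInv hψ (ψ g)) = φ n g := fun g =>
    ev_eq hk (surjInv_eq hψ _)
  obtain ⟨n, e1, e2, e3⟩ := ((ev_rel hBG3 hFIN (σ := fun n a => φ n (surjInv hψ a)) h1 B h).and
    ((ev_re hBG1 hBG3 hFIN (σ := fun n a => φ n (surjInv hψ a)) h1 h2 x).and
      (ev_re hBG1 hBG3 hFIN (σ := fun n a => φ n (surjInv hψ a)) h1 h2 y))).exists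
  exact ⟨n, by rw [← e2, ← e3]; exact e1⟩

end Pool.Agent.Lib.CX
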