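import Pool.Agent.Lib.CX.Blue
import Pool.Agent.Lib.IT.LIM

/-! LIM2: the limit of the powers, with convergence in operator norm. -/

namespace Pool.Agent.Lib.CX

open Filter Topology IT IT.LIM

theorem stLIM2 : St_LIM2 := by
  intro G _ a ρ h0 h1 hs hb
  have hr : Tendsto (fun m : ℕ => 2 * √ρ ^ m) atTop (𝓝 0) := by
    have := (tendsto_pow_atTop_nhds_zero_of_lt_one (Real.sqrt_nonneg ρ)
      ((Real.sqrt_lt' one_pos).mpr (by simpa using h1))).const_mul 2
    simpa using this
  have hc : CauchySeq fun m : ℕ => Lam (a ^ m) := by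
    refine cauchySeq_of_le_tendsto_0' _ (fun m m' hm => ?_) hr
    rw [dist_eq_norm, ← map_sub]
    refine norm_Lam_le _ _ (by positivity) fun ξ => ?_
    rw [sub_mul, mul_pow, ← pow_mul, mul_comm m 2, pow_mul, Real.sq_sqrt h0]
    convert hb ξ m m' hm using 2
    norm_num
  obtain ⟨p, hp⟩ := cauchySeq_tendsto_of_complete hc
  refine ⟨p, mem_closure_of_tendsto hp (Eventually.of_forall fun m => Lam_mem _), ?_, ?_, ?_, ?_⟩
  · have h2 : Tendsto (fun m : ℕ => Lam (a ^ (m + m))) atTop (𝓝 p) :=
      hp.comp (tendsto_atTop_mono (fun m => Nat.le_add_right m m) tendsto_id)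
    refine tendsto_nhds_unique (hp.mul hp) ?_
    simpa only [pow_add, map_mul] using h2
  · have h2 : Tendsto (fun m : ℕ => star (Lam (a ^ m))) atTop (𝓝 (star p)) := hp.star
    refine tendsto_nhds_unique h2 ?_
    have h3 : ∀ m : ℕ, star (Lam (a ^ m)) = Lam (a ^ m) := fun m => by
      rw [map_pow]
      exact ((Lam_sa a hs).pow m).star_eq
    simpa only [h3] using hp
  · have h2 := (continuous_tr.tendsto p).comp hp
    simpa only [Function.comp_def, tr_Lam] using h2
  · intro T hT
    have h1 : ∀ g : G, T (MonoidAlgebra.single g 1) = lam g := fun g => by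
      ext ξ x
      exact hT g ξ x
    have h2 : ∀ b : MonoidAlgebra ℝ G, T b = Lam b := fun b => by
      induction b using MonoidAlgebra.induction_linear with
      | zero => rw [map_zero, map_zero]
      | add a b ha hb => rw [map_add, map_add, ha, hb]
      | single g r =>
        rw [Lam_single, ← h1, ← map_smul, MonoidAlgebra.smul_single, smul_eq_mul, mul_one]
    simpa only [h2] using hp

end Pool.Agent.Lib.CX
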