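import Pool.Agent.Lib.CX.Blue
import Pool.Agent.Lib.IT.PRO

/-! Block PRI: the projection of the group attached to a set `I` of types. -/

noncomputable section

open Set Function Filter Topology MeasureTheory BCO

namespace Pool.Agent.Lib.CX

open IT

theorem stPRI (hSEQ : St_SEQ) (hBIR : St_BIR) (hCFG : St_CFG) (hEXP : St_EXP) (hEXT : St_EXT)
    (hCHE : St_CHE) (hHAAR : St_HAAR) (hALG : St_ALG) (hPAR : St_PAR) (hMEA : St_MEA)
    (hLIM : St_LIM2) (hF : St_FAITH) : St_PRI := by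
  classical
  obtain ⟨C, iC, hC⟩ : ∃ (C : Type) (_ : Fintype C), Fintype.card C = 200 :=
    ⟨Fin 200, inferInstance, Fintype.card_fin _⟩
  obtain ⟨W, iW, gW, h2, hW⟩ : ∃ (W : Type) (_ : Fintype W) (_ : AddCommGroup W),
      (∀ w : W, w + w = 0) ∧ 2 * 800 ^ 200 < Fintype.card W := by
    have hx : ∀ x : ℕ, ∃ b : ℕ, x < 2 ^ b := fun x => ⟨x, Nat.lt_two_pow_self⟩
    obtain ⟨b, hb⟩ := hx (2 * 800 ^ 200)
    refine ⟨Fin b → ZMod 2, inferInstance, inferInstance, fun w => ?_, ?_⟩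
    · ext i; exact CharTwo.add_self_eq_zero _
    · simpa [Fintype.card_fun, ZMod.card] using hb
  obtain ⟨Q, hQ0, -, hQ⟩ := hMEA C W
  obtain ⟨D, -⟩ := hSEQ C W hC h2 hW fun _ _ => 0
  obtain ⟨Γ, iΓ, gen, -, hB⟩ := hBIR C W D (by omega)
  refine ⟨C, W, iC, iW, gW, D, Γ, iΓ, gen, fun I => ?_⟩
  have h := hCFG C W D Γ gen I
  obtain ⟨m, μ, hμ⟩ := hHAAR C W Γ gen _ h
  obtain ⟨ρ, h0, h1, hρ⟩ := hCHE C (by omega)
  obtain ⟨B0⟩ := hB 0
  have hE := hEXP C W D Γ gen _ h 0 B0 hC h2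
  obtain ⟨hint, r, hsum, hr⟩ := hQ Γ gen _ h m μ hμ
  obtain ⟨p, -, hpp, hsa, htr, hT⟩ := stPRO2 hALG hPAR hLIM C W Γ gen _ h m μ ρ h2 hμ h0 h1
    (fun ω => hρ _ _ (hE ω).1) hint
  have hlim := hT (piA (1 : Gg h →* ℝ →L[ℝ] ℝ)) fun g ξ x => by
    rw [piA_single, one_smul]; rfl
  refine ⟨h, p, hpp, hlim, ?_, ?_⟩
  · rintro ⟨n, hn⟩
    obtain ⟨Bn⟩ := hB n
    obtain ⟨ω, hω⟩ := hEXT C W D Γ gen _ h n Bn (by omega) hn
    have hpos := D.pos n
    have hr0 : ∀ N : ℕ, 0 ≤ r N / N := by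
      intro N
      rcases Nat.eq_zero_or_pos N with rfl | hN
      · simp
      · obtain ⟨j, hj⟩ := (hr N hN).2.1
        have hq : (0 : ℝ) < Q N := by exact_mod_cast hQ0 N
        have : 0 ≤ r N := (mul_nonneg_iff_of_pos_left hq).1 (hj ▸ Nat.cast_nonneg j)
        positivity
    have hne : r (D.N n) ≠ 0 := (hr _ hpos).2.2.2 ⟨ω, hω⟩
    have hlt : 0 < r (D.N n) / (D.N n : ℝ) :=
      lt_of_le_of_ne (hr0 _) (div_ne_zero hne (by exact_mod_cast hpos.ne')).symm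
    rw [htr]
    exact (lt_of_lt_of_le hlt (le_hasSum hsum _ fun N _ => hr0 N)).ne'
  · rintro rfl
    refine hF (Gg h) p (isClosed_RA.mem_of_tendsto hlim (Eventually.of_forall fun k => piA_mem _ _))
      hpp hsa ?_
    rw [htr]
    have : ∀ ω, (1 / ((orb (sig h ω) 1).ncard : ℝ)) = 0 := by
      intro ω
      by_cases hf : (orb (sig h ω) 1).Finite
      · obtain ⟨n, hn, -⟩ := (hE ω).2 1 hf
        exact absurd hn (notMem_empty n)
      · rw [Set.Infinite.ncard hf]; simp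
    simp only [this, integral_zero]

end Pool.Agent.Lib.CX
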