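import Pool.Agent.Lib.CX.Blue

/-! Block PUSH: the push forward of operators along a quotient with locally finite kernel. -/

noncomputable section

open Set Function Filter Topology BCO

namespace Pool.Agent.Lib.CX

namespace PUSH

variable {G G' : Type} [Group G] [Group G'] {φ : G →* G'} {E F H : Type} [NormedAddCommGroup E]
  [NormedSpace ℝ E] [NormedAddCommGroup F] [NormedSpace ℝ F] [NormedAddCommGroup H]
  [NormedSpace ℝ H]

variable (φ E F) in
/-- the span of the pairs of twisted translations -/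
def Gr0 : Submodule ℝ ((V G E →L[ℝ] V G F) × (V G' E →L[ℝ] V G' F)) :=
  Submodule.span ℝ {x | ∃ g c, x = (tw g c, tw (φ g) c)}

variable (φ E F) in
/-- the graph of the push forward -/
def Gr : Submodule ℝ ((V G E →L[ℝ] V G F) × (V G' E →L[ℝ] V G' F)) :=
  (Gr0 φ E F).topologicalClosure

theorem isClosed_Gr : IsClosed (Gr φ E F : Set ((V G E →L[ℝ] V G F) × (V G' E →L[ℝ] V G' F))) :=
  Submodule.isClosed_topologicalClosure _

theorem tw_mem_Gr (g : G) (c : E →L[ℝ] F) : (tw g c, tw (φ g) c) ∈ Gr φ E F :=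
  Submodule.le_topologicalClosure _ (Submodule.subset_span ⟨g, c, rfl⟩)

theorem mem_Gr0 {x : (V G E →L[ℝ] V G F) × (V G' E →L[ℝ] V G' F)} : x ∈ Gr0 φ E F ↔
    ∃ (s : Finset G) (c : G → E →L[ℝ] F), x = (∑ g ∈ s, tw g (c g), ∑ g ∈ s, tw (φ g) (c g)) := by
  constructor
  · intro hx
    let L : (G →₀ (E →L[ℝ] F)) →ₗ[ℝ] (V G E →L[ℝ] V G F) × (V G' E →L[ℝ] V G' F) :=
      Finsupp.lsum ℝ fun g => (twL g).toLinearMap.prod (twL (φ g)).toLinearMap
    have h : Gr0 φ E F ≤ LinearMap.range L := Submodule.span_le.2 (by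
      rintro _ ⟨g, c, rfl⟩
      exact ⟨Finsupp.single g c, by simp only [L, Finsupp.lsum_single]; rfl⟩)
    obtain ⟨c, rfl⟩ := h hx
    refine ⟨c.support, c, ?_⟩
    simp only [L, Finsupp.lsum_apply, Finsupp.sum, ← prod_mk_sum]
    rfl
  · rintro ⟨s, c, rfl⟩
    rw [prod_mk_sum]
    exact sum_mem fun g _ => Submodule.subset_span ⟨g, c g, rfl⟩

theorem isPush_iff {T : V G E →L[ℝ] V G F} {T' : V G' E →L[ℝ] V G' F} :
    IsPush φ T T' ↔ (T, T') ∈ Gr φ E F := by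
  refine Iff.trans ?_ Metric.mem_closure_iff.symm
  constructor
  · intro h ε hε
    obtain ⟨s, c, h1, h2⟩ := h (ε / 2) (half_pos hε)
    refine ⟨_, mem_Gr0.2 ⟨s, c, rfl⟩, ?_⟩
    rw [Prod.dist_eq, dist_eq_norm, dist_eq_norm]
    exact (max_le h1 h2).trans_lt (half_lt_self hε)
  · intro h ε hε
    obtain ⟨x, h1, h2⟩ := h ε hε
    obtain ⟨s, c, rfl⟩ := mem_Gr0.1 h1
    rw [Prod.dist_eq, dist_eq_norm, dist_eq_norm, max_lt_iff] at h2
    exact ⟨s, c, h2.1.le, h2.2.le⟩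

theorem Gr_map {W : Type*} [AddCommGroup W] [Module ℝ W] [TopologicalSpace W]
    (f : ((V G E →L[ℝ] V G F) × (V G' E →L[ℝ] V G' F)) →L[ℝ] W) (S : Submodule ℝ W)
    (hS : IsClosed (S : Set W)) (h : ∀ g c, f (tw g c, tw (φ g) c) ∈ S) {x} (hx : x ∈ Gr φ E F) :
    f x ∈ S := by
  have : Gr φ E F ≤ S.comap f.toLinearMap :=
    Submodule.topologicalClosure_minimal _
      (Submodule.span_le.2 (by rintro _ ⟨g, T, rfl⟩; exact h g T)) (hS.preimage f.continuous)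
  exact this hx

theorem comp_mem_Gr {x} {y} (hx : x ∈ Gr φ F H) (hy : y ∈ Gr φ E F) :
    (x.1 ∘L y.1, x.2 ∘L y.2) ∈ Gr φ E H := by
  refine Gr_map (((ContinuousLinearMap.compL ℝ (V G E) (V G F) (V G H)).flip y.1).prodMap
    ((ContinuousLinearMap.compL ℝ (V G' E) (V G' F) (V G' H)).flip y.2)) (Gr φ E H)
    isClosed_Gr (fun g T => ?_) hx
  refine Gr_map ((ContinuousLinearMap.compL ℝ (V G E) (V G F) (V G H) (tw g T)).prodMap
    (ContinuousLinearMap.compL ℝ (V G' E) (V G' F) (V G' H) (tw (φ g) T))) (Gr φ E H)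
    isClosed_Gr (fun h S => ?_) hy
  change ((tw g T).comp (tw h S), (tw (φ g) T).comp (tw (φ h) S)) ∈ _
  rw [tw_comp, tw_comp, ← map_mul]
  exact tw_mem_Gr _ _

theorem norm_le (hCB : St_CB) (hφ : LF φ) {x} (hx : x ∈ Gr φ E F) : ‖x.2‖ ≤ ‖x.1‖ := by
  refine closure_minimal (s := (Gr0 φ E F : Set ((V G E →L[ℝ] V G F) × (V G' E →L[ℝ] V G' F))))
    (t := {x | ‖x.2‖ ≤ ‖x.1‖}) (fun y hy => ?_)
    (isClosed_le continuous_snd.norm continuous_fst.norm) hx
  obtain ⟨s, c, rfl⟩ := mem_Gr0.1 hy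
  exact hCB G G' φ hφ E F s c

theorem closed_fst {A B : Type} [NormedAddCommGroup A] [NormedSpace ℝ A] [CompleteSpace A]
    [NormedAddCommGroup B] [NormedSpace ℝ B] [CompleteSpace B] (K : Submodule ℝ (A × B))
    (hK : IsClosed (K : Set (A × B))) (h : ∀ x ∈ K, ‖x.2‖ ≤ ‖x.1‖) :
    IsClosed (K.map (LinearMap.fst ℝ A B) : Set A) := by
  have := hK.completeSpace_coe
  let f : K →L[ℝ] A := (ContinuousLinearMap.fst ℝ A B).comp K.subtypeL
  have h1 : AntilipschitzWith 1 f := f.antilipschitz_of_bound fun x => by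
    rw [NNReal.coe_one, one_mul]
    exact max_le le_rfl (h x.1 x.2)
  convert h1.isClosed_range f.uniformContinuous using 1
  ext a
  exact ⟨fun ⟨x, hx, e⟩ => ⟨⟨x, hx⟩, e⟩, fun ⟨x, e⟩ => ⟨x.1, x.2, e⟩⟩

theorem push_eq (hCB : St_CB) (hφ : LF φ) {T : V G E →L[ℝ] V G F} {T' : V G' E →L[ℝ] V G' F}
    (h : (T, T') ∈ Gr φ E F) : push φ T = T' := by
  have h1 := isPush_iff.1 (Classical.epsilon_spec (p := IsPush φ T) ⟨T', isPush_iff.2 h⟩)
  have h2 := norm_le hCB hφ (sub_mem h1 h)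
  simp only [Prod.mk_sub_mk, sub_self, norm_zero, norm_le_zero_iff] at h2
  exact sub_eq_zero.1 h2

theorem push_mem [CompleteSpace F] (hCB : St_CB) (hφ : LF φ) {T : V G E →L[ℝ] V G F}
    (hT : T ∈ RR G E F) : (T, push φ T) ∈ Gr φ E F := by
  obtain ⟨x, h1, h2⟩ := RR_map (ContinuousLinearMap.id ℝ _) _
    (closed_fst (Gr φ E F) isClosed_Gr fun x hx => norm_le hCB hφ hx)
    (fun g c => ⟨_, tw_mem_Gr g c, rfl⟩) hT
  obtain rfl : x.1 = T := h2
  rw [push_eq hCB hφ h1]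
  exact h1

theorem push_kk [CompleteSpace E] (hCB : St_CB) (hφ : LF φ) {T : V G E →L[ℝ] V G E}
    (hT : T ∈ KK G E) : push φ T ∈ KK G' E := by
  let K : Submodule ℝ ((V G E →L[ℝ] V G E) × (V G' E →L[ℝ] V G' E)) :=
    Gr φ E E ⊓ (KK G' E).comap (LinearMap.snd ℝ _ _)
  have h1 : IsClosed (K : Set ((V G E →L[ℝ] V G E) × (V G' E →L[ℝ] V G' E))) :=
    isClosed_Gr.inter ((Submodule.isClosed_topologicalClosure _).preimage continuous_snd)
  have h : KK G E ≤ K.map (LinearMap.fst ℝ _ _) :=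
    Submodule.topologicalClosure_minimal _ (Submodule.span_le.2 (by
      rintro _ ⟨g, c, hc, rfl⟩
      exact ⟨_, ⟨tw_mem_Gr g c, Submodule.le_topologicalClosure _
        (Submodule.subset_span ⟨φ g, c, hc, rfl⟩)⟩, rfl⟩))
      (closed_fst K h1 fun x hx => norm_le hCB hφ hx.1)
  obtain ⟨x, ⟨h2, h3⟩, h4⟩ := h hT
  obtain rfl : x.1 = T := h4
  rw [push_eq hCB hφ h2]
  exact h3

theorem push_vec [CompleteSpace F] (hCB : St_CB) (hVEC : St_VEC) (hφ : LF φ)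
    {T : V G E →L[ℝ] V G F} (hT : T ∈ RR G E F) {ξ : V G E} {ξ' : V G' E} {η' : V G' F}
    (h1 : VPush φ ξ ξ') (h2 : VPush φ (T ξ) η') : push φ T ξ' = η' := by
  refine eq_of_forall_dist_le fun ε hε => ?_
  have h0 : 0 < 2 * ‖ξ'‖ + 1 := by positivity
  obtain ⟨s, c, h3, h4⟩ := isPush_iff.2 (push_mem hCB hφ hT) _ (div_pos hε h0)
  have h5 := (hVEC G G' φ hφ E F T hT s c ξ ξ' η' h1 h2).trans
    (mul_le_mul_of_nonneg_right h3 (norm_nonneg _))
  have h6 : ‖push φ T ξ' - (∑ g ∈ s, tw (φ g) (c g)) ξ'‖ ≤ _ :=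
    ((push φ T - ∑ g ∈ s, tw (φ g) (c g)).le_opNorm ξ').trans
      (mul_le_mul_of_nonneg_right h4 (norm_nonneg _))
  have h7 := norm_sub_le_norm_sub_add_norm_sub (push φ T ξ') ((∑ g ∈ s, tw (φ g) (c g)) ξ') η'
  have h8 := div_mul_cancel₀ ε h0.ne'
  have h9 := div_pos hε h0
  rw [dist_eq_norm]
  refine (h7.trans (add_le_add h6 h5)).trans ?_
  generalize ε / (2 * ‖ξ'‖ + 1) = δ at h8 h9 ⊢
  linarith

end PUSH

open PUSH in
theorem stPUSH (hCB : St_CB) (hVEC : St_VEC) : St_PUSH := by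
  intro G G' _ _ φ hφ
  refine ⟨fun g T => push_eq hCB hφ (tw_mem_Gr g T), fun hT => ⟨?_, ?_, ?_⟩, fun hS hT => ?_,
    fun r _ hT => ?_, fun hS hT => ?_, fun hT => push_kk hCB hφ hT,
    fun hT _ _ _ h1 h2 => push_vec hCB hVEC hφ hT h1 h2⟩
  · exact Gr_map (ContinuousLinearMap.snd ℝ _ _) _ isClosed_RR (fun g c => tw_mem _ _)
      (push_mem hCB hφ hT)
  · exact isPush_iff.2 (push_mem hCB hφ hT)
  · have := norm_le hCB hφ (push_mem hCB hφ hT)
    dsimp only at this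
    exact this
  · have := add_mem (push_mem hCB hφ hS) (push_mem hCB hφ hT)
    rw [Prod.mk_add_mk] at this
    exact push_eq hCB hφ this
  · have := Submodule.smul_mem _ r (push_mem hCB hφ hT)
    rw [Prod.smul_mk] at this
    exact push_eq hCB hφ this
  · have := comp_mem_Gr (push_mem hCB hφ hS) (push_mem hCB hφ hT)
    dsimp only at this
    exact push_eq hCB hφ this

end Pool.Agent.Lib.CX
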