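import Pool.Agent.Lib.CX.Blue

set_option linter.unusedSectionVars false
set_option linter.unusedVariables false

noncomputable section

open Set Function

namespace Pool.Agent.Lib.CX

open IT

namespace RES

variable {C W : Type} [Fintype C] [Fintype W] [AddCommGroup W] {Γ : Type} [Group Γ]
  {gen : C × W → Γ} {X X' : AddSubgroup (Γ → C × Bool → W)}

theorem comp_mem (hle : X' ≤ X) (v : X →+ ZMod 2) (hv : v ∈ Vg X) :
    v.comp (AddSubgroup.inclusion hle) ∈ Vg X' := by
  induction hv using AddSubgroup.closure_induction with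
  | mem v hv =>
    obtain ⟨g, p, φ, rfl⟩ := hv
    exact AddSubgroup.subset_closure ⟨g, p, φ, rfl⟩
  | zero => exact (Vg X').zero_mem
  | add u v _ _ hu hv => exact (Vg X').add_mem hu hv
  | neg u _ hu => exact (Vg X').neg_mem hu

/-- restriction of functionals -/
def ρ (hle : X' ≤ X) : Vg X →+ Vg X' where
  toFun v := ⟨v.1.comp (AddSubgroup.inclusion hle), comp_mem hle v.1 v.2⟩
  map_zero' := rfl
  map_add' _ _ := rfl

theorem ρ_surj (hle : X' ≤ X) : Surjective (ρ hle) := by
  rintro ⟨v, hv⟩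
  induction hv using AddSubgroup.closure_induction with
  | mem v hv =>
    obtain ⟨g, p, φ, rfl⟩ := hv
    exact ⟨co X g p φ, rfl⟩
  | zero => exact ⟨0, rfl⟩
  | add u v _ _ hu hv =>
    obtain ⟨a, ha⟩ := hu
    obtain ⟨b, hb⟩ := hv
    exact ⟨a + b, by rw [map_add, ha, hb]; rfl⟩
  | neg u _ hu =>
    obtain ⟨a, ha⟩ := hu
    exact ⟨-a, by rw [map_neg, ha]; rfl⟩

/-- the homomorphism of semidirect products -/
def rr (h : Cfg gen X) (h' : Cfg gen X') (hle : X' ≤ X) : Gg h →* Gg h' :=
  SemidirectProduct.map (AddMonoidHom.toMultiplicative (ρ hle)) (MonoidHom.id Γ) fun _ => rfl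

theorem torsion (v : Multiplicative (Vg X)) : v ^ 2 = 1 := by
  refine Multiplicative.toAdd.injective (Subtype.ext (AddMonoidHom.ext fun ω => ?_))
  rw [pow_two]
  exact CharTwo.add_self_eq_zero ((Multiplicative.toAdd v).1 ω)

theorem finite_closure (h : Cfg gen X) (s : Finset (Gg h)) (hs : ∀ g ∈ s, g.right = 1) :
    ((Subgroup.closure (s : Set (Gg h)) : Subgroup (Gg h)) : Set (Gg h)).Finite := by
  classical
  let H : Subgroup (Multiplicative (Vg X)) :=
    Subgroup.closure ((s.image SemidirectProduct.left : Finset _) : Set (Multiplicative (Vg X)))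
  have : Group.FG H := (Group.fg_iff_subgroup_fg H).2 ⟨_, rfl⟩
  have : Finite H := CommGroup.finite_of_fg_isMulTorsion H fun v =>
    isOfFinOrder_iff_pow_eq_one.2 ⟨2, two_pos, Subtype.ext (torsion v.1)⟩
  refine ((Set.toFinite (H : Set _)).image (SemidirectProduct.inl (φ := act h))).subset ?_
  rw [← Subgroup.coe_map, SetLike.coe_subset_coe, Subgroup.closure_le]
  intro g hg
  refine ⟨g.left, Subgroup.subset_closure (Finset.mem_coe.2 (Finset.mem_image_of_mem _ hg)), ?_⟩
  ext
  · rfl
  · exact (hs g hg).symm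

end RES

theorem stRES : St_RES := by
  intro C W _ _ _ Γ _ gen X X' h h' hle
  have key : ∀ x, RES.rr h h' hle x = 1 ↔ x.right = 1 ∧
      ∀ ω (hω : ω ∈ X'), (Multiplicative.toAdd x.left).1 ⟨ω, hle hω⟩ = 0 := by
    intro x
    constructor
    · intro hx
      refine ⟨congrArg SemidirectProduct.right hx, fun ω hω => ?_⟩
      exact congrArg (fun y : Gg h' => (Multiplicative.toAdd y.left).1 ⟨ω, hω⟩) hx
    · rintro ⟨h1, h2⟩
      refine SemidirectProduct.ext ?_ h1
      exact Multiplicative.toAdd.injective (Subtype.ext (AddMonoidHom.ext fun ω => h2 ω.1 ω.2))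
  refine ⟨RES.rr h h' hle, ⟨fun y => ?_, fun s hs =>
    RES.finite_closure h s fun g hg => ((key g).1 (hs g hg)).1⟩, ?_, key⟩
  · obtain ⟨v, hv⟩ := RES.ρ_surj hle (Multiplicative.toAdd y.left)
    exact ⟨⟨Multiplicative.ofAdd v, y.right⟩,
      SemidirectProduct.ext (congrArg Multiplicative.ofAdd hv) rfl⟩
  · have h1 : ∀ (x : Gg h) (c : ℝ), MonoidAlgebra.mapDomainAlgHom ℝ ℝ (RES.rr h h' hle)
        (MonoidAlgebra.single x c) = MonoidAlgebra.single (RES.rr h h' hle x) c := fun x c =>
      MonoidAlgebra.mapDomain_single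
    have : Finite (W →+ ZMod 2) := Finite.of_injective _ DFunLike.coe_injective
    have h2 : ∀ p w, MonoidAlgebra.mapDomainAlgHom ℝ ℝ (RES.rr h h' hle) (idem h p w) =
        idem h' p w := fun p w => by
      rw [idem, idem, map_finsum _ (Set.toFinite _)]
      exact finsum_congr fun φ => h1 _ _
    simp only [aX, map_add, map_smul, map_sum, map_mul, h1, h2, map_one]
    rfl

end Pool.Agent.Lib.CX
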