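import Pool.Agent.Lib.CX.Blue

/-! Block VEC: the vector form of the complete contractivity of the push forward. -/

noncomputable section

open Set Function Filter Topology BCO

namespace Pool.Agent.Lib.CX

namespace VEC

variable {G G' : Type} [Group G] [Group G'] {E F : Type} [NormedAddCommGroup E] [NormedSpace ℝ E]
  [NormedAddCommGroup F] [NormedSpace ℝ F] {φ : G →* G'}

/-- Right translation of a vector. -/
def rsh (n : G) (ξ : V G E) : V G E :=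
  ⟨fun x => ξ (x * n),
    memℓp_gen (((lp.memℓp ξ).summable (by norm_num)).comp_injective (mul_left_injective n))⟩

omit [NormedSpace ℝ E] in
theorem norm_rsh (n : G) (ξ : V G E) : ‖rsh n ξ‖ = ‖ξ‖ := by
  rw [lp.norm_eq_tsum_rpow (by norm_num), lp.norm_eq_tsum_rpow (by norm_num)]
  congr 1
  exact (Equiv.mulRight n).tsum_eq fun x => ‖ξ x‖ ^ (2 : ENNReal).toReal

/-- Right translation as an operator. -/
def rt (n : G) : V G E →L[ℝ] V G E :=
  LinearMap.mkContinuous ⟨⟨rsh n, fun _ _ => rfl⟩, fun _ _ => rfl⟩ 1 fun ξ => by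
    rw [one_mul]; exact (norm_rsh n ξ).le

theorem rt_apply (n : G) (ξ : V G E) (x : G) : rt n ξ x = ξ (x * n) := rfl

theorem comm_rt {B : V G E →L[ℝ] V G F} (hB : B ∈ RR G E F) (n : G) (ξ : V G E) :
    B (rt n ξ) = rt n (B ξ) := by
  have h := RR_map ((ContinuousLinearMap.compL ℝ (V G E) (V G E) (V G F)).flip (rt n) -
    ContinuousLinearMap.compL ℝ (V G E) (V G F) (V G F) (rt n)) ⊥ isClosed_singleton
    (fun g T => (Submodule.mem_bot ℝ).2 (sub_eq_zero.2 (op_ext fun ζ x => by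
      change T (ζ (g⁻¹ * x * n)) = T (ζ (g⁻¹ * (x * n)))
      rw [mul_assoc]))) hB
  exact DFunLike.congr_fun (sub_eq_zero.1 ((Submodule.mem_bot ℝ).1 h)) ξ

open Classical in
/-- Fibre sums over a given finite set. -/
def VP (φ : G →* G') (s : Finset G) (ξ : V G E) (ξ' : V G' E) : Prop :=
  (∀ g ∉ s, ξ g = 0) ∧ ∀ γ, ξ' γ = ∑ g ∈ s with φ g = γ, ξ g

omit [NormedSpace ℝ E] in
theorem VP.mono {s t : Finset G} {ξ : V G E} {ξ' : V G' E} (h : VP φ s ξ ξ') (hst : s ⊆ t) :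
    VP φ t ξ ξ' := by
  classical
  refine ⟨fun g hg => h.1 g fun h1 => hg (hst h1), fun γ => ?_⟩
  rw [h.2]
  refine Finset.sum_subset (Finset.filter_subset_filter _ hst) fun g h1 h2 => h.1 g fun h3 => h2 ?_
  exact Finset.mem_filter.2 ⟨h3, (Finset.mem_filter.1 h1).2⟩

omit [NormedSpace ℝ E] in
theorem vp_add {ξ η : V G E} {ξ' η' : V G' E} (h : VPush φ ξ ξ') (h' : VPush φ η η') :
    VPush φ (ξ + η) (ξ' + η') := by
  classical
  obtain ⟨s, hs⟩ := h
  obtain ⟨t, ht⟩ := h'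
  have h1 := VP.mono (s := s) hs (Finset.subset_union_left (s₂ := t))
  have h2 := VP.mono (s := t) ht (Finset.subset_union_right (s₁ := s))
  refine ⟨s ∪ t, fun g hg => ?_, fun γ => ?_⟩
  · change ξ g + η g = 0
    rw [h1.1 g hg, h2.1 g hg, add_zero]
  · change ξ' γ + η' γ = ∑ g ∈ _, (ξ g + η g)
    rw [h1.2, h2.2, Finset.sum_add_distrib]

omit [NormedSpace ℝ E] in
theorem vp_neg {ξ : V G E} {ξ' : V G' E} (h : VPush φ ξ ξ') : VPush φ (-ξ) (-ξ') := by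
  obtain ⟨s, h1, h2⟩ := h
  refine ⟨s, fun g hg => ?_, fun γ => ?_⟩
  · change -ξ g = 0
    rw [h1 g hg, neg_zero]
  · change -ξ' γ = ∑ g ∈ _, -ξ g
    rw [h2, Finset.sum_neg_distrib]

theorem vp_tw {ξ : V G E} {ξ' : V G' E} (h : VPush φ ξ ξ') (g : G) (c : E →L[ℝ] F) :
    VPush φ (tw g c ξ) (tw (φ g) c ξ') := by
  classical
  obtain ⟨s, h1, h2⟩ := h
  refine ⟨s.map (mulLeftEmbedding g), fun x hx => ?_, fun γ => ?_⟩
  · rw [tw_apply, h1 _ fun h3 => hx (Finset.mem_map.2 ⟨_, h3, by simp⟩), map_zero]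
  · rw [tw_apply, h2, map_sum, Finset.sum_filter, Finset.sum_filter, Finset.sum_map]
    refine Finset.sum_congr rfl fun x _ => ?_
    simp only [mulLeftEmbedding_apply, map_mul, tw_apply, inv_mul_cancel_left, eq_inv_mul_iff_mul_eq]

theorem vp_sum {ξ : V G E} {ξ' : V G' E} (h : VPush φ ξ ξ') (s : Finset G) (c : G → E →L[ℝ] F) :
    VPush φ ((∑ g ∈ s, tw g (c g)) ξ) ((∑ g ∈ s, tw (φ g) (c g)) ξ') := by
  classical
  induction s using Finset.induction_on with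
  | empty => exact ⟨∅, fun _ _ => rfl, fun _ => rfl⟩
  | insert a s ha ih =>
    rw [Finset.sum_insert ha, Finset.sum_insert ha]
    exact vp_add (vp_tw h a (c a)) ih

omit [Group G] [NormedSpace ℝ E] in
theorem norm_sq_eq (ξ : V G E) {t : Finset G} (h : ∀ x ∉ t, ξ x = 0) :
    ‖ξ‖ ^ 2 = ∑ x ∈ t, ‖ξ x‖ ^ 2 := by
  have h1 := lp.norm_rpow_eq_tsum (p := 2) (by norm_num) ξ
  rw [tsum_eq_sum (s := t) fun x hx => by simp [h x hx]] at h1
  simpa only [ENNReal.toReal_ofNat, Real.rpow_ofNat] using h1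

theorem norm_avg {s : Finset G} {ξ : V G E} {ξ' : V G' E} (h : VP φ s ξ ξ') (N : Subgroup G)
    [Fintype N] (h1 : ∀ n ∈ N, φ n = 1) (h2 : ∀ x ∈ s, ∀ y ∈ s, φ x = φ y → x⁻¹ * y ∈ N) :
    ‖∑ n : N, rt n.1 ξ‖ ^ 2 = Fintype.card N * ‖ξ'‖ ^ 2 := by
  classical
  have h3 : ∀ x, (∑ n : N, rt n.1 ξ) x = ∑ n : N, ξ (x * n) := fun x => by
    rw [lp.coeFn_sum, Finset.sum_apply]; rfl
  let Z : Finset G := (s ×ˢ (Finset.univ : Finset N)).image fun p => p.1 * p.2.1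
  have hZ : ∀ x, x ∈ Z ↔ ∃ y ∈ s, y⁻¹ * x ∈ N := fun x => by
    simp only [Z, Finset.mem_image, Finset.mem_product, Finset.mem_univ, and_true, Prod.exists]
    exact ⟨fun ⟨y, n, h4, h5⟩ => ⟨y, h4, by rw [← h5, inv_mul_cancel_left]; exact n.2⟩,
      fun ⟨y, h4, h5⟩ => ⟨y, ⟨_, h5⟩, h4, mul_inv_cancel_left _ _⟩⟩
  have h4 : ∀ y x, y⁻¹ * x ∈ N → φ y = φ x := fun y x h4 => by
    have := h1 _ h4
    rwa [map_mul, map_inv, inv_mul_eq_one] at this
  have h5 : ∀ x ∈ Z, (∑ n : N, rt n.1 ξ) x = ξ' (φ x) := fun x hx => by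
    obtain ⟨y, h5, h6⟩ := (hZ x).1 hx
    rw [h3, h.2]
    refine Finset.sum_bij_ne_zero (fun n _ _ => x * n.1) (fun n _ h7 => ?_)
      (fun n _ _ m _ _ h7 => Subtype.ext (mul_left_cancel h7)) (fun g h7 _ => ?_) fun _ _ _ => rfl
    · refine Finset.mem_filter.2 ⟨of_not_not fun h8 => h7 (h.1 _ h8), ?_⟩
      rw [map_mul, h1 _ n.2, mul_one]
    · obtain ⟨h8, h9⟩ := Finset.mem_filter.1 h7
      have h10 : x⁻¹ * g ∈ N := by
        have := N.mul_mem (N.inv_mem h6) (h2 y h5 g h8 ((h4 y x h6).trans h9.symm))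
        simpa [mul_assoc] using this
      exact ⟨⟨_, h10⟩, Finset.mem_univ _, by rwa [mul_inv_cancel_left], mul_inv_cancel_left _ _⟩
  rw [norm_sq_eq _ (t := Z) fun x hx => ?_, norm_sq_eq ξ' (t := s.image φ) fun γ hγ => ?_,
    Finset.sum_congr rfl fun x hx => by rw [h5 x hx],
    ← Finset.sum_fiberwise_of_maps_to (t := s.image φ) (g := φ) fun x hx => ?_, Finset.mul_sum]
  · refine Finset.sum_congr rfl fun γ hγ => ?_
    obtain ⟨y, h6, rfl⟩ := Finset.mem_image.1 hγ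
    rw [Finset.sum_congr rfl fun x hx => by rw [(Finset.mem_filter.1 hx).2], Finset.sum_const,
      nsmul_eq_mul, ← Finset.card_univ]
    congr 2
    refine (Finset.card_bij (fun n _ => y * n.1) (fun n _ => ?_)
      (fun n _ m _ h7 => Subtype.ext (mul_left_cancel h7)) fun x hx => ?_).symm
    · refine Finset.mem_filter.2 ⟨(hZ _).2 ⟨y, h6, by rw [inv_mul_cancel_left]; exact n.2⟩, ?_⟩
      rw [map_mul, h1 _ n.2, mul_one]
    · obtain ⟨h7, h8⟩ := Finset.mem_filter.1 hx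
      obtain ⟨z, h9, h10⟩ := (hZ x).1 h7
      have h11 : y⁻¹ * x ∈ N := by
        have := N.mul_mem (h2 y h6 z h9 (h8.symm.trans (h4 z x h10).symm)) h10
        simpa [mul_assoc] using this
      exact ⟨⟨_, h11⟩, Finset.mem_univ _, mul_inv_cancel_left _ _⟩
  · obtain ⟨y, h6, h7⟩ := (hZ x).1 hx
    exact Finset.mem_image.2 ⟨y, h6, h4 y x h7⟩
  · rw [h.2]
    exact Finset.sum_eq_zero fun g hg => absurd (Finset.mem_image.2
      ⟨g, (Finset.mem_filter.1 hg).1, (Finset.mem_filter.1 hg).2⟩) hγ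
  · rw [h3]
    refine Finset.sum_eq_zero fun n _ => h.1 _ fun h6 => hx ((hZ x).2 ⟨_, h6, ?_⟩)
    simp

theorem norm_push_le (hφ : LF φ) {B : V G E →L[ℝ] V G F} (hB : B ∈ RR G E F) {ξ : V G E}
    {ξ' : V G' E} {η' : V G' F} (h : VPush φ ξ ξ') (h' : VPush φ (B ξ) η') :
    ‖η'‖ ≤ ‖B‖ * ‖ξ'‖ := by
  classical
  obtain ⟨s, hs⟩ := h
  obtain ⟨t, ht⟩ := h'
  have h1 := VP.mono (s := s) hs (Finset.subset_union_left (s₂ := t))
  have h2 := VP.mono (s := t) ht (Finset.subset_union_right (s₁ := s))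
  let k : Finset G := (((s ∪ t) ×ˢ (s ∪ t)).image fun p => p.1⁻¹ * p.2).filter fun g => φ g = 1
  let N : Subgroup G := Subgroup.closure (k : Set G)
  have : Fintype N := (hφ.2 k fun g hg => (Finset.mem_filter.1 hg).2).fintype
  have h3 : ∀ n ∈ N, φ n = 1 := fun n hn =>
    (Subgroup.closure_le φ.ker).2 (fun g hg => (Finset.mem_filter.1 hg).2) hn
  have h4 : ∀ x ∈ s ∪ t, ∀ y ∈ s ∪ t, φ x = φ y → x⁻¹ * y ∈ N := fun x hx y hy h5 =>
    Subgroup.subset_closure (Finset.mem_filter.2 ⟨Finset.mem_image.2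
      ⟨(x, y), Finset.mem_product.2 ⟨hx, hy⟩, rfl⟩, by rw [map_mul, map_inv, h5, inv_mul_cancel]⟩)
  have h5 := norm_avg h1 N h3 h4
  have h6 := norm_avg h2 N h3 h4
  have h7 : ∑ n : N, rt n.1 (B ξ) = B (∑ n : N, rt n.1 ξ) := by
    rw [map_sum]
    exact Finset.sum_congr rfl fun n _ => (comm_rt hB n.1 ξ).symm
  have h8 := pow_le_pow_left₀ (norm_nonneg _) (B.le_opNorm (∑ n : N, rt n.1 ξ)) 2
  rw [← h7, h6, mul_pow, h5, mul_left_comm, ← mul_pow] at h8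
  have h9 : (0 : ℝ) < Fintype.card N := Nat.cast_pos.2 Fintype.card_pos
  exact (pow_le_pow_iff_left₀ (norm_nonneg _) (by positivity) two_ne_zero).1
    (le_of_mul_le_mul_left h8 h9)

end VEC

open VEC in
theorem stVEC : St_VEC := by
  intro G G' _ _ φ hφ E F _ _ _ _ T hT s c ξ ξ' η' h h'
  rw [norm_sub_rev]
  refine norm_push_le hφ (sub_mem hT (sum_mem fun g _ => tw_mem g (c g))) h ?_
  rw [_root_.sub_apply, sub_eq_add_neg, sub_eq_add_neg]
  exact vp_add h' (vp_neg (vp_sum h s c))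

end Pool.Agent.Lib.CX
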