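import Pool.Agent.Lib.CX.BG1
import Pool.Agent.Lib.CX.BG2
import Pool.Agent.Lib.CX.BG3
import Pool.Agent.Lib.CX.CB
import Pool.Agent.Lib.CX.FAITH
import Pool.Agent.Lib.CX.FIN
import Pool.Agent.Lib.CX.GRA2
import Pool.Agent.Lib.CX.IND
import Pool.Agent.Lib.CX.KER
import Pool.Agent.Lib.CX.KTR2
import Pool.Agent.Lib.CX.LIFT
import Pool.Agent.Lib.CX.LIM2
import Pool.Agent.Lib.CX.PRI
import Pool.Agent.Lib.CX.PUSH
import Pool.Agent.Lib.CX.RES
import Pool.Agent.Lib.CX.T2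
import Pool.Agent.Lib.CX.VEC
import Pool.Agent.Lib.IT.ALG
import Pool.Agent.Lib.IT.BIR
import Pool.Agent.Lib.IT.CFG
import Pool.Agent.Lib.IT.CHE
import Pool.Agent.Lib.IT.CONN
import Pool.Agent.Lib.IT.EXP
import Pool.Agent.Lib.IT.EXT
import Pool.Agent.Lib.IT.GEO91
import Pool.Agent.Lib.IT.GR
import Pool.Agent.Lib.IT.HAAR2
import Pool.Agent.Lib.IT.LAB
import Pool.Agent.Lib.IT.MEA
import Pool.Agent.Lib.IT.PAR
import Pool.Agent.Lib.IT.PL
import Pool.Agent.Lib.IT.POI3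
import Pool.Agent.Lib.IT.RG1
import Pool.Agent.Lib.IT.RG2
import Pool.Agent.Lib.IT.RLC
import Pool.Agent.Lib.IT.ROS2
import Pool.Agent.Lib.IT.SEQ
import Pool.Agent.Lib.IT.SW

/-! Assembly of the colimit argument. -/

namespace Pool.Agent.Lib.CX

open IT

theorem pri : St_PRI :=
  stPRI (stSEQ (stGR (stRG1 stPL) (stRG2 stPL) stSW) stRLC (stLAB stROS2)) (stBIR G91.stGEO stCON)
    stCFG (stEXP stCON) (stEXT stCON) (stCHE P91.stPOI3) stHAAR2 stALG stPAR stMEA CX.stLIM2 stFAITH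

theorem pushOK : St_PUSH := stPUSH stCB stVEC

theorem fin : St_FIN := stFIN stBG2'

theorem t2 : St_T2 := stT2 pushOK stRES stKER pri

theorem notStolz : St_MAIN :=
  main_of pushOK stKTR2 stIND (stGRA2 stBG1 fin) (stLIFT stBG1 (stBG3 stBG1) fin) t2

end Pool.Agent.Lib.CX
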