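import Pool.Agent.Lib.CX.Defs
import Pool.Agent.Lib.BCH.KApi
import Pool.Agent.Lib.IT.Blue

/-! Blueprint of the colimit argument. Block `X` is `theorem stX (earlier blocks) : St_X`. -/

noncomputable section

open Set Function Filter Topology MeasureTheory BCO

namespace Pool.Agent.Lib.CX

variable {G G' : Type} [Group G] [Group G']

/-! ### push forward of operators -/

/-- onto, with locally finite kernel -/
def LF (φ : G →* G') : Prop :=
  Surjective φ ∧ ∀ s : Finset G, (∀ g ∈ s, φ g = 1) →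
    ((Subgroup.closure (s : Set G) : Subgroup G) : Set G).Finite

section Push

variable {E F : Type} [NormedAddCommGroup E] [NormedSpace ℝ E] [NormedAddCommGroup F]
  [NormedSpace ℝ F]

/-- `T'` is the image of `T` under the map `λ(g) ⊗ c ↦ λ(φ g) ⊗ c` -/
def IsPush (φ : G →* G') (T : V G E →L[ℝ] V G F) (T' : V G' E →L[ℝ] V G' F) : Prop :=
  ∀ ε : ℝ, 0 < ε → ∃ (s : Finset G) (c : G → E →L[ℝ] F),
    ‖T - ∑ g ∈ s, tw g (c g)‖ ≤ ε ∧ ‖T' - ∑ g ∈ s, tw (φ g) (c g)‖ ≤ ε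

/-- the image of an operator -/
def push (φ : G →* G') (T : V G E →L[ℝ] V G F) : V G' E →L[ℝ] V G' F :=
  Classical.epsilon (IsPush φ T)

open Classical in
/-- `ξ` has finite support and `ξ'` is its sum over the fibres -/
def VPush (φ : G →* G') (ξ : V G E) (ξ' : V G' E) : Prop :=
  ∃ s : Finset G, (∀ g ∉ s, ξ g = 0) ∧ ∀ γ, ξ' γ = ∑ g ∈ s with φ g = γ, ξ g

end Push

/-- the properties of `push` -/
structure PushOK (φ : G →* G') : Prop where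
  tw : ∀ {E F : Type} [NormedAddCommGroup E] [NormedSpace ℝ E] [NormedAddCommGroup F]
    [NormedSpace ℝ F] [CompleteSpace F] (g : G) (T : E →L[ℝ] F), push φ (tw g T) = tw (φ g) T
  mem : ∀ {E F : Type} [NormedAddCommGroup E] [NormedSpace ℝ E] [NormedAddCommGroup F]
    [NormedSpace ℝ F] [CompleteSpace F] {T : V G E →L[ℝ] V G F}, T ∈ RR G E F →
    push φ T ∈ RR G' E F ∧ IsPush φ T (push φ T) ∧ ‖push φ T‖ ≤ ‖T‖
  add : ∀ {E F : Type} [NormedAddCommGroup E] [NormedSpace ℝ E] [NormedAddCommGroup F]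
    [NormedSpace ℝ F] [CompleteSpace F] {S T : V G E →L[ℝ] V G F}, S ∈ RR G E F → T ∈ RR G E F →
    push φ (S + T) = push φ S + push φ T
  smul : ∀ {E F : Type} [NormedAddCommGroup E] [NormedSpace ℝ E] [NormedAddCommGroup F]
    [NormedSpace ℝ F] [CompleteSpace F] (r : ℝ) {T : V G E →L[ℝ] V G F}, T ∈ RR G E F →
    push φ (r • T) = r • push φ T
  comp : ∀ {E F H : Type} [NormedAddCommGroup E] [NormedSpace ℝ E] [NormedAddCommGroup F]
    [NormedSpace ℝ F] [CompleteSpace F] [NormedAddCommGroup H] [NormedSpace ℝ H] [CompleteSpace H]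
    {S : V G F →L[ℝ] V G H} {T : V G E →L[ℝ] V G F}, S ∈ RR G F H → T ∈ RR G E F →
    push φ (S ∘L T) = push φ S ∘L push φ T
  kk : ∀ {E : Type} [NormedAddCommGroup E] [NormedSpace ℝ E] [CompleteSpace E]
    {T : V G E →L[ℝ] V G E}, T ∈ KK G E → push φ T ∈ KK G' E
  vec : ∀ {E F : Type} [NormedAddCommGroup E] [NormedSpace ℝ E] [NormedAddCommGroup F]
    [NormedSpace ℝ F] [CompleteSpace F] {T : V G E →L[ℝ] V G F}, T ∈ RR G E F →
    ∀ {ξ ξ' η'}, VPush φ ξ ξ' → VPush φ (T ξ) η' → push φ T ξ' = η'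

/-- the homomorphism of reduced algebras -/
def PushOK.hom {φ : G →* G'} (h : PushOK φ) : Cr G →ₙ+* Cr G' where
  toFun T := ⟨push φ T.1, (h.mem T.2).1⟩
  map_mul' S T := Subtype.ext (h.comp S.2 T.2)
  map_zero' := Subtype.ext (by
    have := h.smul (0 : ℝ) (T := (0 : V G ℝ →L[ℝ] V G ℝ)) (zero_mem _)
    simpa using this)
  map_add' S T := Subtype.ext (h.add S.2 T.2)

/-- CB: complete contractivity (average over a finite subgroup of the kernel) -/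
def St_CB : Prop := ∀ (G G' : Type) [Group G] [Group G'] (φ : G →* G'), LF φ →
  ∀ (E F : Type) [NormedAddCommGroup E] [NormedSpace ℝ E] [NormedAddCommGroup F] [NormedSpace ℝ F]
    (s : Finset G) (c : G → E →L[ℝ] F), ‖∑ g ∈ s, tw (φ g) (c g)‖ ≤ ‖∑ g ∈ s, tw g (c g)‖

/-- VEC: the vector form. If `T` is `ε`-close to a finite sum and `ξ`, `T ξ` have finite support,
the pushed finite sum moves `ξ'` to within `ε ‖ξ'‖` of `η'` -/
def St_VEC : Prop := ∀ (G G' : Type) [Group G] [Group G'] (φ : G →* G'), LF φ →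
  ∀ (E F : Type) [NormedAddCommGroup E] [NormedSpace ℝ E] [NormedAddCommGroup F] [NormedSpace ℝ F]
    (T : V G E →L[ℝ] V G F), T ∈ RR G E F → ∀ (s : Finset G) (c : G → E →L[ℝ] F) ξ ξ' η',
    VPush φ ξ ξ' → VPush φ (T ξ) η' →
    ‖(∑ g ∈ s, tw (φ g) (c g)) ξ' - η'‖ ≤ ‖T - ∑ g ∈ s, tw g (c g)‖ * ‖ξ'‖

/-- PUSH (from CB, VEC) -/
def St_PUSH : Prop := ∀ (G G' : Type) [Group G] [Group G'] (φ : G →* G'), LF φ → PushOK φ

/-- KTR: the trace on `K0` -/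
def St_KTR : Prop := ∀ (G : Type) [Group G], ∃ τ : BCH.K0 (Cr G) →+ ℝ,
  ∀ (k : ℕ) (p : Matrix (Fin k) (Fin k) (Cr G)), p * p = p → τ (BCH.cls p) = ∑ i, IT.tr (p i i).1

/-- FAITH: the trace is faithful -/
def St_FAITH : Prop := ∀ (G : Type) [Group G] (p : V G ℝ →L[ℝ] V G ℝ), p ∈ RA G ℝ → p * p = p →
  IsSelfAdjoint p → IT.tr p = 0 → p = 0

/-- IND: the index of a pair is natural -/
def St_IND : Prop := ∀ (G G' : Type) [Group G] [Group G'] (φ : G →* G') (h : PushOK φ)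
  (E : Type) [NormedAddCommGroup E] [NormedSpace ℝ E] [CompleteSpace E] (e : V G E →L[ℝ] V G E)
  (P : E →L[ℝ] E) (z : BCH.K0 (Cr G)), e ∈ RA G E → IsInd e (amp G P) z →
  IsInd (push φ e) (amp G' P) (BCH.K0.map h.hom z)

/-! ### the classifying space -/

/-- the map of classifying spaces attached to any map of groups (base point: first coordinate) -/
def BG.mp (σ : G → G') (p : BG G) : BG G' :=
  Quot.mk _ ⟨(p.out.1.1, fun i => σ (p.co i p.ix)), p.out.2⟩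

/-- points that use the first `n` coordinates and cocycle values in `s` -/
def BG.fin (n : ℕ) (s : Finset G) : Set (BG G) :=
  {p | (∀ i, n ≤ i → p.t i = 0) ∧ ∀ i j, p.co i j ∈ s}

/-- BG1: algebra of the coordinates -/
def St_BG1 : Prop := ∀ (G G' : Type) [Group G] [Group G'],
  (∀ p q : BG G, p.t = q.t → (∀ i j, p.co i j = q.co i j) → p = q) ∧
  (∀ p : BG G, p.t p.ix ≠ 0) ∧
  (∀ (p : BG G) i j k, p.t i ≠ 0 → p.t j ≠ 0 → p.t k ≠ 0 → p.co i j * p.co j k = p.co i k) ∧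
  (∀ (p : BG G) i j, p.t i = 0 ∨ p.t j = 0 → p.co i j = 1) ∧
  (∀ i, Continuous fun p : BG G => p.t i) ∧
  (∀ (σ : G → G') (p : BG G), (BG.mp σ p).t = p.t ∧ (BG.mp σ p).ix = p.ix ∧ ∀ i j, p.t i ≠ 0 →
    p.t j ≠ 0 → (BG.mp σ p).co i j = σ (p.co i p.ix) * (σ (p.co j p.ix))⁻¹) ∧
  ∀ φ : G →* G', Continuous (BG.mp φ) ∧ ∀ (p : BG G) i j, (BG.mp φ p).co i j = φ (p.co i j)

/-- BG2: a compact set lies in a finite subcomplex (from BG1) -/
def St_BG2 : Prop := ∀ (G : Type) [Group G] (K : Set (BG G)), IsCompact K →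
  ∃ n s, K ⊆ BG.fin n s

/-- BG3: a local homomorphism is continuous on a finite subcomplex (from BG1) -/
def St_BG3 : Prop := ∀ (G G' : Type) [Group G] [Group G'] (n : ℕ) (s : Finset G) (σ : G → G'),
  (∀ a ∈ s, ∀ b ∈ s, σ (a * b⁻¹) = σ a * (σ b)⁻¹) → ContinuousOn (BG.mp σ) (BG.fin n s)

/-- a base point -/
def BG.pt (G : Type) [Group G] : BG G :=
  Quot.mk _ ⟨(1, 1), fun i => if i = 0 then 1 else 0, fun i => by positivity,
    fun i hi => if_neg (by omega), by simp⟩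

open Classical in
/-- change of the reference map -/
def Sing.re {m : ℕ} (x : Sing G m) (σ : G → G') : Sing G' m where
  X := x.X
  N := x.N
  j := x.j
  f := if Continuous (BG.mp σ ∘ x.f) then BG.mp σ ∘ x.f else fun _ => BG.pt G'
  cpt := x.cpt
  prod := x.prod
  core_cpt := x.core_cpt
  closed := x.closed
  cont := by
    by_cases h : Continuous (BG.mp σ ∘ x.f)
    · rw [if_pos h]; exact h
    · rw [if_neg h]; exact continuous_const
  cyl y t ht := by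
    by_cases h : Continuous (BG.mp σ ∘ x.f)
    · rw [if_pos h]; exact congrArg (BG.mp σ) (x.cyl y t ht)
    · rw [if_neg h]

theorem Sing.re_f {m : ℕ} (x : Sing G m) {σ : G → G'} (h : Continuous (BG.mp σ ∘ x.f)) :
    (x.re σ).f = BG.mp σ ∘ x.f := if_pos h

/-- change of the reference map of a triple -/
def Cyc.re (x : Cyc G) (σ : G → G') : Cyc G' := ⟨x.1, x.2.1.re σ, x.2.2⟩

/-- FIN: the reference map has values in a finite subcomplex (from BG2) -/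
def St_FIN : Prop := ∀ (G : Type) [Group G] (m : ℕ) (x : Sing G m),
  ∃ n s, ∀ p, x.f p ∈ BG.fin n s

/-- GRA: the graph projection is natural (from BG1, FIN) -/
def St_GRA : Prop := ∀ (G G' : Type) [Group G] [Group G'] (φ : G →* G'), Surjective φ →
  PushOK φ → ∀ (m N : ℕ) (x : Sing G m) (S : Spinor (m + 1) N) (μ : Measure x.X.M)
    (e : V G (Lp (Eu N) 2 μ) →L[ℝ] V G (Lp (Eu N) 2 μ)), e ∈ RA G (Lp (Eu N) 2 μ) →
    x.IsGraph S μ e → (x.re φ).IsGraph S μ (push φ e)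

/-- LIFT: the Stolz group commutes with the colimit (from BG1, BG3, FIN) -/
def St_LIFT : Prop := ∀ (G : Type) [Group G] (Q : ℕ → Type) [∀ n, Group (Q n)] (Q' : Type)
  [Group Q'] (φ : ∀ n, G →* Q n) (ψ : G →* Q'), Surjective ψ →
  (∀ g, ψ g = 1 → ∀ᶠ n in atTop, φ n g = 1) → ∀ (B : SM 8) (x y : Cyc G),
  (Quot.mk _ (x.re ψ) : RB Q' B) = Quot.mk _ (y.re ψ) →
  ∃ n, (Quot.mk _ (x.re (φ n)) : RB (Q n) B) = Quot.mk _ (y.re (φ n))

/-! ### the chain of groups -/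

section Chain

open IT

/-- LIM2 -/
def St_LIM2 : Prop := ∀ (G : Type) [Group G] (a : MonoidAlgebra ℝ G) (ρ : ℝ), 0 ≤ ρ → ρ < 1 →
  (∀ x, a.coeff x⁻¹ = a.coeff x) →
  (∀ (ξ : MonoidAlgebra ℝ G) (m m' : ℕ), m ≤ m' →
    ((a ^ m * ξ - a ^ m' * ξ).coeff.sum fun _ r => r ^ 2) ≤
      4 * ρ ^ m * ξ.coeff.sum fun _ r => r ^ 2) →
  ∃ p ∈ redAlg G, p * p = p ∧ IsSelfAdjoint p ∧
    Tendsto (fun m : ℕ => (a ^ m).coeff 1) atTop (nhds (tr p)) ∧
    ∀ T : MonoidAlgebra ℝ G →ₐ[ℝ] (L2 G →L[ℝ] L2 G),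
      (∀ g ξ x, T (MonoidAlgebra.single g 1) ξ x = ξ (g⁻¹ * x)) →
      Tendsto (fun m : ℕ => T (a ^ m)) atTop (nhds p)

/-- RES: restriction of functionals to a smaller group of configurations -/
def St_RES : Prop := ∀ (C W : Type) [Fintype C] [Fintype W] [AddCommGroup W] (Γ : Type) [Group Γ]
  (gen : C × W → Γ) (X X' : AddSubgroup (Γ → C × Bool → W)) (h : Cfg gen X) (h' : Cfg gen X')
  (hle : X' ≤ X), ∃ r : Gg h →* Gg h', LF r ∧
    MonoidAlgebra.mapDomainAlgHom ℝ ℝ r (aX h) = aX h' ∧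
    ∀ x, r x = 1 ↔ x.right = 1 ∧
      ∀ ω (hω : ω ∈ X'), (Multiplicative.toAdd x.left).1 ⟨ω, hle hω⟩ = 0

/-- KER: a functional that vanishes on the intersection vanishes at a finite stage -/
def St_KER : Prop := ∀ (C W : Type) [Fintype C] [Fintype W] [AddCommGroup W] (D : Data C W)
  (Γ : Type) [Group Γ] (gen : C × W → Γ), (∀ I I', I' ⊆ I → Xg D gen I' ≤ Xg D gen I) ∧
  ∀ v : Vg (Xg D gen univ), (∀ ω : Xg D gen univ, ω.1 ∈ Xg D gen ∅ → v.1 ω = 0) →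
    ∀ᶠ n in atTop, ∀ ω : Xg D gen univ, ω.1 ∈ Xg D gen (Ici n) → v.1 ω = 0

/-- PRI: for every `I` the projection of `G_I` (from SEQ .. PRO, LIM2, FAITH) -/
def St_PRI : Prop := ∃ (C W : Type) (_ : Fintype C) (_ : Fintype W) (_ : AddCommGroup W)
  (D : Data C W) (Γ : Type) (_ : Group Γ) (gen : C × W → Γ), ∀ (I : Set ℕ),
  ∃ (h : Cfg gen (Xg D gen I)) (p : V (Gg h) ℝ →L[ℝ] V (Gg h) ℝ), p * p = p ∧
    Tendsto (fun m : ℕ => piA (1 : Gg h →* ℝ →L[ℝ] ℝ) (aX h ^ m)) atTop (𝓝 p) ∧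
    (I.Nonempty → tr p ≠ 0) ∧ (I = ∅ → p = 0)

end Chain

/-- T2 (from PUSH, RES, KER, PRI) -/
def St_T2 : Prop := ∃ (G : Type) (_ : Group G) (Q : ℕ → Type) (_ : ∀ n, Group (Q n)) (Q' : Type)
  (_ : Group Q') (φ : ∀ n, G →* Q n) (ψ : G →* Q') (p : Cr G), (∀ n, LF (φ n)) ∧ LF ψ ∧
  (∀ g, ψ g = 1 → ∀ᶠ n in atTop, φ n g = 1) ∧ p * p = p ∧
  (∀ n, IT.tr (push (φ n) p.1) ≠ 0) ∧ push ψ p.1 = 0

/-- the theorem -/
def St_MAIN : Prop := ∀ (S : ∀ k, Spinor (8 * k + 7 + 1) (16 ^ (k + 1))) (B : SM 8),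
  ∃ (G : Type) (_ : Group G), ¬ Stolz G S B

theorem nat_of (hIND : St_IND) (hGRA : St_GRA) {φ : G →* G'} (hφ : Surjective φ) (h : PushOK φ)
    {m N : ℕ} {x : Sing G m} {S : Spinor (m + 1) N} {z : BCH.K0 (Cr G)} (hx : x.IsIndex S z) :
    (x.re φ).IsIndex S (BCH.K0.map h.hom z) := by
  obtain ⟨μ, h1, e, h2, h3, h4⟩ := hx
  have a1 := (h.mem h2).1
  have a2 := hGRA G G' φ hφ h m N x S μ e h2 h3
  have a3 := hIND G G' φ h _ e _ z h2 h4
  exact ⟨μ, h1, _, a1, a2, a3⟩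

theorem main_of (hPUSH : St_PUSH) (hKTR : St_KTR) (hIND : St_IND) (hGRA : St_GRA)
    (hLIFT : St_LIFT) (hT2 : St_T2) : St_MAIN := by
  intro S B
  by_contra hn
  push Not at hn
  obtain ⟨G, _, Q, _, Q', _, φ, ψ, p, hφ, hψ, hk, hp, htr, h0⟩ := hT2
  obtain ⟨θ, ⟨-, hθ⟩, h1⟩ := hn G inferInstance
  obtain ⟨θ', ⟨hθ', -⟩, h2⟩ := hn Q' inferInstance
  have hpp : (!![p] : Matrix (Fin 1) (Fin 1) (Cr G)) * !![p] = !![p] := by
    ext i j; fin_cases i; fin_cases j; simp [hp]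
  obtain ⟨r, hr⟩ := hθ (BCH.cls !![p])
  obtain ⟨r0, hr0⟩ := hθ 0
  obtain ⟨x, rfl⟩ := Quot.exists_rep r
  obtain ⟨y, rfl⟩ := Quot.exists_rep r0
  have hx := (h1 x _).2 hr
  have hy := (h1 y _).2 hr0
  have P := hPUSH G Q' ψ hψ
  have a1 := (h2 (x.re ψ) _).1 (nat_of hIND hGRA hψ.1 P hx)
  have a2 := (h2 (y.re ψ) _).1 (nat_of hIND hGRA hψ.1 P hy)
  have a3 : (!![p] : Matrix (Fin 1) (Fin 1) (Cr G)).map P.hom = 0 := by
    ext i j : 1; fin_cases i; fin_cases j; exact Subtype.ext h0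
  rw [BCH.map_cls _ hpp, a3, BCH.cls_zero] at a1
  rw [map_zero] at a2
  obtain ⟨n, hn'⟩ := hLIFT G Q Q' φ ψ hψ.1 hk B x y (hθ' (a1.trans a2.symm))
  obtain ⟨θn, -, h3⟩ := hn (Q n) inferInstance
  have Pn := hPUSH G (Q n) (φ n) (hφ n)
  have b1 := (h3 (x.re (φ n)) _).1 (nat_of hIND hGRA (hφ n).1 Pn hx)
  have b2 := (h3 (y.re (φ n)) _).1 (nat_of hIND hGRA (hφ n).1 Pn hy)
  rw [hn', b2, map_zero, BCH.map_cls _ hpp] at b1
  obtain ⟨τ, hτ⟩ := hKTR (Q n)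
  have b3 := hτ 1 _ (BCH.idem_map hpp Pn.hom)
  rw [← b1, map_zero] at b3
  rw [Fin.sum_univ_one] at b3
  exact htr n b3.symm

end Pool.Agent.Lib.CX
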