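import Pool.Agent.Lib.CX.ClifGr

/-! The real spinor module of `Cl_(8k)` is unique up to isometry. -/

noncomputable section

open CliffordAlgebra Module
open scoped InnerProductSpace

namespace Pool.Agent.Lib.CX

namespace Clif

section Fix

variable {W J : Type} [AddCommGroup W] [Module ℝ W] (A : J → End ℝ W)

/-- product of the projections on the fixed vectors -/
def pr (l : List J) : End ℝ W := (l.map fun i => (1 / 2 : ℝ) • (1 + A i)).prod

theorem pr_cons (a : J) (l : List J) : pr A (a :: l) = ((1 / 2 : ℝ) • (1 + A a)) * pr A l := by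
  simp [pr]

theorem pr_comm (X : End ℝ W) (l : List J) (h : ∀ i ∈ l, Commute X (A i)) : Commute X (pr A l) := by
  refine Commute.list_prod_right _ _ fun y hy => ?_
  obtain ⟨i, hi, rfl⟩ := List.mem_map.1 hy
  exact ((Commute.one_right X).add_right (h i hi)).smul_right _

theorem pr_fix (x : W) : ∀ l : List J, (∀ i ∈ l, A i x = x) → pr A l x = x
  | [], _ => by simp [pr]
  | a :: l, h => by
    rw [pr_cons, End.mul_apply, pr_fix x l fun i hi => h i (List.mem_cons_of_mem _ hi)]
    simp only [LinearMap.smul_apply, LinearMap.add_apply, End.one_apply, h a List.mem_cons_self]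
    rw [← two_smul ℝ x, smul_smul]
    norm_num

variable (hc : ∀ i j, Commute (A i) (A j)) (hs : ∀ i, A i * A i = 1)

include hc hs in
theorem mul_pr (i : J) : ∀ l : List J, i ∈ l → A i * pr A l = pr A l
  | [], h => by simp at h
  | a :: l, h => by
    rw [pr_cons, ← mul_assoc]
    rcases List.mem_cons.1 h with rfl | h
    · rw [mul_smul_comm, mul_add, mul_one, hs, add_comm]
    · rw [(((Commute.one_right _).add_right (hc i a)).smul_right _).eq, mul_assoc, mul_pr i l h]

variable [FiniteDimensional ℝ W] (B : J → End ℝ W) (hB : ∀ j, B j * B j = 1)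
  (h1 : ∀ i j, i ≠ j → Commute (B j) (A i)) (h2 : ∀ j, B j * A j = -(A j * B j))

include hB h1 h2 in
theorem trace_pr : ∀ l : List J, l.Nodup →
    2 ^ l.length * LinearMap.trace ℝ W (pr A l) = finrank ℝ W
  | [], _ => by simp [pr]
  | a :: l, hl => by
    obtain ⟨hal, hl'⟩ := List.nodup_cons.1 hl
    have ih := trace_pr l hl'
    have hp := pr_comm A (B a) l fun i hi => h1 i a fun e => hal (e ▸ hi)
    have e : B a * (A a * pr A l * B a) = -(A a * pr A l) := by
      rw [mul_assoc, ← hp.eq, ← mul_assoc, ← mul_assoc, h2, neg_mul, mul_assoc (A a), hB, mul_one,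
        neg_mul]
    have t : LinearMap.trace ℝ W (A a * pr A l) = 0 := by
      have := LinearMap.trace_mul_comm ℝ (B a) (A a * pr A l * B a)
      rw [e, mul_assoc, hB, mul_one, map_neg] at this
      linarith
    rw [pr_cons, smul_mul_assoc, add_mul, one_mul, map_smul, map_add, t, ← ih, List.length_cons,
      smul_eq_mul]
    ring

include hc hs hB h1 h2 in
theorem finrank_fix [Fintype J] :
    2 ^ Fintype.card J * finrank ℝ (⨅ i, LinearMap.ker (A i - 1) : Submodule ℝ W) = finrank ℝ W := by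
  have hp : LinearMap.IsProj (⨅ i, LinearMap.ker (A i - 1) : Submodule ℝ W)
      (pr A Finset.univ.toList) := by
    refine ⟨fun x => ?_, fun x hx => pr_fix A x _ fun i _ => ?_⟩
    · refine (Submodule.mem_iInf _).2 fun i => ?_
      rw [LinearMap.mem_ker, LinearMap.sub_apply, ← End.mul_apply,
        mul_pr A hc hs i _ (by simp), End.one_apply, sub_self]
    · simpa [sub_eq_zero] using (Submodule.mem_iInf _).1 hx i
  have := trace_pr A B hB h1 h2 _ (Finset.nodup_toList Finset.univ)
  rw [hp.trace, Finset.length_toList, Finset.card_univ] at this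
  exact_mod_cast this

end Fix

variable {R : Type} [Ring R] [Algebra ℝ R]

theorem finrank_inter [FiniteDimensional ℝ R] {J : Type} [Fintype J] (g g' : J → R) (w : R)
    (ha : ∀ i j, i ≠ j → g i * g j = -(g j * g i)) (hs : ∀ i, g i * g i = -1)
    (ha' : ∀ i j, i ≠ j → g' i * g' j = -(g' j * g' i)) (hs' : ∀ i, g' i * g' i = -1)
    (hw : w * w = 1) (hg : ∀ i, w * g i = -(g i * w)) :
    ∃ V : Submodule ℝ R, (∀ T, T ∈ V ↔ ∀ i, T * g i = g' i * T) ∧
      2 ^ Fintype.card J * finrank ℝ V = finrank ℝ R := by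
  let A : J → End ℝ R := fun i => LinearMap.mulLeftRight ℝ (-g' i, g i)
  let B : J → End ℝ R := fun j => LinearMap.mulRight ℝ (w * g j)
  have hA : ∀ i T, A i T = -g' i * T * g i := fun _ _ => rfl
  have hB : ∀ i T, B i T = T * (w * g i) := fun _ _ => rfl
  have hg' : ∀ i, g i * w = -(w * g i) := fun i => by rw [hg, neg_neg]
  refine ⟨⨅ i, LinearMap.ker (A i - 1), fun T => ?_, finrank_fix A (fun i j => ?_) (fun i => ?_) B
    (fun j => ?_) (fun i j hij => ?_) fun j => ?_⟩
  · rw [Submodule.mem_iInf]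
    refine forall_congr' fun i => ?_
    rw [LinearMap.mem_ker, LinearMap.sub_apply, End.one_apply, sub_eq_zero, hA]
    constructor
    · intro h
      rw [← h, mul_assoc _ (g i), hs, h]
      simp
    · intro h
      rw [mul_assoc, h, ← mul_assoc, neg_mul, hs']
      simp
  · by_cases e : i = j
    · rw [e]
    · ext T
      simp only [End.mul_apply, hA]
      calc -g' i * (-g' j * T * g j) * g i = (g' i * g' j) * T * (g j * g i) := by
            simp only [neg_mul, mul_neg, neg_neg, mul_assoc]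
        _ = (g' j * g' i) * T * (g i * g j) := by rw [ha' i j e, ha i j e]; simp
        _ = _ := by simp only [neg_mul, mul_neg, neg_neg, mul_assoc]
  · ext T
    simp only [End.mul_apply, hA, End.one_apply]
    calc -g' i * (-g' i * T * g i) * g i = (g' i * g' i) * T * (g i * g i) := by
          simp only [neg_mul, mul_neg, neg_neg, mul_assoc]
      _ = T := by rw [hs, hs']; simp
  · ext T
    simp only [End.mul_apply, hB, End.one_apply]
    calc T * (w * g j) * (w * g j) = T * (w * (g j * w) * g j) := by simp only [mul_assoc]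
      _ = -(T * ((w * w) * (g j * g j))) := by rw [hg']; simp only [neg_mul, mul_neg, mul_assoc]
      _ = T := by rw [hs, hw]; simp
  · ext T
    simp only [End.mul_apply, hA, hB]
    calc -g' i * T * g i * (w * g j) = -g' i * T * ((g i * w) * g j) := by simp only [mul_assoc]
      _ = -g' i * T * (w * -(g i * g j)) := by rw [hg']; simp only [neg_mul, mul_neg, mul_assoc]
      _ = _ := by rw [ha i j hij]; simp only [neg_neg, mul_assoc]
  · ext T
    simp only [End.mul_apply, hA, hB, LinearMap.neg_apply]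
    calc -g' j * T * g j * (w * g j) = -g' j * T * ((g j * w) * g j) := by simp only [mul_assoc]
      _ = _ := by rw [hg']; simp only [neg_mul, mul_neg, mul_assoc]

end Clif

namespace Spinor

open Clif

variable {n N : ℕ}

theorem inter_of_bv (S S' : Spinor n N) {T : Eu N →L[ℝ] Eu N}
    (h : ∀ i, T * S.c (ι (Qn n) (bv i)) = S'.c (ι (Qn n) (bv i)) * T) (x : Cl n) :
    T * S.c x = S'.c x * T := by
  induction x using CliffordAlgebra.induction with
  | algebraMap r => rw [AlgHom.commutes, AlgHom.commutes, Algebra.commutes]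
  | ι v =>
    rw [sum_bv v]
    simp only [map_sum, map_smul, Finset.mul_sum, Finset.sum_mul]
    refine Finset.sum_congr rfl fun i _ => ContinuousLinearMap.ext fun u => ?_
    have := congrArg (fun A => A u) (h i)
    simp only [mul_apply_eq_comp] at this
    simp only [mul_apply_eq_comp, _root_.smul_apply, map_smul, this]
  | mul a b ha hb => rw [map_mul, map_mul, ← mul_assoc, ha, mul_assoc, hb, mul_assoc]
  | add a b ha hb => rw [map_add, map_add, mul_add, add_mul, ha, hb]

theorem exists_inter {k : ℕ} (hn : n = 8 * k) (S S' : Spinor n (16 ^ k)) :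
    ∃ V : Submodule ℝ (Eu (16 ^ k) →L[ℝ] Eu (16 ^ k)),
      (∀ T, T ∈ V ↔ ∀ x, T * S.c x = S'.c x * T) ∧ finrank ℝ V = 1 := by
  have h4 : 4 ∣ n := ⟨2 * k, by omega⟩
  have h2 : Even n := ⟨4 * k, by omega⟩
  have a : ∀ (S : Spinor n (16 ^ k)) i j, i ≠ j → S.c (ι (Qn n) (bv i)) * S.c (ι (Qn n) (bv j)) =
      -(S.c (ι (Qn n) (bv j)) * S.c (ι (Qn n) (bv i))) := fun S i j h => by
    rw [← map_mul S.c, bv_anti i j h, map_neg, map_mul]
  have s : ∀ (S : Spinor n (16 ^ k)) i, S.c (ι (Qn n) (bv i)) * S.c (ι (Qn n) (bv i)) = -1 :=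
    fun S i => by rw [← map_mul S.c, bv_sq, map_neg, map_one]
  obtain ⟨V, hV, hr⟩ := finrank_inter (fun i => S.c (ι (Qn n) (bv i)))
    (fun i => S'.c (ι (Qn n) (bv i))) S.gr (a S) (s S) (a S') (s S') (S.gr_mul_gr h4)
    fun i => S.gr_mul_ι h2 _
  refine ⟨V, fun T => (hV T).trans ⟨inter_of_bv S S', fun h i => h _⟩, ?_⟩
  rw [← (LinearMap.toContinuousLinearMap (𝕜 := ℝ) (E := Eu (16 ^ k))
    (F' := Eu (16 ^ k))).finrank_eq, finrank_linearMap, finrank_euclideanSpace_fin,
    Fintype.card_fin, hn, ← mul_pow, pow_mul] at hr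
  norm_num at hr
  exact hr

/-- the commutant of the spinor module consists of scalars -/
theorem commutant {k : ℕ} (hn : n = 8 * k) (S : Spinor n (16 ^ k))
    (T : Eu (16 ^ k) →L[ℝ] Eu (16 ^ k)) (h : ∀ x, T * S.c x = S.c x * T) :
    ∃ r : ℝ, T = r • 1 := by
  obtain ⟨V, hV, hr⟩ := exists_inter hn S S
  have h1 : (1 : Eu (16 ^ k) →L[ℝ] Eu (16 ^ k)) ∈ V := (hV 1).2 fun x => by simp
  have : Nontrivial (Eu (16 ^ k)) := Module.nontrivial_of_finrank_pos (R := ℝ) (by
    rw [finrank_euclideanSpace_fin]; positivity)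
  obtain ⟨r, hr⟩ := (finrank_eq_one_iff_of_nonzero' (⟨1, h1⟩ : V)
    (fun e => one_ne_zero (congrArg Subtype.val e))).1 hr ⟨T, (hV T).2 h⟩
  exact ⟨r, (congrArg Subtype.val hr).symm⟩

/-- the spinor module is unique up to isometry -/
theorem unique' {k : ℕ} (hn : n = 8 * k) (S S' : Spinor n (16 ^ k)) :
    ∃ U : Eu (16 ^ k) ≃ₗᵢ[ℝ] Eu (16 ^ k), ∀ x u, U (S.c x u) = S'.c x (U u) := by
  obtain ⟨V, hV, hr⟩ := exists_inter hn S S'
  obtain ⟨T, hT, hT0⟩ := Submodule.exists_mem_ne_zero_of_ne_bot (p := V) (by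
    rintro rfl
    simp at hr)
  have hT1 := (hV T).1 hT
  have hT2 : ∀ x, star T * S'.c x = S.c x * star T := fun x => by
    have := congrArg star (hT1 (star x))
    rw [star_mul, star_mul, ContinuousLinearMap.star_eq_adjoint (S.c _),
      ContinuousLinearMap.star_eq_adjoint (S'.c _), S.adjoint_c, S'.adjoint_c, star_star] at this
    exact this.symm
  obtain ⟨r, hr⟩ := commutant hn S (star T * T) fun x => by
    rw [mul_assoc, hT1, ← mul_assoc, hT2, mul_assoc]
  have hn2 : ∀ u, ‖T u‖ ^ 2 = r * ‖u‖ ^ 2 := fun u => by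
    rw [← real_inner_self_eq_norm_sq, ← ContinuousLinearMap.adjoint_inner_right,
      ← ContinuousLinearMap.star_eq_adjoint, ← mul_apply_eq_comp, hr]
    simp [real_inner_smul_right]
  have hr0 : 0 < r := by
    by_contra hle
    refine hT0 (ContinuousLinearMap.ext fun u => ?_)
    have := hn2 u
    have h' : ‖T u‖ ^ 2 ≤ 0 := by nlinarith [sq_nonneg ‖u‖]
    exact norm_eq_zero.1 (pow_eq_zero_iff two_ne_zero |>.1 (le_antisymm h' (sq_nonneg _)))
  have hq : 0 < √r := Real.sqrt_pos.2 hr0
  let U : Eu (16 ^ k) →ₗᵢ[ℝ] Eu (16 ^ k) := ⟨(√r)⁻¹ • T.toLinearMap, fun u => by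
    have : ‖T u‖ = √r * ‖u‖ := (pow_left_inj₀ (norm_nonneg _) (by positivity) two_ne_zero).1 (by
      rw [hn2, mul_pow, Real.sq_sqrt hr0.le])
    change ‖(√r)⁻¹ • T u‖ = ‖u‖
    rw [norm_smul, this, Real.norm_of_nonneg (by positivity), inv_mul_cancel_left₀ hq.ne']⟩
  refine ⟨U.toLinearIsometryEquiv rfl, fun x u => ?_⟩
  change (√r)⁻¹ • T (S.c x u) = S'.c x ((√r)⁻¹ • T u)
  rw [map_smul, ← mul_apply_eq_comp, hT1]
  rfl

theorem unique (k : ℕ) (S S' : Spinor (8 * k + 7 + 1) (16 ^ (k + 1))) :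
    ∃ U : Eu (16 ^ (k + 1)) ≃ₗᵢ[ℝ] Eu (16 ^ (k + 1)), ∀ x u, U (S.c x u) = S'.c x (U u) :=
  unique' (by ring) S S'

end Spinor

end Pool.Agent.Lib.CX
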