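import Pool.Agent.Lib.BCH.KDefs
import Pool.Agent.Lib.BCH.Op24

/-! The Stolz group of positive scalar curvature bordism and the higher index: definitions. -/

noncomputable section

open Set Function MeasureTheory CliffordAlgebra BCO
open scoped Manifold ContDiff InnerProductSpace

namespace Pool.Agent.Lib.CX

/-! ### Clifford algebras -/

/-- Euclidean space. -/
abbrev Eu (n : ℕ) : Type := EuclideanSpace ℝ (Fin n)

/-- The negative definite form `-|v|²`. -/
def Qn (n : ℕ) : QuadraticForm ℝ (Eu n) := -LinearMap.BilinMap.toQuadraticMap (innerₗ (Eu n))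

/-- The Clifford algebra `Cl_n`, with `v² = -|v|²`. -/
abbrev Cl (n : ℕ) : Type := CliffordAlgebra (Qn n)

/-- The standard basis. -/
def bv {n : ℕ} (i : Fin n) : Eu n := EuclideanSpace.single i 1

/-- The isometric inclusion of Euclidean spaces along an injection of the coordinates. -/
def inc {p n : ℕ} (f : Fin p ↪ Fin n) : (Qn p).Isometry (Qn n) where
  toFun v := ∑ i, v i • bv (f i)
  map_add' u v := by simp [add_smul, Finset.sum_add_distrib]
  map_smul' r v := by simp [Finset.smul_sum, smul_smul]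
  map_app' v := by
    have h : Orthonormal ℝ fun i => bv (f i) :=
      (EuclideanSpace.orthonormal_single (𝕜 := ℝ)).comp f f.injective
    have := h.inner_sum (fun i => v i) (fun i => v i) Finset.univ
    simp only [Qn, _root_.neg_apply, LinearMap.BilinMap.toQuadraticMap_apply, innerₗ_apply_apply]
    rw [this, PiLp.inner_apply]
    simp [sq]

/-- The first `p` coordinates. -/
def il {p q n : ℕ} (h : p + q = n) : Fin p ↪ Fin n := (Fin.castAddEmb q).trans (finCongr h).toEmbedding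

/-- The last `q` coordinates. -/
def ir {p q n : ℕ} (h : p + q = n) : Fin q ↪ Fin n := (Fin.natAddEmb p).trans (finCongr h).toEmbedding

/-- Smoothness of a map into the (finite dimensional) Clifford algebra. -/
def SmC {E H Z : Type} [NormedAddCommGroup E] [NormedSpace ℝ E] [TopologicalSpace H]
    (I : ModelWithCorners ℝ E H) [TopologicalSpace Z] [ChartedSpace H Z] {n : ℕ} (s : Z → Cl n)
    (O : Set Z) : Prop :=
  ∀ l : Cl n →ₗ[ℝ] ℝ, ContMDiffOn I 𝓘(ℝ, ℝ) ∞ (fun z => l (s z)) O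

/-- `s` lies in `Spin(n)` and `s (κ v) s⁻¹ = A v` for all `v`. -/
def Covers {n : ℕ} {W : Type} (s : Cl n) (κ A : W → Eu n) : Prop :=
  s ∈ spinGroup (Qn n) ∧ ∀ v, ι (Qn n) (A v) * s = s * ι (Qn n) (κ v)

/-- A real spinor module: Clifford multiplication by vectors is skew. -/
structure Spinor (n N : ℕ) where
  c : Cl n →ₐ[ℝ] (Eu N →L[ℝ] Eu N)
  skew : ∀ v u w, ⟪c (ι (Qn n) v) u, w⟫_ℝ = -⟪u, c (ι (Qn n) v) w⟫_ℝ

/-- The grading operator: the action of the volume element `e_1 ⋯ e_n`. -/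
def Spinor.gr {n N : ℕ} (S : Spinor n N) : Eu N →L[ℝ] Eu N :=
  S.c (List.ofFn fun i => ι (Qn n) (bv i)).prod

/-! ### Riemannian spin manifolds -/

/-- A Riemannian spin manifold without boundary: smooth local frames `F a` on open sets `U a`
(they define the metric, for which they are orthonormal, and the orientation), whose transition
functions are covered by a smooth cocycle `s` with values in `Spin(n)`. -/
structure SM (n : ℕ) where
  M : Type
  [top : TopologicalSpace M]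
  [t2 : T2Space M]
  [ch : ChartedSpace (Eu n) M]
  [mf : IsManifold (𝓡 n) ∞ M]
  U : ℕ → Set M
  F : ℕ → ∀ x : M, Eu n ≃L[ℝ] TangentSpace (𝓡 n) x
  s : ℕ → ℕ → M → Cl n
  isOpen : ∀ a, IsOpen (U a)
  cover : ∀ x, ∃ a, x ∈ U a
  smooth : ∀ a v, ContMDiffOn (𝓡 n) (𝓡 n).tangent ∞
    (fun x => (⟨x, F a x v⟩ : TangentBundle (𝓡 n) M)) (U a)
  spin : ∀ a b, ∀ x ∈ U a ∩ U b, Covers (s a b x) id fun v => (F a x).symm (F b x v)
  smc : ∀ a b, SmC (𝓡 n) (s a b) (U a ∩ U b)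
  cocycle : ∀ a b c, ∀ x ∈ U a ∩ U b ∩ U c, s a b x * s b c x = s a c x

attribute [instance] SM.top SM.t2 SM.ch SM.mf

instance {n : ℕ} (X : SM n) : MeasurableSpace X.M := borel X.M

/-- Euclidean space with its standard frame. -/
abbrev flat (n : ℕ) : SM n where
  M := Eu n
  U _ := univ
  F _ _ := ContinuousLinearEquiv.refl ℝ (Eu n)
  s _ _ _ := 1
  isOpen _ := isOpen_univ
  cover _ := ⟨0, trivial⟩
  smooth _ v := by
    rw [contMDiffOn_univ]
    exact contMDiff_vectorSpace_iff_contDiff.2 contDiff_const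
  spin _ _ _ _ := ⟨one_mem _, fun _ => (mul_one _).trans (one_mul _).symm⟩
  smc _ _ _ := contMDiffOn_const
  cocycle _ _ _ _ _ := one_mul _

namespace SM

variable {n : ℕ} (X : SM n)

/-- The vector fields of the frame `a`. -/
def e (a : ℕ) (i : Fin n) (x : X.M) : TangentSpace (𝓡 n) x := X.F a x (bv i)

/-- The derivative along `e_i`. -/
def dd {S : Type} [NormedAddCommGroup S] [NormedSpace ℝ S] (a : ℕ) (i : Fin n) (φ : X.M → S)
    (x : X.M) : S := mfderiv (𝓡 n) 𝓘(ℝ, S) φ x (X.e a i x)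

/-- The structure constants `⟨[e_i, e_j], e_k⟩`. -/
def cc (a : ℕ) (i j k : Fin n) (x : X.M) : ℝ :=
  (X.F a x).symm (VectorField.mlieBracket (𝓡 n) (X.e a i) (X.e a j) x) k

/-- The Levi-Civita coefficients `⟨∇_{e_i} e_j, e_k⟩` (Koszul formula). -/
def ga (a : ℕ) (i j k : Fin n) (x : X.M) : ℝ :=
  (X.cc a i j k x - X.cc a j k i x + X.cc a k i j x) / 2

/-- The first frame defined at a point. -/
def fr (x : X.M) : ℕ := sInf {a | x ∈ X.U a}

/-- The curvature `⟨R(e_i, e_j) e_k, e_l⟩`. -/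
def riem (a : ℕ) (i j k l : Fin n) (x : X.M) : ℝ :=
  X.dd a i (X.ga a j k l) x - X.dd a j (X.ga a i k l) x +
    ∑ m, (X.ga a j k m x * X.ga a i m l x - X.ga a i k m x * X.ga a j m l x -
      X.cc a i j m x * X.ga a m k l x)

/-- The scalar curvature. -/
def scal (x : X.M) : ℝ := ∑ i, ∑ j, X.riem (X.fr x) i j j i x

/-- The spin Dirac operator in the frame `a`. -/
def dirac {N : ℕ} (S : Spinor n N) (a : ℕ) (ψ : X.M → Eu N) (x : X.M) : Eu N :=
  ∑ i, S.c (ι (Qn n) (bv i)) (X.dd a i ψ x + (1 / 4 : ℝ) •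
    ∑ j, ∑ k, X.ga a i j k x • S.c (ι (Qn n) (bv j) * ι (Qn n) (bv k)) (ψ x))

/-- `μ` is the Riemannian volume. -/
def IsVol (μ : Measure X.M) : Prop :=
  ∀ x₀ a (A : Set X.M), MeasurableSet A → A ⊆ (chartAt (Eu n) x₀).source ∩ X.U a →
    μ A = ∫⁻ y in chartAt (Eu n) x₀ '' A, ENNReal.ofReal |ContinuousLinearMap.det
      ((mfderiv (𝓡 n) (𝓡 n) (chartAt (Eu n) x₀) ((chartAt (Eu n) x₀).symm y)).comp
        (X.F a ((chartAt (Eu n) x₀).symm y)).toContinuousLinearMap : Eu n →L[ℝ] Eu n)|⁻¹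

end SM

/-- On the open set `O`, the map `ψ` is an isometric spin embedding of the product `X × Y`. -/
def IsProd {p q n : ℕ} (h : p + q = n) (X : SM p) (Y : SM q) (Z : SM n) (ψ : X.M × Y.M → Z.M)
    (O : Set (X.M × Y.M)) : Prop :=
  IsLocalDiffeomorphOn ((𝓡 p).prod (𝓡 q)) (𝓡 n) ∞ ψ O ∧ InjOn ψ O ∧
  ∃ t : ℕ × ℕ × ℕ → X.M × Y.M → Cl n,
    let D : ℕ × ℕ × ℕ → Set (X.M × Y.M) := fun a =>
      {z ∈ O | z.1 ∈ X.U a.1 ∧ z.2 ∈ Y.U a.2.1 ∧ ψ z ∈ Z.U a.2.2}
    (∀ a, SmC ((𝓡 p).prod (𝓡 q)) (t a) (D a)) ∧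
    (∀ a, ∀ z ∈ D a, Covers (t a z) (fun v : Eu p × Eu q => inc (il h) v.1 + inc (ir h) v.2)
      fun v => (Z.F a.2.2 (ψ z)).symm
        (mfderiv ((𝓡 p).prod (𝓡 q)) (𝓡 n) ψ z (X.F a.1 z.1 v.1, Y.F a.2.1 z.2 v.2))) ∧
    ∀ a b, ∀ z ∈ D a ∩ D b, Z.s a.2.2 b.2.2 (ψ z) * t b z =
      t a z * (CliffordAlgebra.map (inc (il h)) (X.s a.1 b.1 z.1) *
        CliffordAlgebra.map (inc (ir h)) (Y.s a.2.1 b.2.1 z.2))

/-! ### The classifying space -/

/-- The standard simplex on the vertices `0, …, n - 1`. -/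
def Sx (n : ℕ) : Set (ℕ → ℝ) :=
  {t | (∀ i, 0 ≤ t i) ∧ (∀ i, n ≤ i → t i = 0) ∧ ∑ i ∈ Finset.range n, t i = 1}

/-- The classifying space: the infinite join `G * G * ⋯` with the weak (CW) topology, modulo the
right action of `G`. A point `∑ t_i g_i` of the join is a point `t` of the simplex `(n, g)`. -/
def BG (G : Type) [Group G] : Type :=
  Quot fun p q : Σ σ : ℕ × (ℕ → G), Sx σ.1 => p.2.1 = q.2.1 ∧
    ∀ i j, p.2.1 i ≠ 0 → p.2.1 j ≠ 0 → p.1.2 i * (p.1.2 j)⁻¹ = q.1.2 i * (q.1.2 j)⁻¹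

variable {G : Type} [Group G]

instance : TopologicalSpace (BG G) := inferInstanceAs (TopologicalSpace (Quot _))

/-- The join coordinates. -/
def BG.t : BG G → ℕ → ℝ := Quot.lift (fun p => p.2.1) fun _ _ h => h.1

open Classical in
/-- The transition cocycle `g_i g_j⁻¹` of the universal covering. -/
def BG.co (i j : ℕ) : BG G → G :=
  Quot.lift (fun p => if p.2.1 i ≠ 0 ∧ p.2.1 j ≠ 0 then p.1.2 i * (p.1.2 j)⁻¹ else 1)
    fun p q h => by
      rw [← h.1]
      split_ifs with h'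
      · exact h.2 i j h'.1 h'.2
      · rfl

/-- The first join coordinate that does not vanish. -/
def BG.ix (p : BG G) : ℕ := sInf {i | p.t i ≠ 0}

/-! ### The Stolz group -/

variable (G) in
/-- A compact spin manifold `L = core` of dimension `m + 1` with boundary `N` and a map to `BG`,
recorded with a half cylinder attached: the metric is a product on the collar `0 < t ≤ 1`, the
boundary is `t = 1`, and the map does not depend on `t ≥ 1`. -/
structure Sing (m : ℕ) where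
  X : SM (m + 1)
  N : SM m
  j : N.M × Eu 1 → X.M
  f : X.M → BG G
  cpt : CompactSpace N.M
  prod : IsProd rfl N (flat 1) X j {z | 0 < z.2 0}
  core_cpt : IsCompact (j '' {z | 1 < z.2 0})ᶜ
  closed : IsClosed (j '' {z | 1 ≤ z.2 0})
  cont : Continuous f
  cyl : ∀ y t, 1 ≤ t 0 → f (j (y, t)) = f (j (y, bv 0))

variable {m : ℕ}

/-- The compact manifold with boundary. -/
def Sing.core (x : Sing G m) : Set x.X.M := (x.j '' {z | 1 < z.2 0})ᶜ

/-- The open neighbourhood `t < 2` of the core. -/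
def Sing.nbd (x : Sing G m) : Set x.X.M := (x.j '' {z | 2 ≤ z.2 0})ᶜ

/-- Bordism: `x.core` (outgoing) and `y.core` (incoming) lie in the boundary of a compact spin
manifold `w.core`, the rest `V` of that boundary has positive scalar curvature and product collars,
and the maps to `BG` extend. -/
def Bord (x y : Sing G m) : Prop :=
  ∃ (w : Sing G (m + 1)) (α : x.X.M → w.N.M) (β : y.X.M → w.N.M),
    IsProd rfl x.X (flat 1) w.X (fun z => w.j (α z.1, z.2)) {z | z.1 ∈ x.nbd ∧ 0 < z.2 0} ∧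
    IsProd rfl y.X (flat 1) w.X (fun z => w.j (β z.1, -z.2)) {z | z.1 ∈ y.nbd ∧ z.2 0 < 0} ∧
    Disjoint (α '' x.nbd) (β '' y.nbd) ∧
    (∀ p, p ∉ α '' x.core → p ∉ β '' y.core → 0 < w.N.scal p) ∧
    (∀ p ∈ x.core, w.f (w.j (α p, bv 0)) = x.f p) ∧ ∀ p ∈ y.core, w.f (w.j (β p, bv 0)) = y.f p

/-- `y` is the product of `x` with `B`. -/
def IsBott (B : SM 8) {m' : ℕ} (x : Sing G m) (y : Sing G m') : Prop :=
  ∃ (h : m + 1 + 8 = m' + 1) (ψ : x.X.M × B.M → y.X.M), IsProd h x.X B y.X ψ univ ∧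
    Surjective ψ ∧ ∀ z, (ψ z ∈ y.core ↔ z.1 ∈ x.core) ∧ y.f (ψ z) = x.f z.1

variable (G) in
/-- The triples `(L, f, h)` of dimension `8 k + 8`: the boundary has positive scalar curvature. -/
def Cyc : Type 1 := Σ k : ℕ, {x : Sing G (8 * k + 7) // ∀ y, 0 < x.N.scal y}

variable (G) in
/-- The direct limit `R_0(BG)[B⁻¹]` of `R_8 → R_16 → ⋯`. -/
def RB (B : SM 8) : Type 1 :=
  Quot fun x y : Cyc G =>
    (∃ k a b, x = ⟨k, a⟩ ∧ y = ⟨k, b⟩ ∧ Bord a.1 b.1) ∨ IsBott B x.2.1 y.2.1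

/-! ### The higher index -/

section Index

variable {E : Type} [NormedAddCommGroup E] [NormedSpace ℝ E]

variable (G) in
/-- The real reduced group C*-algebra. -/
abbrev Cr : Type := RA G ℝ

variable (G E) in
/-- The closed span of the operators `λ(g) ⊗ T`, `T` compact. -/
def KK : Submodule ℝ (V G E →L[ℝ] V G E) :=
  (Submodule.span ℝ {A | ∃ (g : G) (T : E →L[ℝ] E), IsCompactOperator T ∧ A = tw g T}).topologicalClosure

/-- The operator `a ⊕ q` on `ℓ²(G, E ⊕ ℝ^r)`. -/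
def blk {r : ℕ} (a : V G E →L[ℝ] V G E) (q : Matrix (Fin r) (Fin r) (Cr G)) :
    V G (E × (Fin r → ℝ)) →L[ℝ] V G (E × (Fin r → ℝ)) :=
  amp G (.inl ℝ E _) ∘L a ∘L amp G (.fst ℝ E _) + ∑ i, ∑ j,
    amp G (.inr ℝ E _ ∘L .single ℝ (fun _ => ℝ) i) ∘L (q i j).1 ∘L amp G (.proj j ∘L .snd ℝ E _)

/-- `z = [p] - [q]` is the Mishchenko-Fomenko index of `P e : im e → im P`: a compact perturbation
of `P e ⊕ 0` is an isomorphism from `im e ⊕ im q` to `im P ⊕ im p`. -/
def IsInd (e P : V G E →L[ℝ] V G E) (z : BCH.K0 (Cr G)) : Prop :=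
  ∃ (r : ℕ) (p q : Matrix (Fin r) (Fin r) (Cr G)), p * p = p ∧ q * q = q ∧
    ∃ x ∈ RA G (E × (Fin r → ℝ)), ∃ y ∈ RA G (E × (Fin r → ℝ)), x * y = blk P p ∧ y * x = blk e q ∧
      x - blk (P * e) 0 ∈ KK G (E × (Fin r → ℝ)) ∧ z = BCH.cls p - BCH.cls q

end Index

variable {N : ℕ}

open Classical in
/-- The spinor field on the pulled back `G`-covering that lives on the sheet `g_i = g` and has the
components `φ` in the frame `a`, written in the trivialisation by the first frame and the first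
join coordinate at each point. -/
def Sing.sec (x : Sing G m) (S : Spinor (m + 1) N) (a i : ℕ) (g : G) (φ : x.X.M → Eu N) (γ : G)
    (p : x.X.M) : Eu N :=
  if (x.f p).co i (x.f p).ix * γ = g then S.c (x.X.s (x.X.fr p) a p) (φ p) else 0

/-- `e` is the projection onto the graph of `D⁺`: for all test sections, it fixes `σ + D σ` if `σ`
is positive and kills `σ - D σ` if `σ` is negative. -/
def Sing.IsGraph (x : Sing G m) (S : Spinor (m + 1) N) (μ : Measure x.X.M)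
    (e : V G (Lp (Eu N) 2 μ) →L[ℝ] V G (Lp (Eu N) 2 μ)) : Prop :=
  ∀ a i g (ψ : x.X.M → Eu N), ContMDiff (𝓡 (m + 1)) 𝓘(ℝ, Eu N) ∞ ψ → HasCompactSupport ψ →
    tsupport ψ ⊆ x.X.U a ∩ {p | (x.f p).t i ≠ 0} →
    let P : x.X.M → Eu N := fun p => (1 / 2 : ℝ) • (ψ p + S.gr (ψ p))
    ∃ ξ η : V G (Lp (Eu N) 2 μ), e ξ = η ∧ ∀ γ,
      ξ γ =ᵐ[μ] x.sec S a i g (ψ + x.X.dirac S a fun p => S.gr (ψ p)) γ ∧
      η γ =ᵐ[μ] x.sec S a i g (P + x.X.dirac S a P) γ

/-- `z` is the higher index of the equivariant Dirac operator `D⁺` on the covering of the manifold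
with the cylinder attached. -/
def Sing.IsIndex (x : Sing G m) (S : Spinor (m + 1) N) (z : BCH.K0 (Cr G)) : Prop :=
  ∃ μ, x.X.IsVol μ ∧ ∃ e ∈ RA G (Lp (Eu N) 2 μ), x.IsGraph S μ e ∧
    IsInd e (amp G (((1 / 2 : ℝ) • (1 - S.gr)).compLpL 2 μ)) z

variable (G) in
/-- The Stolz conjecture for `G` in degree `0`, as a statement about sets: the higher index
induces a bijection from `R_0(BG)[B⁻¹]` to `KO_0(C*_r G)`. -/
def Stolz (S : ∀ k, Spinor (8 * k + 7 + 1) (16 ^ (k + 1))) (B : SM 8) : Prop :=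
  ∃ θ : RB G B → BCH.K0 (Cr G), Bijective θ ∧
    ∀ (x : Cyc G) z, x.2.1.IsIndex (S x.1) z ↔ θ (Quot.mk _ x) = z

end Pool.Agent.Lib.CX
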