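import Pool.Agent.Lib.CX.Blue

/-! GRA: the graph projection is natural. -/

noncomputable section

open Set Function Filter Topology MeasureTheory BCO
open scoped Manifold ContDiff

namespace Pool.Agent.Lib.CX

namespace GRA

variable {G G' : Type} [Group G] [Group G']

theorem coe_sum {α E ι : Type} [MeasurableSpace α] {μ : Measure α} [NormedAddCommGroup E]
    (T : Finset ι) (f : ι → Lp E 2 μ) (u : ι → α → E) (h : ∀ i, f i =ᵐ[μ] u i) :
    (∑ i ∈ T, f i : Lp E 2 μ) =ᵐ[μ] fun p => ∑ i ∈ T, u i p := by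
  classical
  induction T using Finset.induction_on with
  | empty => exact Lp.coeFn_zero E 2 μ
  | insert a T ha ih =>
    rw [Finset.sum_insert ha]
    filter_upwards [Lp.coeFn_add (f a) (∑ i ∈ T, f i), ih, h a] with p h1 h2 h3
    rw [h1, Pi.add_apply, h2, h3, Finset.sum_insert ha]

/-- a finitely supported vector -/
def ofFin {E : Type} [NormedAddCommGroup E] (f : G → E) (t : Finset G) (h : ∀ x ∉ t, f x = 0) :
    V G E :=
  ⟨f, (memℓp_zero (t.finite_toSet.subset fun x hx => by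
    by_contra hc; exact hx (h x hc))).of_exponent_ge (by simp)⟩

theorem key (hBG1 : St_BG1) (hFIN : St_FIN) (φ : G →* G') {m N : ℕ} (x : Sing G m)
    (S : Spinor (m + 1) N) (μ : Measure x.X.M) (a i : ℕ) (g : G) (Φ : x.X.M → Eu N)
    (ξ : V G (Lp (Eu N) 2 μ)) (hξ : ∀ γ, ξ γ =ᵐ[μ] x.sec S a i g Φ γ) :
    ∃ ξ' : V G' (Lp (Eu N) 2 μ), VPush φ ξ ξ' ∧
      ∀ γ', ξ' γ' =ᵐ[μ] (x.re φ).sec S a i (φ g) Φ γ' := by
  classical
  obtain ⟨n, s, hs⟩ := hFIN G m x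
  obtain ⟨-, -, -, -, -, h6, h7⟩ := hBG1 G G'
  have hf : (x.re φ).f = BG.mp φ ∘ x.f := x.re_f ((h7 φ).1.comp x.cont)
  set T : Finset G := s.image fun c => c⁻¹ * g with hT
  have h0 : ∀ γ ∉ T, ξ γ = 0 := by
    intro γ hγ
    refine Lp.ext ((hξ γ).trans ?_)
    filter_upwards [Lp.coeFn_zero (Eu N) 2 μ] with p hp
    rw [hp, Sing.sec, if_neg]
    · rfl
    · intro hc
      refine hγ (Finset.mem_image.2 ⟨_, (hs p).2 i (x.f p).ix, ?_⟩)
      rw [← hc, inv_mul_cancel_left]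
  refine ⟨ofFin (fun γ' => ∑ γ ∈ T with φ γ = γ', ξ γ) (T.image φ) ?_, ⟨T, h0, fun γ' => ?_⟩,
    fun γ' => ?_⟩
  · intro γ' hγ'
    refine Finset.sum_eq_zero fun γ hγ => ?_
    rw [Finset.mem_filter] at hγ
    exact absurd (Finset.mem_image.2 ⟨γ, hγ.1, hγ.2⟩) hγ'
  · show (∑ γ ∈ T with φ γ = γ', ξ γ) = _
    congr
  · refine (coe_sum (T.filter fun γ => φ γ = γ') (fun γ => ξ γ) _ hξ).trans
      (Eventually.of_forall fun p => ?_)
    have e1 : ((x.re φ).f p).co i ((x.re φ).f p).ix = φ ((x.f p).co i (x.f p).ix) := by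
      rw [hf, comp_apply, (h6 φ _).2.1, (h7 φ).2]
    set c := (x.f p).co i (x.f p).ix with hc
    have hcT : c⁻¹ * g ∈ T := Finset.mem_image.2 ⟨_, (hs p).2 i (x.f p).ix, rfl⟩
    simp only [Sing.sec]
    rw [e1, ← hc]
    by_cases h : φ c * γ' = φ g
    · rw [if_pos h, Finset.sum_eq_single (c⁻¹ * g)]
      · rw [if_pos (mul_inv_cancel_left c g)]; rfl
      · intro γ _ hγ
        refine if_neg fun hc' => hγ ?_
        rw [← hc', inv_mul_cancel_left]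
      · intro hn
        refine absurd (Finset.mem_filter.2 ⟨hcT, ?_⟩) hn
        rw [map_mul, map_inv, ← h, inv_mul_cancel_left]
    · rw [if_neg h]
      refine Finset.sum_eq_zero fun γ hγ => if_neg fun hc' => h ?_
      rw [← (Finset.mem_filter.1 hγ).2, ← map_mul, hc']

end GRA

theorem stGRA (hBG1 : St_BG1) (hFIN : St_FIN) : St_GRA := by
  intro G G' _ _ φ hφ hP m N x S μ e he hx a i g' ψ h1 h2 h3
  obtain ⟨g, rfl⟩ := hφ g'
  obtain ⟨-, -, -, -, -, h6, h7⟩ := hBG1 G G'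
  have hf : (x.re φ).f = BG.mp φ ∘ x.f := x.re_f ((h7 φ).1.comp x.cont)
  have h3' : tsupport ψ ⊆ x.X.U a ∩ {p | (x.f p).t i ≠ 0} := by
    intro p hp
    refine ⟨(h3 hp).1, ?_⟩
    have := (h3 hp).2
    rw [mem_ofPred_eq, hf, comp_apply, (h6 φ _).1] at this
    exact this
  obtain ⟨ξ, η, h4, h5⟩ := hx a i g ψ h1 h2 h3'
  obtain ⟨ξ', a1, a2⟩ := GRA.key hBG1 hFIN φ x S μ a i g _ ξ fun γ => (h5 γ).1
  obtain ⟨η', b1, b2⟩ := GRA.key hBG1 hFIN φ x S μ a i g _ η fun γ => (h5 γ).2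
  exact ⟨ξ', η', hP.vec he a1 (h4 ▸ b1), fun γ => ⟨a2 γ, b2 γ⟩⟩

end Pool.Agent.Lib.CX
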