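import Pool.Agent.Lib.CX.Blue

/-! Block T2: the chain of groups with the projection. -/

noncomputable section

open Set Function Filter Topology BCO

namespace Pool.Agent.Lib.CX

open IT

variable {G G' : Type} [Group G] [Group G']

theorem T2.push_piA {φ : G →* G'} (h : PushOK φ) (a : MonoidAlgebra ℝ G) :
    push φ (piA (1 : G →* ℝ →L[ℝ] ℝ) a) =
      piA (1 : G' →* ℝ →L[ℝ] ℝ) (MonoidAlgebra.mapDomainAlgHom ℝ ℝ φ a) := by
  induction a using MonoidAlgebra.induction_linear with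
  | zero =>
    have := h.smul (0 : ℝ) (T := (0 : V G ℝ →L[ℝ] V G ℝ)) (zero_mem _)
    simpa using this
  | add a b ha hb =>
    rw [map_add, h.add (piA_mem _ a) (piA_mem _ b), ha, hb, map_add, map_add]
  | single g c =>
    rw [piA_single, h.smul c (tw_mem _ _), h.tw]
    simp [piA_single]

theorem T2.push_lim {φ : G →* G'} (h : PushOK φ) {a : MonoidAlgebra ℝ G}
    {a' : MonoidAlgebra ℝ G'} (ha : MonoidAlgebra.mapDomainAlgHom ℝ ℝ φ a = a')
    {p : V G ℝ →L[ℝ] V G ℝ} {p' : V G' ℝ →L[ℝ] V G' ℝ} (hp : p ∈ RR G ℝ ℝ)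
    (h1 : Tendsto (fun m : ℕ => piA (1 : G →* ℝ →L[ℝ] ℝ) (a ^ m)) atTop (𝓝 p))
    (h2 : Tendsto (fun m : ℕ => piA (1 : G' →* ℝ →L[ℝ] ℝ) (a' ^ m)) atTop (𝓝 p')) :
    push φ p = p' := by
  refine tendsto_nhds_unique ?_ h2
  rw [tendsto_iff_norm_sub_tendsto_zero] at h1 ⊢
  refine squeeze_zero (fun _ => norm_nonneg _) (fun m => ?_) h1
  have m1 : piA (1 : G →* ℝ →L[ℝ] ℝ) (a ^ m) ∈ RR G ℝ ℝ := piA_mem _ _
  have e1 : push φ (piA (1 : G →* ℝ →L[ℝ] ℝ) (a ^ m) - p) =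
      piA (1 : G' →* ℝ →L[ℝ] ℝ) (a' ^ m) - push φ p := by
    rw [sub_eq_add_neg, ← neg_one_smul ℝ p, h.add m1 (Submodule.smul_mem _ _ hp), h.smul _ hp,
      T2.push_piA h, map_pow, ha, neg_one_smul, sub_eq_add_neg]
  rw [← e1]
  exact (h.mem (sub_mem m1 hp)).2.2

theorem stT2 (hPUSH : St_PUSH) (hRES : St_RES) (hKER : St_KER) (hPRI : St_PRI) : St_T2 := by
  obtain ⟨C, W, _, _, _, D, Γ, _, gen, H⟩ := hPRI
  choose h p hp ht hne h0 using H
  obtain ⟨hle, hker⟩ := hKER C W D Γ gen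
  choose r hr1 hr2 hr3 using fun I : Set ℕ =>
    hRES C W Γ gen _ _ (h univ) (h I) (hle univ I (subset_univ I))
  have hm : p univ ∈ RR (Gg (h univ)) ℝ ℝ :=
    isClosed_RR.mem_of_tendsto (ht univ) (Eventually.of_forall fun m => piA_mem _ _)
  have key : ∀ I, push (r I) (p univ) = p I := fun I =>
    T2.push_lim (hPUSH _ _ _ (hr1 I)) (hr2 I) hm (ht univ) (ht I)
  refine ⟨Gg (h univ), inferInstance, fun n => Gg (h (Ici n)), fun _ => inferInstance, Gg (h ∅),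
    inferInstance, fun n => r (Ici n), r ∅, ⟨p univ, hm⟩, fun n => hr1 _, hr1 _, fun g hg => ?_,
    Subtype.ext (hp univ), fun n => ?_, ?_⟩
  · obtain ⟨g1, g2⟩ := (hr3 ∅ g).1 hg
    filter_upwards [hker (Multiplicative.toAdd g.left) fun ω hω => g2 ω.1 hω] with n hn
    exact (hr3 _ g).2 ⟨g1, fun ω hω => hn ⟨ω, _⟩ hω⟩
  · rw [key]; exact hne _ nonempty_Ici
  · rw [key]; exact h0 _ rfl

end Pool.Agent.Lib.CX
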