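import Pool.Agent.Lib.IT.Main
import Pool.Agent.Lib.CX.BG1
import Pool.Agent.Lib.CX.BG2
import Pool.Agent.Lib.CX.BG3
import Pool.Agent.Lib.CX.CB
import Pool.Agent.Lib.CX.FAITH
import Pool.Agent.Lib.CX.FIN
import Pool.Agent.Lib.CX.GRA2
import Pool.Agent.Lib.CX.IND
import Pool.Agent.Lib.CX.KER
import Pool.Agent.Lib.CX.KTR2
import Pool.Agent.Lib.CX.LIFT
import Pool.Agent.Lib.CX.LIM2
import Pool.Agent.Lib.CX.PRI
import Pool.Agent.Lib.CX.PUSH
import Pool.Agent.Lib.CX.RES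
import Pool.Agent.Lib.CX.T2
import Pool.Agent.Lib.CX.VEC

/-! All blocks of the colimit argument together. -/

namespace Pool.Agent.Lib.CX

open IT

theorem mainL_holds : St_MAIN :=
  main_of (stPUSH stCB stVEC) stKTR2 stIND (stGRA2 stBG1 (stFIN stBG2'))
    (stLIFT stBG1 (stBG3 stBG1) (stFIN stBG2'))
    (stT2 (stPUSH stCB stVEC) stRES stKER
      (stPRI seq_holds (stBIR geo_holds stCON) stCFG (stEXP stCON) (stEXT stCON)
        (stCHE POI4.stPOI4) stHAAR2 stALG stPAR stMEA stLIM2 stFAITH))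

end Pool.Agent.Lib.CX
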